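import Pool.Agent.Work.MP_8aaf67_al.H5.PGood

/-!
The class of groups all of whose nonabelian composition factors of order divisible by `p` are
`p`-good.
-/

universe u

namespace Pool.MP_8aaf67_al.H5

open Subgroup
open scoped commutatorElement

section

/-- every nonabelian composition factor of order divisible by `p` satisfies `C` -/
def CF (C : (H : Type u) → [Group H] → Prop) (p : ℕ) (G : Type u) [Group G] : Prop :=
  ∀ N : Subgroup G, N.IsSubnormal → ∀ (H : Type u) [Group H] (f : N →* H), Function.Surjective f →
    IsSimpleGroup H → (∃ a b : H, a * b ≠ b * a) → p ∣ Nat.card H → C H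

variable {C : (H : Type u) → [Group H] → Prop} {p : ℕ}

lemma CF.normal {G : Type u} [Group G] (hG : CF C p G) (E : Subgroup G) [hE : E.Normal] :
    CF C p E := by
  intro N hN H _ f hf hs hna hp
  have h1 : (N.map E.subtype).IsSubnormal := hN.trans' (Normal.isSubnormal hE)
  let e : N ≃* N.map E.subtype := N.equivMapOfInjective E.subtype E.subtype_injective
  exact hG _ h1 H (f.comp e.symm.toMonoidHom) (hf.comp e.symm.surjective) hs hna hp

lemma CF.of_surj {G G' : Type u} [Group G] [Group G'] (hG : CF C p G) (π : G →* G')
    (hπ : Function.Surjective π) : CF C p G' := by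
  intro N hN H _ f hf hs hna hp
  refine hG _ (hN.comap π) H (f.comp (π.subgroupComap N)) ?_ hs hna hp
  refine hf.comp ?_
  rintro ⟨y, hy⟩
  obtain ⟨x, rfl⟩ := hπ y
  exact ⟨⟨x, hy⟩, rfl⟩

lemma CF.ext {G G' : Type u} [Group G] [Group G'] [Finite G] [hp : Fact p.Prime]
    (hG' : CF C p G') (π : G →* G')
    (hπ : Function.Surjective π) (R : Subgroup G) [R.Normal] (hRp : IsPGroup p R)
    (hRk : R ≤ π.ker) (hidx : ¬ p ∣ R.relIndex π.ker) : CF C p G := by
  intro N hN H _ f hf hs hna hpH
  set A : Subgroup N := π.ker.subgroupOf N with hA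
  have hAn : (A.map f).Normal := (inferInstance : A.Normal).map f hf
  have hfinH : Finite H := Finite.of_surjective f hf
  rcases hAn.eq_bot_or_eq_top with h | h
  · -- `A` is in the kernel
    have hle : A ≤ f.ker := by
      intro x hx
      have : f x ∈ A.map f := ⟨x, hx, rfl⟩
      rw [h] at this
      exact mem_bot.mp this
    have hq := π.subgroupMap_surjective N
    have hker : (π.subgroupMap N).ker ≤ f.ker := by
      intro x hx
      apply hle
      rw [hA, mem_subgroupOf, MonoidHom.mem_ker]
      have := congrArg Subtype.val (MonoidHom.mem_ker.mp hx)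
      exact this
    let g : N.map π →* H := (π.subgroupMap N).liftOfSurjective hq ⟨f, hker⟩
    have hg : ∀ x, g (π.subgroupMap N x) = f x := fun x =>
      MonoidHom.liftOfRightInverse_comp_apply _ _ _ ⟨f, hker⟩ x
    refine hG' _ (hN.map hπ) H g ?_ hs hna hpH
    intro y
    obtain ⟨x, rfl⟩ := hf y
    exact ⟨_, hg x⟩
  · exfalso
    set R0 : Subgroup N := R.subgroupOf N with hR0
    have hR0n : (R0.map f).Normal := (inferInstance : R0.Normal).map f hf
    have hR0p : IsPGroup p (R0.map f) := (hRp.comap_subtype : IsPGroup p R0).map f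
    rcases hR0n.eq_bot_or_eq_top with h1 | h1
    · have hR0k : R0 ≤ f.ker := by
        intro x hx
        have : f x ∈ R0.map f := ⟨x, hx, rfl⟩
        rw [h1] at this
        exact mem_bot.mp this
      have hR0A : R0 ≤ A := fun x hx => hRk hx
      -- the order of `H`
      have h2 : f.ker.relIndex A = Nat.card H := by
        have h3 : A ⊔ f.ker = ⊤ := by
          have := congrArg (Subgroup.comap f) h
          rw [comap_map_eq, comap_top] at this
          exact this
        have h4 : f.ker.relIndex A = f.ker.index := by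
          rw [← relIndex_top_right, ← h3, relIndex_sup_right]
        rw [h4, index_ker, MonoidHom.range_eq_top.mpr hf, card_top]
      have h5 : f.ker.relIndex A ∣ R0.relIndex A := relIndex_dvd_of_le_left A hR0k
      have h6 : R0.relIndex A = R.relIndex (π.ker ⊓ N) := by
        rw [hR0, hA, ← inf_subgroupOf_right π.ker N, relIndex_subgroupOf inf_le_right]
      have h7 : R.relIndex (π.ker ⊓ N) ∣ R.relIndex π.ker := by
        have h8 := relIndex_mul_relIndex R (R ⊔ (π.ker ⊓ N)) π.ker le_sup_left
          (sup_le hRk inf_le_left)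
        rw [relIndex_sup_left] at h8
        exact Dvd.intro _ h8
      apply hidx
      refine dvd_trans ?_ h7
      rw [← h6]
      refine dvd_trans ?_ h5
      rw [h2]
      exact hpH
    · -- `H` is a `p`-group
      have hHp : IsPGroup p H := by
        have h2 : IsPGroup p (⊤ : Subgroup H) := h1 ▸ hR0p
        exact h2.of_equiv topEquiv
      have hnt : Nontrivial H := by
        obtain ⟨a, b, hab⟩ := hna
        by_contra hn
        rw [not_nontrivial_iff_subsingleton] at hn
        exact hab (Subsingleton.elim _ _)
      have hc : center H ≠ ⊥ := by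
        have := hHp.center_nontrivial
        exact (nontrivial_iff_ne_bot _).mp this
      have hct : center H = ⊤ := (inferInstance : (center H).Normal).eq_bot_or_eq_top.resolve_left hc
      obtain ⟨a, b, hab⟩ := hna
      apply hab
      have : b ∈ center H := hct ▸ mem_top b
      exact mem_center_iff.mp this a

lemma CF.supp {G : Type u} [Group G] [Finite G] [hp : Fact p.Prime] (Y N : Subgroup G) [Y.Normal]
    (hG : CF C p (G ⧸ Y)) (h : Supp p Y N) : CF C p N := by
  obtain ⟨hYN, R, hRY, hRN, hRp, hRn, hidx⟩ := h
  have hker : ((QuotientGroup.mk' Y).comp N.subtype).ker = Y.subgroupOf N := by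
    ext x
    rw [MonoidHom.mem_ker, mem_subgroupOf]
    exact QuotientGroup.eq_one_iff _
  have hR'n : (R.subgroupOf N).Normal := by
    constructor
    intro n hn g
    rw [mem_subgroupOf] at hn ⊢
    exact hRn g g.2 _ hn
  refine CF.ext hG _ (sup_surj Y N hYN) (R.subgroupOf N) ?_ ?_ ?_
  · exact hRp.comap_subtype
  · rw [hker]
    exact fun x hx => hRY hx
  · rw [hker, ← inf_subgroupOf_right Y N, relIndex_subgroupOf inf_le_right]
    exact hidx

/-- main theorem for the class -/
theorem good_of_CF [hp : Fact p.Prime] (N : ℕ) : ∀ (G : Type u) [Group G] [Finite G],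
    Nat.card G = N → CF (fun H [Group H] => PGood p H) p G → ∀ w, Good p G w := by
  induction N using Nat.strong_induction_on with
  | _ N ih =>
  intro G _ _ hcard hG
  have hlt : ∀ M : Subgroup G, M ≠ ⊤ → Nat.card M < N := by
    intro M hM
    rw [← hcard, ← card_top (G := G)]
    refine lt_of_le_of_ne (card_le_of_le le_top) (fun h => hM ?_)
    exact eq_of_le_of_card_ge le_top h.ge
  rcases reduction (G := G) (p := p)
    (fun E _ hE w => ih _ (hlt E hE) E rfl (hG.normal E) w)
    (fun Y N _ hN hs w => ih _ (hlt N hN) N rfl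
      (CF.supp Y N (hG.of_surj _ (QuotientGroup.mk'_surjective Y)) hs) w)
    (fun M _ hM w => ih _ (by
      rw [← hcard, ← card_mul_index M]
      have h1 : 1 < Nat.card M := by
        rw [Finite.one_lt_card_iff_nontrivial]
        exact (nontrivial_iff_ne_bot M).mpr hM
      have h2 : 0 < M.index := Nat.pos_of_ne_zero FiniteIndex.index_ne_zero
      change M.index < _
      exact lt_mul_of_one_lt_left h2 h1) (G ⧸ M) rfl
      (hG.of_surj _ (QuotientGroup.mk'_surjective M)) w) with h | ⟨Q, hQ⟩
  · exact h
  · have hQn := hQ.normal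
    -- the simple quotient
    have hnt : Nontrivial (G ⧸ Q) := by
      rw [← Finite.one_lt_card_iff_nontrivial]
      have h1 : 0 < Q.index := Nat.pos_of_ne_zero FiniteIndex.index_ne_zero
      have h2 := Nat.le_of_dvd h1 hQ.dvd
      exact lt_of_lt_of_le hp.out.one_lt h2
    have hsimple : IsSimpleGroup (G ⧸ Q) := by
      refine ⟨fun M hM => ?_⟩
      have hπs := QuotientGroup.mk'_surjective Q
      have h1 := hQ.simple (M.comap (QuotientGroup.mk' Q)) (hM.comap _) (by
        intro x hx
        change QuotientGroup.mk' Q x ∈ M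
        rw [(QuotientGroup.eq_one_iff x).mpr hx |> (fun h => (h : QuotientGroup.mk' Q x = 1))]
        exact M.one_mem)
      have h2 : M = (M.comap (QuotientGroup.mk' Q)).map (QuotientGroup.mk' Q) :=
        (map_comap_eq_self_of_surjective hπs M).symm
      rcases h1 with h | h
      · left
        rw [h2, h]
        exact (Subgroup.map_eq_bot_iff _).mpr (by rw [QuotientGroup.ker_mk'])
      · right
        rw [h2, h, map_top_of_surjective _ hπs]
    have hna : ∃ a b : G ⧸ Q, a * b ≠ b * a := by
      by_contra hcon
      push Not at hcon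
      have h1 : ⁅(⊤ : Subgroup G), (⊤ : Subgroup G)⁆ ≤ Q := by
        rw [commutator_le]
        intro a _ b _
        rw [← QuotientGroup.eq_one_iff]
        change QuotientGroup.mk' Q ⁅a, b⁆ = 1
        rw [map_commutatorElement, commutatorElement_eq_one_iff_mul_comm]
        exact hcon _ _
      rw [hQ.perfect] at h1
      have h2 : Q = ⊤ := top_le_iff.mp h1
      have h3 := hQ.dvd
      rw [h2, index_top] at h3
      exact hp.out.one_lt.ne' (Nat.dvd_one.mp h3)
    have hPG : PGood p (G ⧸ Q) := by
      have htop : CF (fun H [Group H] => PGood p H) p (G ⧸ Q) :=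
        hG.of_surj _ (QuotientGroup.mk'_surjective Q)
      exact htop ⊤ IsSubnormal.top (G ⧸ Q) (⊤ : Subgroup (G ⧸ Q)).subtype
        (fun x => ⟨⟨x, mem_top x⟩, rfl⟩) hsimple hna hQ.dvd
    exact fun w => good_of_special Q hQ.coprime hQ.frattini hPG w

end

end Pool.MP_8aaf67_al.H5
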