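import Mathlib

/-!
Outer commutator words as binary trees, their value sets and verbal subgroups.
-/

namespace Pool.MP_8aaf67_al.H5

open Subgroup
open scoped commutatorElement

/-- outer commutator words as binary trees -/
inductive Tree
  | leaf : Tree
  | node : Tree → Tree → Tree

/-- the set of values in `G` -/
def vals (G : Type*) [Group G] : Tree → Set G
  | .leaf => Set.univ
  | .node u v => {x | ∃ a ∈ vals G u, ∃ b ∈ vals G v, ⁅a, b⁆ = x}

/-- the verbal subgroup -/
def verb (G : Type*) [Group G] (w : Tree) : Subgroup G := closure (vals G w)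

section
variable {G : Type*} [Group G] {H : Type*} [Group H]

lemma conj_comm (g a b : G) : g * ⁅a, b⁆ * g⁻¹ = ⁅g * a * g⁻¹, g * b * g⁻¹⁆ := by
  simp only [commutatorElement_def]; group

lemma vals_conj (w : Tree) (g x : G) (hx : x ∈ vals G w) : g * x * g⁻¹ ∈ vals G w := by
  induction w generalizing x with
  | leaf => trivial
  | node u v hu hv =>
    obtain ⟨a, ha, b, hb, rfl⟩ := hx
    exact ⟨_, hu a ha, _, hv b hb, (conj_comm g a b).symm⟩

lemma vals_conj' (w : Tree) (g x : G) (hx : x ∈ vals G w) : g⁻¹ * x * g ∈ vals G w := by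
  simpa using vals_conj w g⁻¹ x hx

lemma vals_inv (w : Tree) (x : G) (hx : x ∈ vals G w) : x⁻¹ ∈ vals G w := by
  induction w generalizing x with
  | leaf => trivial
  | node u v hu hv =>
    obtain ⟨a, ha, b, hb, rfl⟩ := hx
    refine ⟨a⁻¹, hu a ha, a * b * a⁻¹, vals_conj v a b hb, ?_⟩
    simp only [commutatorElement_def]; group

lemma vals_map (f : G →* H) (w : Tree) (x : G) (hx : x ∈ vals G w) : f x ∈ vals H w := by
  induction w generalizing x with
  | leaf => trivial
  | node u v hu hv =>
    obtain ⟨a, ha, b, hb, rfl⟩ := hx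
    exact ⟨_, hu a ha, _, hv b hb, (map_commutatorElement f a b).symm⟩

lemma vals_surj (f : G →* H) (hf : Function.Surjective f) (w : Tree) (y : H)
    (hy : y ∈ vals H w) : ∃ x ∈ vals G w, f x = y := by
  induction w generalizing y with
  | leaf => obtain ⟨x, rfl⟩ := hf y; exact ⟨x, trivial, rfl⟩
  | node u v hu hv =>
    obtain ⟨a, ha, b, hb, rfl⟩ := hy
    obtain ⟨a', ha', rfl⟩ := hu a ha
    obtain ⟨b', hb', rfl⟩ := hv b hb
    exact ⟨_, ⟨a', ha', b', hb', rfl⟩, map_commutatorElement f a' b'⟩

/-- the subgroup generated by a conjugation invariant set is normal -/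
lemma closure_normal_of_conj {S : Set G} (hS : ∀ g x, x ∈ S → g * x * g⁻¹ ∈ S) :
    (closure S).Normal := by
  constructor
  intro n hn g
  induction hn using closure_induction with
  | mem x hx => exact subset_closure (hS g x hx)
  | one => simp
  | mul x y _ _ hx hy =>
    have : g * (x * y) * g⁻¹ = (g * x * g⁻¹) * (g * y * g⁻¹) := by group
    rw [this]; exact mul_mem hx hy
  | inv x _ hx =>
    have : g * x⁻¹ * g⁻¹ = (g * x * g⁻¹)⁻¹ := by group
    rw [this]; exact inv_mem hx

instance verb_normal (w : Tree) : (verb G w).Normal :=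
  closure_normal_of_conj fun g x hx => vals_conj w g x hx

lemma vals_subset_verb (w : Tree) {x : G} (hx : x ∈ vals G w) : x ∈ verb G w :=
  subset_closure hx

lemma verb_leaf : verb G .leaf = ⊤ := by
  simp [verb, vals]

/-- commutators of closures of sets inside a subgroup `N` normalised by the closures -/
lemma commutator_closure_le {A B : Set G} {N : Subgroup G}
    (hN : ∀ g ∈ closure A ⊔ closure B, ∀ n ∈ N, g * n * g⁻¹ ∈ N)
    (h : ∀ a ∈ A, ∀ b ∈ B, ⁅a, b⁆ ∈ N) : ⁅closure A, closure B⁆ ≤ N := by
  rw [commutator_le]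
  have h1 : ∀ a ∈ closure A, ∀ b ∈ B, ⁅a, b⁆ ∈ N := by
    intro a ha b hb
    have hab : ∀ a ∈ closure A, a ∈ closure A ⊔ closure B := fun a ha => mem_sup_left ha
    induction ha using closure_induction with
    | mem a ha => exact h a ha b hb
    | one => simp
    | mul x y hx hy ihx ihy =>
      have : ⁅x * y, b⁆ = (x * ⁅y, b⁆ * x⁻¹) * ⁅x, b⁆ := by
        simp only [commutatorElement_def]; group
      rw [this]
      exact mul_mem (hN x (hab x hx) _ ihy) ihx
    | inv x hx ihx =>
      have : ⁅x⁻¹, b⁆ = x⁻¹ * ⁅x, b⁆⁻¹ * x⁻¹⁻¹ := by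
        simp only [commutatorElement_def]; group
      rw [this]
      exact hN _ (inv_mem (hab x hx)) _ (inv_mem ihx)
  intro a ha b hb
  have hab : ∀ b ∈ closure B, b ∈ closure A ⊔ closure B := fun b hb => mem_sup_right hb
  induction hb using closure_induction with
  | mem b hb => exact h1 a ha b hb
  | one => simp
  | mul x y hx hy ihx ihy =>
    have : ⁅a, x * y⁆ = ⁅a, x⁆ * (x * ⁅a, y⁆ * x⁻¹) := by
      simp only [commutatorElement_def]; group
    rw [this]
    exact mul_mem ihx (hN x (hab x hx) _ ihy)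
  | inv x hx ihx =>
    have : ⁅a, x⁻¹⁆ = x⁻¹ * ⁅a, x⁆⁻¹ * x⁻¹⁻¹ := by
      simp only [commutatorElement_def]; group
    rw [this]
    exact hN _ (inv_mem (hab x hx)) _ (inv_mem ihx)

lemma verb_node (u v : Tree) : verb G (.node u v) = ⁅verb G u, verb G v⁆ := by
  apply le_antisymm
  · rw [verb, closure_le]
    rintro _ ⟨a, ha, b, hb, rfl⟩
    exact commutator_mem_commutator (subset_closure ha) (subset_closure hb)
  · apply commutator_closure_le
    · intro g _ n hn
      exact (verb_normal (G := G) (.node u v)).conj_mem n hn g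
    · intro a ha b hb
      exact subset_closure ⟨a, ha, b, hb, rfl⟩

lemma verb_map (f : G →* H) (hf : Function.Surjective f) (w : Tree) :
    (verb G w).map f = verb H w := by
  rw [verb, verb, MonoidHom.map_closure]
  congr 1
  ext y
  constructor
  · rintro ⟨x, hx, rfl⟩
    exact vals_map f w x hx
  · intro hy
    obtain ⟨x, hx, rfl⟩ := vals_surj f hf w y hy
    exact ⟨x, hx, rfl⟩

lemma verb_map_le (f : G →* H) (w : Tree) : (verb G w).map f ≤ verb H w := by
  rw [verb, MonoidHom.map_closure, closure_le]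
  rintro _ ⟨x, hx, rfl⟩
  exact subset_closure (vals_map f w x hx)

end

end Pool.MP_8aaf67_al.H5
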