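import Mathlib

/-!
Transfer lemma for two normal subgroups: a central `p`-element of `[U, K]` lies in
`[P ⊓ U, P ⊓ K]`.
-/

namespace Pool.MP_8aaf67_al.H5

open Subgroup
open scoped commutatorElement

variable {G : Type*} [Group G] {A : Type*} [CommGroup A]

/-- right commutator -/
def rc (a b : G) : G := a⁻¹ * b⁻¹ * a * b

/-- left multiplication permutes the cosets -/
lemma prod_out_mul (V : Subgroup G) (V0 : Subgroup V) [Fintype (V ⧸ V0)] (F : G → A)
    (hF : ∀ x ∈ V, ∀ κ : V, κ ∈ V0 → F (x * κ) = F x) (k : G) (hk : k ∈ V) :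
    ∏ q : V ⧸ V0, F (k * (q.out : V)) = ∏ q : V ⧸ V0, F ((q.out : V) : G) := by
  have h1 : ∀ q : V ⧸ V0, F (k * (q.out : V)) = F ((((⟨k, hk⟩ : V) • q).out : V) : G) := by
    intro q
    have h2 : (QuotientGroup.mk (((⟨k, hk⟩ : V) • q).out) : V ⧸ V0)
        = QuotientGroup.mk ((⟨k, hk⟩ : V) * q.out) := by
      rw [QuotientGroup.out_eq']
      conv_lhs => rw [← QuotientGroup.out_eq' q]
      rfl
    have h3 := QuotientGroup.eq.mp h2
    have h4 := hF _ (((⟨k, hk⟩ : V) • q).out).2 _ h3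
    rw [← h4]
    congr 1
    simp
  rw [Finset.prod_congr rfl (fun q _ => h1 q)]
  exact Fintype.prod_equiv (MulAction.toPerm (⟨k, hk⟩ : V)) _ _ (fun q => rfl)

/-- the extension step -/
lemma ext_step (I V W : Subgroup G) [I.Normal] (V0 : Subgroup V) [Fintype (V ⧸ V0)]
    (hVW : ∀ w ∈ W, ∀ v ∈ V, rc w v ∈ I)
    (h : G → A) (hmul : ∀ x ∈ I, ∀ y ∈ I, h (x * y) = h x * h y)
    (hV : ∀ v : V, v ∈ V0 → ∀ x ∈ I, h ((v : G)⁻¹ * x * v) = h x)
    (hW : ∀ w ∈ W, ∀ x ∈ I, h (w⁻¹ * x * w) = h x)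
    (hrc : ∀ w ∈ W, ∀ v : V, v ∈ V0 → h (rc w v) = 1) :
    ∃ h' : G → A, (∀ x ∈ I, ∀ y ∈ I, h' (x * y) = h' x * h' y) ∧
      (∀ v ∈ V, ∀ x ∈ I, h' (v⁻¹ * x * v) = h' x) ∧
      (∀ w ∈ W, ∀ x ∈ I, h' (w⁻¹ * x * w) = h' x) ∧
      (∀ w ∈ W, ∀ v ∈ V, h' (rc w v) = 1) ∧
      (∀ x ∈ I, (∀ v ∈ V, v * x = x * v) → h' x = h x ^ (Fintype.card (V ⧸ V0))) := by
  classical
  have hI : ∀ g x : G, x ∈ I → g⁻¹ * x * g ∈ I := by
    intro g x hx
    simpa using (inferInstance : I.Normal).conj_mem x hx g⁻¹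
  have hone : h 1 = 1 := by
    have := hmul 1 I.one_mem 1 I.one_mem
    simpa using this
  have hinv : ∀ x ∈ I, h x⁻¹ = (h x)⁻¹ := by
    intro x hx
    have := hmul x⁻¹ (inv_mem hx) x hx
    rw [inv_mul_cancel, hone] at this
    exact eq_inv_of_mul_eq_one_left this.symm
  have hII : ∀ i ∈ I, ∀ x ∈ I, h (i⁻¹ * x * i) = h x := by
    intro i hi x hx
    rw [hmul _ (mul_mem (inv_mem hi) hx) _ hi, hmul _ (inv_mem hi) _ hx, hinv i hi]
    rw [mul_comm, mul_inv_cancel_left]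
  refine ⟨fun z => ∏ q : V ⧸ V0, h (((q.out : V) : G)⁻¹ * z * ((q.out : V) : G)), ?_, ?_, ?_, ?_, ?_⟩
  · intro x hx y hy
    rw [← Finset.prod_mul_distrib]
    refine Finset.prod_congr rfl fun q _ => ?_
    rw [← hmul _ (hI _ _ hx) _ (hI _ _ hy)]
    congr 1; group
  · intro v hv x hx
    have := prod_out_mul V V0 (fun g => h (g⁻¹ * x * g)) (by
      intro g hg κ hκ
      have := hV κ hκ (g⁻¹ * x * g) (hI _ _ hx)
      simp only [mul_inv_rev]
      rw [← this]; congr 1; group) v hv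
    refine Eq.trans ?_ this
    refine Finset.prod_congr rfl fun q _ => ?_
    congr 1; group
  · intro w hw x hx
    refine Finset.prod_congr rfl fun q _ => ?_
    set y : G := ((q.out : V) : G) with hy
    have hyV : y ∈ V := (q.out : V).2
    have e : y⁻¹ * (w⁻¹ * x * w) * y = (rc w y)⁻¹ * (w⁻¹ * (y⁻¹ * x * y) * w) * rc w y := by
      simp only [rc]; group
    rw [e, hII _ (hVW w hw y hyV) _ (hI _ _ (hI _ _ hx)), hW w hw _ (hI _ _ hx)]
  · intro w hw v hv
    have h1 := prod_out_mul V V0 (fun g => h (rc w g)) (by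
      intro g hg κ hκ
      have e : rc w (g * κ) = rc w κ * ((κ : G)⁻¹ * rc w g * κ) := by
        simp only [rc]; group
      rw [e, hmul _ (hVW w hw _ κ.2) _ (hI _ _ (hVW w hw g hg)), hrc w hw κ hκ, one_mul,
        hV κ hκ _ (hVW w hw g hg)]) v hv
    have h2 : ∀ q : V ⧸ V0, h (rc w (v * ((q.out : V) : G)))
        = h (rc w ((q.out : V) : G)) * h ((((q.out : V) : G))⁻¹ * rc w v * ((q.out : V) : G)) := by
      intro q
      have e : rc w (v * ((q.out : V) : G)) = rc w ((q.out : V) : G) *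
          ((((q.out : V) : G))⁻¹ * rc w v * ((q.out : V) : G)) := by
        simp only [rc]; group
      rw [e, hmul _ (hVW w hw _ (q.out : V).2) _ (hI _ _ (hVW w hw v hv))]
    rw [Finset.prod_congr rfl (fun q _ => h2 q), Finset.prod_mul_distrib] at h1
    exact mul_eq_left.mp h1
  · intro x hx hc
    have : ∀ q : V ⧸ V0, h (((q.out : V) : G)⁻¹ * x * ((q.out : V) : G)) = h x := by
      intro q
      congr 1
      rw [mul_assoc, ← hc _ (q.out : V).2, inv_mul_cancel_left]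
    refine (Finset.prod_congr rfl (fun q _ => this q)).trans ?_
    simp

/-- conjugation by an element of `L` permutes the cosets of `D = L ⊓ I` in `I` -/
lemma prod_out_conj (I L : Subgroup G) [I.Normal] (D' : Subgroup I) [Fintype (I ⧸ D')]
    (hD' : ∀ κ : I, κ ∈ D' ↔ (κ : G) ∈ L) (F : G → A)
    (hF : ∀ x ∈ I, ∀ κ : G, κ ∈ L ⊓ I → F (x * κ) = F x) (g : G) (hg : g ∈ L) :
    ∏ q : I ⧸ D', F (g * ((q.out : I) : G) * g⁻¹)
      = ∏ q : I ⧸ D', F ((q.out : I) : G) := by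
  classical
  have hI : ∀ x : I, g * (x : G) * g⁻¹ ∈ I := fun x =>
    (inferInstance : I.Normal).conj_mem x x.2 g
  let σ : I ⧸ D' → I ⧸ D' := fun q => QuotientGroup.mk (⟨g * ((q.out : I) : G) * g⁻¹, hI _⟩ : I)
  have hσinj : Function.Injective σ := by
    intro q q' h
    have h1 := QuotientGroup.eq.mp h
    rw [hD'] at h1
    simp only [coe_mul, coe_inv, mul_inv_rev, inv_inv] at h1
    rw [← QuotientGroup.out_eq' q, ← QuotientGroup.out_eq' q']
    apply QuotientGroup.eq.mpr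
    rw [hD']
    have h2 := L.mul_mem (L.mul_mem (L.inv_mem hg) h1) hg
    simpa [mul_assoc] using h2
  have hσ : Function.Bijective σ := Finite.injective_iff_bijective.mp hσinj
  have h1 : ∀ q : I ⧸ D', F (g * ((q.out : I) : G) * g⁻¹) = F (((σ q).out : I) : G) := by
    intro q
    have h2 : (QuotientGroup.mk ((σ q).out) : I ⧸ D') =
        QuotientGroup.mk (⟨g * ((q.out : I) : G) * g⁻¹, hI _⟩ : I) := QuotientGroup.out_eq' _
    have h3 := QuotientGroup.eq.mp h2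
    have h4 := hF _ ((σ q).out : I).2 _ ⟨(hD' _).mp h3, Subtype.prop _⟩
    rw [← h4]
    congr 1
    simp
  rw [Finset.prod_congr rfl (fun q _ => h1 q)]
  exact hσ.prod_comp (fun q => F ((q.out : I) : G))

/-- the base step -/
lemma base_step (I L : Subgroup G) [I.Normal] (D' : Subgroup I) [Fintype (I ⧸ D')]
    (hD' : ∀ κ : I, κ ∈ D' ↔ (κ : G) ∈ L)
    (f : G → A) (hmul : ∀ x ∈ L ⊓ I, ∀ y ∈ L ⊓ I, f (x * y) = f x * f y)
    (hL : ∀ g ∈ L, ∀ x ∈ L ⊓ I, f (g⁻¹ * x * g) = f x) :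
    ∃ h : G → A, (∀ x ∈ I, ∀ y ∈ I, h (x * y) = h x * h y) ∧
      (∀ g ∈ L, ∀ x ∈ I, h (g⁻¹ * x * g) = h x) ∧
      (∀ g ∈ L, ∀ k ∈ L, rc g k ∈ I →
        h (rc g k) = f (rc g k) ^ (Fintype.card (I ⧸ D'))) ∧
      (∀ x ∈ L ⊓ I, (∀ v ∈ I, v * x = x * v) →
        h x = f x ^ (Fintype.card (I ⧸ D'))) := by
  classical
  have hone : f 1 = 1 := by
    have := hmul 1 (one_mem _) 1 (one_mem _)
    simpa using this
  have hIc : ∀ g x : G, x ∈ I → g * x * g⁻¹ ∈ I := fun g x hx =>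
    (inferInstance : I.Normal).conj_mem x hx g
  have hDc : ∀ g ∈ L, ∀ x ∈ L ⊓ I, g * x * g⁻¹ ∈ L ⊓ I := fun g hg x hx =>
    ⟨L.mul_mem (L.mul_mem hg hx.1) (L.inv_mem hg), hIc g x hx.2⟩
  have hL' : ∀ g ∈ L, ∀ x ∈ L ⊓ I, f (g * x * g⁻¹) = f x := by
    intro g hg x hx
    have := hL g⁻¹ (L.inv_mem hg) x hx
    simpa using this
  -- an equivariant function
  obtain ⟨φ, hφ⟩ : ∃ φ : G → A, ∀ x ∈ I, ∀ δ ∈ L ⊓ I, φ (x * δ) = φ x * f δ := by
    refine ⟨fun x => if hx : x ∈ I then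
      f ((((QuotientGroup.mk (⟨x, hx⟩ : I) : I ⧸ D').out : I) : G)⁻¹ * x) else 1, ?_⟩
    intro x hx δ hδ
    have hxδ : x * δ ∈ I := I.mul_mem hx hδ.2
    simp only [hx, hxδ, dif_pos]
    have h1 : (QuotientGroup.mk (⟨x * δ, hxδ⟩ : I) : I ⧸ D') = QuotientGroup.mk (⟨x, hx⟩ : I) := by
      symm
      apply QuotientGroup.eq.mpr
      rw [hD']
      simpa using hδ.1
    rw [h1, ← mul_assoc, hmul _ _ _ hδ]
    have h2 : (QuotientGroup.mk ((QuotientGroup.mk (⟨x, hx⟩ : I) : I ⧸ D').out) : I ⧸ D')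
        = QuotientGroup.mk (⟨x, hx⟩ : I) := QuotientGroup.out_eq' _
    have h3 := QuotientGroup.eq.mp h2
    rw [hD'] at h3
    exact ⟨by simpa using h3, I.mul_mem (I.inv_mem (Subtype.prop _)) hx⟩
  set N := Fintype.card (I ⧸ D') with hN
  -- transfer of an equivariant function
  have hG : ∀ ψ : G → A, (∀ x ∈ I, ∀ δ ∈ L ⊓ I, ψ (x * δ) = ψ x * f δ) → ∀ z ∈ I,
      ∀ x ∈ I, ∀ δ : G, δ ∈ L ⊓ I → ψ (z * (x * δ)) / ψ (x * δ) = ψ (z * x) / ψ x := by
    intro ψ hψ z hz x hx δ hδ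
    rw [← mul_assoc, hψ _ (I.mul_mem hz hx) _ hδ, hψ _ hx _ hδ, mul_div_mul_right_eq_div]
  have hsub : ∀ κ : I, κ ∈ D' → (κ : G) ∈ L ⊓ I := fun κ hκ => ⟨(hD' κ).mp hκ, κ.2⟩
  have hout : ∀ q : I ⧸ D', ((q.out : I) : G) ∈ I := fun q => (q.out : I).2
  -- independence of the equivariant function
  have hind : ∀ ψ : G → A, (∀ x ∈ I, ∀ δ ∈ L ⊓ I, ψ (x * δ) = ψ x * f δ) → ∀ z ∈ I,
      ∏ q : I ⧸ D', ψ (z * ((q.out : I) : G)) / ψ ((q.out : I) : G)
        = ∏ q : I ⧸ D', φ (z * ((q.out : I) : G)) / φ ((q.out : I) : G) := by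
    intro ψ hψ z hz
    have h1 := prod_out_mul I D' (fun x => ψ x / φ x) (by
      intro x hx κ hκ
      rw [hψ x hx κ (hsub κ hκ), hφ x hx κ (hsub κ hκ), mul_div_mul_right_eq_div]) z hz
    rw [← div_eq_one, ← Finset.prod_div_distrib] at h1 ⊢
    rw [← h1]
    refine Finset.prod_congr rfl fun q _ => ?_
    exact div_div_div_comm _ _ _ _
  refine ⟨fun z => ∏ q : I ⧸ D', φ (z * ((q.out : I) : G)) / φ ((q.out : I) : G),
    ?_, ?_, ?_, ?_⟩
  · intro x hx y hy
    have h1 := prod_out_mul I D' (fun g => φ (x * g) / φ g)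
      (fun g hg κ hκ => hG φ hφ x hx g hg κ (hsub κ hκ)) y hy
    simp only
    rw [← h1, ← Finset.prod_mul_distrib]
    refine Finset.prod_congr rfl fun q _ => ?_
    rw [mul_assoc x y, div_mul_div_cancel]
  · intro g hg z hz
    have hz' : g⁻¹ * z * g ∈ I := by simpa using hIc g⁻¹ z hz
    have h1 := prod_out_conj I L D' hD' (fun x => φ (g⁻¹ * z * g * x) / φ x)
      (fun x hx κ hκ => hG φ hφ _ hz' x hx κ hκ) g⁻¹ (L.inv_mem hg)
    simp only
    rw [← h1, ← hind (fun x => φ (g⁻¹ * x * g)) (by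
      intro x hx δ hδ
      have e : g⁻¹ * (x * δ) * g = (g⁻¹ * x * g) * (g⁻¹ * δ * g) := by group
      rw [e, hφ _ (by simpa using hIc g⁻¹ x hx) _ (by simpa using hDc g⁻¹ (L.inv_mem hg) δ hδ),
        hL g hg δ hδ]) z hz]
    refine Finset.prod_congr rfl fun q _ => ?_
    congr 2 <;> group
  · -- the homomorphism ρ
    have hR : ∀ g ∈ L, ∀ x ∈ I, ∀ δ : G, δ ∈ L ⊓ I →
        φ (g * (x * δ) * g⁻¹) / φ (x * δ) = φ (g * x * g⁻¹) / φ x := by
      intro g hg x hx δ hδ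
      have e : g * (x * δ) * g⁻¹ = (g * x * g⁻¹) * (g * δ * g⁻¹) := by group
      rw [e, hφ _ (hIc g x hx) _ (hDc g hg δ hδ), hL' g hg δ hδ, hφ _ hx _ hδ,
        mul_div_mul_right_eq_div]
    let ρ : L →* A :=
      { toFun := fun g => ∏ q : I ⧸ D',
          φ ((g : G) * ((q.out : I) : G) * (g : G)⁻¹) / φ ((q.out : I) : G)
        map_one' := by
          simp
        map_mul' := by
          intro g g'
          have h1 := prod_out_conj I L D' hD' (fun x => φ ((g : G) * x * (g : G)⁻¹) / φ x)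
            (fun x hx κ hκ => hR g g.2 x hx κ hκ) g' g'.2
          rw [← h1, ← Finset.prod_mul_distrib]
          refine Finset.prod_congr rfl fun q _ => ?_
          have e : ((g * g' : L) : G) * ((q.out : I) : G) * ((g * g' : L) : G)⁻¹ =
            (g : G) * ((g' : G) * ((q.out : I) : G) * (g' : G)⁻¹) * (g : G)⁻¹ := by
            simp only [coe_mul]; group
          rw [e, div_mul_div_cancel] }
    intro g hg k hk hgk
    have hgkL : rc g k ∈ L := by
      simp only [rc]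
      exact L.mul_mem (L.mul_mem (L.mul_mem (L.inv_mem hg) (L.inv_mem hk)) hg) hk
    have h1 : ρ ⟨rc g k, hgkL⟩ = 1 := by
      have : (⟨rc g k, hgkL⟩ : L) = (⟨g, hg⟩ : L)⁻¹ * (⟨k, hk⟩ : L)⁻¹ * ⟨g, hg⟩ * ⟨k, hk⟩ := rfl
      rw [this, map_mul, map_mul, map_mul, map_inv, map_inv]
      rw [mul_comm (ρ ⟨g, hg⟩)⁻¹, inv_mul_cancel_right, inv_mul_cancel]
    have h2 : ρ ⟨rc g k, hgkL⟩ * f (rc g k) ^ N =
        ∏ q : I ⧸ D', φ (rc g k * ((q.out : I) : G)) / φ ((q.out : I) : G) := by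
      have : f (rc g k) ^ N = ∏ q : I ⧸ D', f (rc g k) := by simp [hN]
      rw [this]
      change (∏ q : I ⧸ D', _) * _ = _
      rw [← Finset.prod_mul_distrib]
      refine Finset.prod_congr rfl fun q _ => ?_
      have h3 := hφ (rc g k * ((q.out : I) : G) * (rc g k)⁻¹) (hIc _ _ (hout q)) (rc g k)
        ⟨hgkL, hgk⟩
      rw [inv_mul_cancel_right] at h3
      rw [h3]
      simp only [div_eq_mul_inv]
      ac_rfl
    simp only
    rw [← h2, h1, one_mul]
  · intro x hx hc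
    have : ∀ q : I ⧸ D', φ (x * ((q.out : I) : G)) / φ ((q.out : I) : G) = f x := by
      intro q
      rw [← hc _ (hout q), hφ _ (hout q) _ hx, mul_div_cancel_left]
    refine (Finset.prod_congr rfl (fun q _ => this q)).trans ?_
    simp [hN]

/-- the index of `P ⊓ N` in a normal subgroup `N` is prime to `p` -/
lemma not_dvd_relIndex [Finite G] {p : ℕ} [Fact p.Prime] (P : Sylow p G) (N : Subgroup G)
    [N.Normal] : ¬ p ∣ (P : Subgroup G).relIndex N := by
  have h1 := relIndex_mul_relIndex ((P : Subgroup G) ⊓ N) (P : Subgroup G) ((P : Subgroup G) ⊔ N)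
    inf_le_left le_sup_left
  have h2 := relIndex_mul_relIndex ((P : Subgroup G) ⊓ N) N ((P : Subgroup G) ⊔ N)
    inf_le_right le_sup_right
  rw [inf_relIndex_left] at h1
  rw [inf_relIndex_right, relIndex_sup_right] at h2
  have h3 : (P : Subgroup G).relIndex N = (P : Subgroup G).relIndex ((P : Subgroup G) ⊔ N) := by
    have h4 : N.relIndex (P : Subgroup G) ≠ 0 := FiniteIndex.index_ne_zero
    rw [← h2, mul_comm] at h1
    exact (Nat.eq_of_mul_eq_mul_right (Nat.pos_of_ne_zero h4) h1).symm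
  rw [h3]
  intro hd
  exact P.not_dvd_index (hd.trans (relIndex_dvd_index_of_le le_sup_left))

lemma rc_inv (a b : G) : (rc a b)⁻¹ = rc b a := by simp only [rc]; group

lemma rc_mem_comm {H K : Subgroup G} {a b : G} (ha : a ∈ H) (hb : b ∈ K) : rc a b ∈ ⁅H, K⁆ := by
  have := commutator_mem_commutator (H.inv_mem ha) (K.inv_mem hb)
  rw [commutatorElement_def] at this
  simpa [rc] using this

theorem triple [Finite G] {p : ℕ} [hp : Fact p.Prime] (P : Sylow p G) (U K : Subgroup G)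
    [U.Normal] [K.Normal] (m : G) (hmP : m ∈ P) (hm : m ∈ ⁅U, K⁆)
    (hmU : ∀ u ∈ U, u * m = m * u) (hmK : ∀ k ∈ K, k * m = m * k) :
    m ∈ ⁅(P : Subgroup G) ⊓ U, (P : Subgroup G) ⊓ K⁆ := by
  classical
  set PU := (P : Subgroup G) ⊓ U with hPU
  set PK := (P : Subgroup G) ⊓ K with hPK
  set I := U ⊓ K with hI
  have : I.Normal := inferInstance
  set R := ⁅PU, PK⁆ with hR
  set L := PU ⊔ PK with hL
  have hLP : L ≤ P := sup_le inf_le_left inf_le_left
  have hUc : ∀ g x : G, x ∈ U → g⁻¹ * x * g ∈ U := fun g x hx => by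
    simpa using (inferInstance : U.Normal).conj_mem x hx g⁻¹
  have hKc : ∀ g x : G, x ∈ K → g⁻¹ * x * g ∈ K := fun g x hx => by
    simpa using (inferInstance : K.Normal).conj_mem x hx g⁻¹
  have hIc : ∀ g x : G, x ∈ I → g⁻¹ * x * g ∈ I := fun g x hx => ⟨hUc g x hx.1, hKc g x hx.2⟩
  -- R ≤ P ⊓ I
  have hUK : ⁅U, K⁆ ≤ I := commutator_le_inf U K
  have hRI : R ≤ I := (commutator_mono inf_le_right inf_le_right).trans hUK
  have hRP : R ≤ P := by
    rw [hR, commutator_le]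
    intro a ha b hb
    exact P.mul_mem (P.mul_mem (P.mul_mem ha.1 hb.1) (P.inv_mem ha.1)) (P.inv_mem hb.1)
  set D := (P : Subgroup G) ⊓ I with hD
  have hDU : D ≤ PU := fun x hx => ⟨hx.1, hx.2.1⟩
  have hDK : D ≤ PK := fun x hx => ⟨hx.1, hx.2.2⟩
  have hLI : L ⊓ I = D := le_antisymm (fun x hx => ⟨hLP hx.1, hx.2⟩)
    (fun x hx => ⟨mem_sup_left (hDU hx), hx.2⟩)
  have hRD : R ≤ D := le_inf hRP hRI
  have hRconj : ∀ y ∈ P, ∀ r ∈ R, y⁻¹ * r * y ∈ R := by
    intro y hy r hr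
    rw [hR, Subgroup.commutator_def] at hr ⊢
    induction hr using closure_induction with
    | mem x hx =>
      obtain ⟨a, ha, b, hb, rfl⟩ := hx
      refine subset_closure ⟨y⁻¹ * a * y, ⟨P.mul_mem (P.mul_mem (P.inv_mem hy) ha.1) hy,
        hUc y a ha.2⟩, y⁻¹ * b * y, ⟨P.mul_mem (P.mul_mem (P.inv_mem hy) hb.1) hy,
        hKc y b hb.2⟩, ?_⟩
      simp only [commutatorElement_def]; group
    | one => simp
    | mul a b _ _ iha ihb =>
      have : y⁻¹ * (a * b) * y = (y⁻¹ * a * y) * (y⁻¹ * b * y) := by group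
      rw [this]; exact mul_mem iha ihb
    | inv a _ iha =>
      have : y⁻¹ * a⁻¹ * y = (y⁻¹ * a * y)⁻¹ := by group
      rw [this]; exact inv_mem iha
  have hcomm : ∀ x ∈ D, ∀ g ∈ L, rc x g ∈ R := by
    let S : Subgroup G :=
      { carrier := {g | g ∈ P ∧ ∀ x ∈ D, rc x g ∈ R}
        one_mem' := ⟨P.one_mem, fun x _ => by simp [rc]⟩
        mul_mem' := by
          rintro g k ⟨hg, hg'⟩ ⟨hk, hk'⟩
          refine ⟨P.mul_mem hg hk, fun x hx => ?_⟩
          have : rc x (g * k) = rc x k * (k⁻¹ * rc x g * k) := by simp only [rc]; group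
          rw [this]
          exact R.mul_mem (hk' x hx) (hRconj k hk _ (hg' x hx))
        inv_mem' := by
          rintro g ⟨hg, hg'⟩
          refine ⟨P.inv_mem hg, fun x hx => ?_⟩
          have : rc x g⁻¹ = g⁻¹⁻¹ * (rc x g)⁻¹ * g⁻¹ := by simp only [rc]; group
          rw [this]
          exact hRconj g⁻¹ (P.inv_mem hg) _ (R.inv_mem (hg' x hx)) }
    have hLS : L ≤ S := by
      refine sup_le (fun g hg => ⟨hg.1, fun x hx => ?_⟩) (fun g hg => ⟨hg.1, fun x hx => ?_⟩)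
      · rw [hR, commutator_comm]
        exact rc_mem_comm (hDK hx) hg
      · exact rc_mem_comm (hDU hx) hg
    exact fun x hx g hg => (hLS hg).2 x hx
  have hDL : D ≤ L := fun x hx => mem_sup_left (hDU hx)
  -- `D / R` as a commutative group
  set R' : Subgroup D := R.subgroupOf D with hR'
  have hR'n : R'.Normal := by
    constructor
    intro n hn g
    rw [hR', mem_subgroupOf] at hn ⊢
    have := hRconj (g : G)⁻¹ (P.inv_mem g.2.1) _ hn
    simpa using this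
  let _ : CommGroup (D ⧸ R') :=
    { (inferInstance : Group (D ⧸ R')) with
      mul_comm := by
        intro a b
        induction a using QuotientGroup.induction_on
        induction b using QuotientGroup.induction_on
        rename_i a b
        rw [← QuotientGroup.mk_mul, ← QuotientGroup.mk_mul]
        apply QuotientGroup.eq.mpr
        rw [hR', mem_subgroupOf]
        have := hcomm b b.2 a (hDL a.2)
        simpa [rc, mul_assoc] using this }
  let f : G → D ⧸ R' := fun x => if hx : x ∈ D then QuotientGroup.mk (⟨x, hx⟩ : D) else 1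
  have hfD : ∀ x (hx : x ∈ D), f x = QuotientGroup.mk (⟨x, hx⟩ : D) := fun x hx => by
    simp only [f, hx, dif_pos]
  have hf1 : ∀ x ∈ D, f x = 1 → x ∈ R := by
    intro x hx h
    rw [hfD x hx, QuotientGroup.eq_one_iff, hR', mem_subgroupOf] at h
    exact h
  have hf1' : ∀ x ∈ R, f x = 1 := by
    intro x hx
    rw [hfD x (hRD hx), QuotientGroup.eq_one_iff, hR', mem_subgroupOf]
    exact hx
  have hfmul : ∀ x ∈ L ⊓ I, ∀ y ∈ L ⊓ I, f (x * y) = f x * f y := by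
    rw [hLI]
    intro x hx y hy
    rw [hfD x hx, hfD y hy, hfD _ (D.mul_mem hx hy)]
    rfl
  have hfL : ∀ g ∈ L, ∀ x ∈ L ⊓ I, f (g⁻¹ * x * g) = f x := by
    rw [hLI]
    intro g hg x hx
    have e : g⁻¹ * x * g = x * rc x g := by simp only [rc]; group
    have h1 := hcomm x hx g hg
    rw [e, hfmul x (hLI ▸ hx) _ (hLI ▸ (hRD h1)), hf1' _ h1, mul_one]
  -- the base step
  let D' : Subgroup I := L.subgroupOf I
  have : Fintype (I ⧸ D') := Fintype.ofFinite _
  obtain ⟨h, hmul, hL1, hrc0, hcen⟩ := base_step I L D' (fun κ => mem_subgroupOf) f hfmul hfL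
  have hone : ∀ h : G → D ⧸ R', (∀ x ∈ I, ∀ y ∈ I, h (x * y) = h x * h y) → h 1 = 1 := by
    intro h hmul
    have := hmul 1 I.one_mem 1 I.one_mem
    simpa using this
  have hinv : ∀ h : G → D ⧸ R', (∀ x ∈ I, ∀ y ∈ I, h (x * y) = h x * h y) →
      ∀ x ∈ I, h x⁻¹ = (h x)⁻¹ := by
    intro h hmul x hx
    have := hmul x⁻¹ (inv_mem hx) x hx
    rw [inv_mul_cancel, hone h hmul] at this
    exact eq_inv_of_mul_eq_one_left this.symm
  have hII : ∀ h : G → D ⧸ R', (∀ x ∈ I, ∀ y ∈ I, h (x * y) = h x * h y) →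
      ∀ i ∈ I, ∀ x ∈ I, h (i⁻¹ * x * i) = h x := by
    intro h hmul i hi x hx
    rw [hmul _ (mul_mem (inv_mem hi) hx) _ hi, hmul _ (inv_mem hi) _ hx, hinv h hmul i hi]
    rw [mul_comm, mul_inv_cancel_left]
  have hrcI : ∀ u ∈ U, ∀ k ∈ K, rc u k ∈ I := fun u hu k hk => hUK (rc_mem_comm hu hk)
  -- the two enlarged groups
  set U0 := PU ⊔ I with hU0
  set K0 := PK ⊔ I with hK0
  have hU0U : U0 ≤ U := sup_le inf_le_right inf_le_left
  have hK0K : K0 ≤ K := sup_le inf_le_right inf_le_right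
  have hinvU0 : ∀ w ∈ U0, ∀ x ∈ I, h (w⁻¹ * x * w) = h x := by
    intro w hw x hx
    obtain ⟨a, ha, i, hi, rfl⟩ := mem_sup_of_normal_right.mp hw
    have e : (a * i)⁻¹ * x * (a * i) = i⁻¹ * (a⁻¹ * x * a) * i := by group
    rw [e, hII h hmul i hi _ (hIc _ _ hx), hL1 a (mem_sup_left ha) x hx]
  have hinvK0 : ∀ w ∈ K0, ∀ x ∈ I, h (w⁻¹ * x * w) = h x := by
    intro w hw x hx
    obtain ⟨a, ha, i, hi, rfl⟩ := mem_sup_of_normal_right.mp hw
    have e : (a * i)⁻¹ * x * (a * i) = i⁻¹ * (a⁻¹ * x * a) * i := by group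
    rw [e, hII h hmul i hi _ (hIc _ _ hx), hL1 a (mem_sup_right ha) x hx]
  have hrc1 : ∀ w ∈ U0, ∀ v ∈ K0, h (rc w v) = 1 := by
    intro w hw v hv
    have hwU := hU0U hw
    obtain ⟨a, ha, i, hi, rfl⟩ := mem_sup_of_normal_right.mp hw
    obtain ⟨b, hb, j, hj, rfl⟩ := mem_sup_of_normal_right.mp hv
    have e1 : rc (a * i) (b * j) = rc (a * i) j * (j⁻¹ * rc (a * i) b * j) := by
      simp only [rc]; group
    have e2 : rc (a * i) b = (i⁻¹ * rc a b * i) * rc i b := by simp only [rc]; group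
    have e3 : rc (a * i) j = ((a * i)⁻¹ * j⁻¹ * (a * i)) * j := by simp only [rc]
    have e4 : rc i b = i⁻¹ * (b⁻¹ * i * b) := by simp only [rc]; group
    have hI1 : rc a b ∈ I := hrcI a ha.2 b hb.2
    have hI2 : rc i b ∈ I := hrcI i hi.1 b hb.2
    have hI3 : rc (a * i) b ∈ I := hrcI _ hwU b hb.2
    have hI4 : rc (a * i) j ∈ I := hrcI _ hwU j hj.2
    rw [e1, hmul _ hI4 _ (hIc _ _ hI3), hII h hmul j hj _ hI3, e2, hmul _ (hIc _ _ hI1) _ hI2,
      hII h hmul i hi _ hI1, hrc0 a (mem_sup_left ha) b (mem_sup_right hb) hI1,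
      hf1' _ (rc_mem_comm ha hb), one_pow, one_mul, e4, hmul _ (I.inv_mem hi) _ (hIc _ _ hi),
      hL1 b (mem_sup_right hb) i hi, ← hmul _ (I.inv_mem hi) _ hi, inv_mul_cancel,
      hone h hmul, mul_one, e3, hmul _ (hIc _ _ (I.inv_mem hj)) _ hj,
      hinvU0 _ hw _ (I.inv_mem hj), ← hmul _ (I.inv_mem hj) _ hj, inv_mul_cancel, hone h hmul]
  -- first extension
  let V0 : Subgroup K := K0.subgroupOf K
  have : Fintype (K ⧸ V0) := Fintype.ofFinite _
  obtain ⟨h1, hmul1, hK1, hU1, hrc2, hcen1⟩ := ext_step I K U0 V0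
    (fun w hw v hv => hrcI w (hU0U hw) v hv) h hmul
    (fun v hv x hx => hinvK0 v (mem_subgroupOf.mp hv) x hx) hinvU0
    (fun w hw v hv => hrc1 w hw v (mem_subgroupOf.mp hv))
  -- second extension
  let V1 : Subgroup U := U0.subgroupOf U
  have : Fintype (U ⧸ V1) := Fintype.ofFinite _
  obtain ⟨h2, hmul2, hU2, hK2, hrc3, hcen2⟩ := ext_step I U K V1
    (fun w hw v hv => by rw [← rc_inv]; exact I.inv_mem (hrcI v hv w hw)) h1 hmul1
    (fun v hv x hx => hU1 v (mem_subgroupOf.mp hv) x hx) hK1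
    (fun w hw v hv => by
      rw [← rc_inv, hinv h1 hmul1 _ (hrcI v v.2 w hw), hrc2 v (mem_subgroupOf.mp hv) w hw, inv_one])
  have hmI : m ∈ I := hUK hm
  have hmD : m ∈ D := ⟨hmP, hmI⟩
  have hm2 : h2 m = 1 := by
    let S : Subgroup G :=
      { carrier := {x | x ∈ I ∧ h2 x = 1}
        one_mem' := ⟨I.one_mem, hone h2 hmul2⟩
        mul_mem' := fun {a b} ha hb => ⟨I.mul_mem ha.1 hb.1, by
          rw [hmul2 a ha.1 b hb.1, ha.2, hb.2, mul_one]⟩
        inv_mem' := fun {a} ha => ⟨I.inv_mem ha.1, by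
          rw [hinv h2 hmul2 a ha.1, ha.2, inv_one]⟩ }
    have : ⁅U, K⁆ ≤ S := by
      rw [commutator_le]
      intro u hu k hk
      have e : ⁅u, k⁆ = (rc k⁻¹ u⁻¹)⁻¹ := by simp only [rc, commutatorElement_def]; group
      have hIm : rc k⁻¹ u⁻¹ ∈ I := by
        rw [← rc_inv]; exact I.inv_mem (hrcI _ (U.inv_mem hu) _ (K.inv_mem hk))
      refine ⟨hUK (commutator_mem_commutator hu hk), ?_⟩
      rw [e, hinv h2 hmul2 _ hIm, hrc3 _ (K.inv_mem hk) _ (U.inv_mem hu), inv_one]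
    exact (this hm).2
  have hcenm : h2 m = f m ^ (Fintype.card (I ⧸ D') * Fintype.card (K ⧸ V0) *
      Fintype.card (U ⧸ V1)) := by
    rw [hcen2 m hmI hmU, hcen1 m hmI hmK, hcen m (hLI ▸ hmD) (fun v hv => hmU v hv.1), pow_mul,
      pow_mul]
  rw [hm2] at hcenm
  -- the exponents are prime to `p`
  have hidx : ∀ (N : Subgroup G) [N.Normal] (M : Subgroup G), (P : Subgroup G) ⊓ N ≤ M →
      ∀ [Fintype (N ⧸ M.subgroupOf N)], Nat.Coprime p (Fintype.card (N ⧸ M.subgroupOf N)) := by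
    intro N _ M hM _
    rw [Nat.Prime.coprime_iff_not_dvd hp.out, ← Nat.card_eq_fintype_card]
    intro hd
    apply not_dvd_relIndex P N
    rw [← inf_relIndex_right]
    refine hd.trans ?_
    exact relIndex_dvd_of_le_left N hM
  have hcop : Nat.Coprime p (Fintype.card (I ⧸ D') * Fintype.card (K ⧸ V0) *
      Fintype.card (U ⧸ V1)) := by
    refine Nat.Coprime.mul_right (Nat.Coprime.mul_right (hidx I L (hDL)) (hidx K K0 ?_))
      (hidx U U0 ?_)
    · exact le_sup_left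
    · exact le_sup_left
  obtain ⟨n, hn⟩ := P.2 ⟨m, hmP⟩
  have hn' : m ^ p ^ n = 1 := by
    have := congrArg (Subtype.val) hn
    simpa using this
  have hfm : f m ^ p ^ n = 1 := by
    rw [hfD m hmD, ← QuotientGroup.mk_pow, QuotientGroup.eq_one_iff, hR', mem_subgroupOf]
    simp [hn']
  have hco2 : Nat.Coprime (p ^ n) (Fintype.card (I ⧸ D') * Fintype.card (K ⧸ V0) *
      Fintype.card (U ⧸ V1)) := Nat.Coprime.pow_left n hcop
  have ho : orderOf (f m) = 1 := by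
    have h1 := orderOf_dvd_of_pow_eq_one hfm
    have h2 := orderOf_dvd_of_pow_eq_one hcenm.symm
    exact Nat.eq_one_of_dvd_coprimes hco2 h1 h2
  exact hf1 m hmD (orderOf_eq_one_iff.mp ho)

end Pool.MP_8aaf67_al.H5
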