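import Pool.Agent.Work.MP_8aaf67_al.H5.Basic
import Pool.Agent.Work.MP_8aaf67_al.H5.Triple

/-!
A minimal normal `p`-subgroup can be factored out.
-/

namespace Pool.MP_8aaf67_al.H5

open Subgroup
open scoped commutatorElement

/-- the subgroup generated by the values of `w` in `P` -/
def gen {G : Type*} [Group G] (P : Subgroup G) (w : Tree) : Subgroup G :=
  closure {x | x ∈ P ∧ x ∈ vals G w}

/-- the statement for one group, one prime, one word -/
def Good (p : ℕ) (G : Type*) [Group G] (w : Tree) : Prop :=
  ∀ P : Sylow p G, (P : Subgroup G) ⊓ verb G w ≤ gen (P : Subgroup G) w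

section
variable {G : Type*} [Group G]

lemma gen_le (P : Subgroup G) (w : Tree) : gen P w ≤ P := by
  rw [gen, closure_le]; exact fun x hx => hx.1

lemma gen_le_verb (P : Subgroup G) (w : Tree) : gen P w ≤ verb G w := by
  rw [gen, closure_le]; exact fun x hx => subset_closure hx.2

lemma gen_conj (P : Subgroup G) (w : Tree) (g : G) (hg : ∀ x ∈ P, g * x * g⁻¹ ∈ P) :
    ∀ n ∈ gen P w, g * n * g⁻¹ ∈ gen P w := by
  intro n hn
  rw [gen] at hn ⊢
  induction hn using closure_induction with
  | mem x hx => exact subset_closure ⟨hg x hx.1, vals_conj w g x hx.2⟩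
  | one => simp
  | mul x y _ _ hx hy =>
    have : g * (x * y) * g⁻¹ = (g * x * g⁻¹) * (g * y * g⁻¹) := by group
    rw [this]; exact mul_mem hx hy
  | inv x _ hx =>
    have : g * x⁻¹ * g⁻¹ = (g * x * g⁻¹)⁻¹ := by group
    rw [this]; exact inv_mem hx

lemma gen_conj_mem (P : Subgroup G) (w : Tree) (g : G) (hg : g ∈ P) :
    ∀ n ∈ gen P w, g * n * g⁻¹ ∈ gen P w :=
  gen_conj P w g fun _ hx => P.mul_mem (P.mul_mem hg hx) (P.inv_mem hg)

/-- values of `w` with one variable in `M` -/
def valsM (M : Subgroup G) : Tree → Set G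
  | .leaf => M
  | .node u v => {x | (∃ a ∈ valsM M u, ∃ b ∈ vals G v, ⁅a, b⁆ = x) ∨
      (∃ a ∈ vals G u, ∃ b ∈ valsM M v, ⁅a, b⁆ = x)}

lemma valsM_sub (M : Subgroup G) (w : Tree) : valsM M w ⊆ vals G w := by
  induction w with
  | leaf => exact fun _ _ => trivial
  | node u v hu hv =>
    rintro x (⟨a, ha, b, hb, rfl⟩ | ⟨a, ha, b, hb, rfl⟩)
    · exact ⟨a, hu ha, b, hb, rfl⟩
    · exact ⟨a, ha, b, hv hb, rfl⟩

lemma valsM_sub_M (M : Subgroup G) [M.Normal] (w : Tree) : valsM M w ⊆ M := by
  induction w with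
  | leaf => exact fun _ h => h
  | node u v hu hv =>
    rintro x (⟨a, ha, b, hb, rfl⟩ | ⟨a, ha, b, hb, rfl⟩)
    · have h1 : ⁅a, b⁆ = a * (b * a⁻¹ * b⁻¹) := by simp only [commutatorElement_def]; group
      rw [h1]
      exact M.mul_mem (hu ha) ((inferInstance : M.Normal).conj_mem _ (M.inv_mem (hu ha)) b)
    · have h1 : ⁅a, b⁆ = (a * b * a⁻¹) * b⁻¹ := by simp only [commutatorElement_def]
      rw [h1]
      exact M.mul_mem ((inferInstance : M.Normal).conj_mem _ (hv hb) a) (M.inv_mem (hv hb))

lemma valsM_conj (M : Subgroup G) [M.Normal] (w : Tree) (g x : G) (hx : x ∈ valsM M w) :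
    g * x * g⁻¹ ∈ valsM M w := by
  induction w generalizing x with
  | leaf => exact (inferInstance : M.Normal).conj_mem x hx g
  | node u v hu hv =>
    rcases hx with (⟨a, ha, b, hb, rfl⟩ | ⟨a, ha, b, hb, rfl⟩)
    · exact Or.inl ⟨_, hu a ha, _, vals_conj v g b hb, (conj_comm g a b).symm⟩
    · exact Or.inr ⟨_, vals_conj u g a ha, _, hv b hb, (conj_comm g a b).symm⟩

/-- Lemma A -/
lemma commutator_verb_le (M : Subgroup G) [M.Normal] (w : Tree) :
    ⁅M, verb G w⁆ ≤ closure (valsM M w) := by
  induction w with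
  | leaf =>
    rw [show valsM M .leaf = (M : Set G) from rfl, closure_eq]
    exact commutator_le_left M _
  | node u v hu hv =>
    set E := closure (valsM M (.node u v)) with hE
    have hEn : E.Normal := closure_normal_of_conj fun g x hx => valsM_conj M _ g x hx
    rw [verb_node]
    have h1 : ⁅⁅M, verb G u⁆, verb G v⁆ ≤ E := by
      refine (commutator_mono hu le_rfl).trans ?_
      apply commutator_closure_le
      · exact fun g _ n hn => hEn.conj_mem n hn g
      · exact fun a ha b hb => subset_closure (Or.inl ⟨a, ha, b, hb, rfl⟩)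
    have h2 : ⁅⁅M, verb G v⁆, verb G u⁆ ≤ E := by
      rw [commutator_comm]
      refine (commutator_mono le_rfl hv).trans ?_
      apply commutator_closure_le
      · exact fun g _ n hn => hEn.conj_mem n hn g
      · exact fun a ha b hb => subset_closure (Or.inr ⟨a, ha, b, hb, rfl⟩)
    -- three subgroups lemma modulo `E`
    have h3 : ∀ A B C : Subgroup G, ⁅⁅A, B⁆, C⁆ ≤ E ↔
        ⁅⁅A.map (QuotientGroup.mk' E), B.map (QuotientGroup.mk' E)⁆,
          C.map (QuotientGroup.mk' E)⁆ = ⊥ := by
      intro A B C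
      rw [← Subgroup.map_commutator, ← Subgroup.map_commutator, Subgroup.map_eq_bot_iff,
        QuotientGroup.ker_mk']
    rw [commutator_comm, h3]
    rw [h3] at h1 h2
    apply commutator_commutator_eq_bot_of_rotate
    · rw [commutator_comm (Subgroup.map (QuotientGroup.mk' E) (verb G v))]
      exact h2
    · exact h1

/-- values modulo a normal subgroup complemented by `N` -/
lemma vals_of_sup (K N : Subgroup G) [K.Normal] (hKN : K ⊔ N = ⊤) (w : Tree) (a : G)
    (ha : a ∈ vals G w) : ∃ a' ∈ vals N w, ∃ k ∈ K, a = k * (a' : G) := by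
  have hs : Function.Surjective ((QuotientGroup.mk' K).comp N.subtype) := by
    intro y
    obtain ⟨x, rfl⟩ := QuotientGroup.mk'_surjective K y
    have hx : x ∈ K ⊔ N := hKN ▸ mem_top x
    rw [sup_comm] at hx
    obtain ⟨n, hn, k, hk, rfl⟩ := mem_sup_of_normal_right.mp hx
    refine ⟨⟨n, hn⟩, ?_⟩
    simp only [MonoidHom.comp_apply, subtype_apply, map_mul]
    rw [(QuotientGroup.eq_one_iff k).mpr hk |> (fun h => (h : QuotientGroup.mk' K k = 1)), mul_one]
  obtain ⟨a', ha', h⟩ := vals_surj _ hs w (QuotientGroup.mk' K a) (vals_map _ w a ha)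
  refine ⟨a', ha', a * (a' : G)⁻¹, ?_, by group⟩
  have h2 : QuotientGroup.mk' K (a * (a' : G)⁻¹) = 1 := by
    rw [map_mul, map_inv, ← h]
    simp
  exact (QuotientGroup.eq_one_iff _).mp h2

lemma normal_minimal {M : Subgroup G} (hmin : ∀ N : Subgroup G, N.Normal → N ≤ M → N = ⊥ ∨ N = M)
    [M.Normal] (P : Subgroup G) (hMP : M ≤ P) (w : Tree) (y : G) (hy : y ∈ M)
    (hy1 : y ≠ 1) (hyw : y ∈ vals G w) : M ≤ gen P w := by
  let S : Set G := {x | x ∈ M ∧ x ∈ vals G w}
  have hSn : (closure S).Normal := closure_normal_of_conj fun g x hx =>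
    ⟨(inferInstance : M.Normal).conj_mem x hx.1 g, vals_conj w g x hx.2⟩
  have hSM : closure S ≤ M := by
    rw [closure_le]; exact fun x hx => hx.1
  rcases hmin _ hSn hSM with h | h
  · exfalso
    apply hy1
    have : y ∈ closure S := subset_closure ⟨hy, hyw⟩
    rw [h] at this
    exact mem_bot.mp this
  · rw [← h]
    exact Subgroup.closure_mono fun x hx => ⟨hMP hx.1, hx.2⟩

/-- the Frattini argument for `P ⊓ K` -/
lemma frattini [Finite G] {p : ℕ} [hp : Fact p.Prime] (P : Sylow p G) (K : Subgroup G) [K.Normal] :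
    K ⊔ normalizer (((P : Subgroup G) ⊓ K : Subgroup G) : Set G) = ⊤ := by
  have hdvd := not_dvd_relIndex P K
  let Q : Sylow p K := IsPGroup.toSylow (P := (P : Subgroup G).subgroupOf K)
    (by
      have : IsPGroup p ((P : Subgroup G).subgroupOf K) := P.2.comap_subtype
      exact this) hdvd
  have h1 := Sylow.normalizer_sup_eq_top Q
  have h2 : (Q : Subgroup K).map K.subtype = (P : Subgroup G) ⊓ K := by
    change ((P : Subgroup G).subgroupOf K).map K.subtype = _
    rw [subgroupOf_map_subtype]
  rw [h2] at h1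
  rw [sup_comm]; exact h1

/-- one-sided case -/
lemma one_sided [Finite G] {p : ℕ} [hp : Fact p.Prime] (P : Sylow p G) (M : Subgroup G) [M.Normal]
    (hMP : M ≤ P) (u v : Tree) (hv : Good p G v) (hMK : ⁅M, verb G v⁆ = ⊥) (hMv : M ≤ verb G v) :
    ⁅M, verb G u⁆ ≤ gen (P : Subgroup G) (.node u v) := by
  set K := verb G v with hK
  set PK := (P : Subgroup G) ⊓ K with hPK
  set N := normalizer (PK : Set G) with hN
  have hKn : K.Normal := verb_normal v
  have hKN : K ⊔ N = ⊤ := frattini P K
  set T := gen (P : Subgroup G) (.node u v) with hT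
  have hMcomm : ∀ m ∈ M, ∀ k ∈ K, ⁅m, k⁆ = 1 := by
    intro m hm k hk
    have := commutator_mem_commutator hm hk
    rw [hMK] at this
    exact mem_bot.mp this
  -- commutators of `P ⊓ K` with values of `u` in `N`
  have key : ∀ a : G, a ∈ N → a ∈ vals G u → ∀ y ∈ PK, ⁅y, a⁆ ∈ T := by
    intro a haN hau y hy
    have hy' := hv P hy
    rw [gen] at hy'
    induction hy' using closure_induction with
    | mem c hc =>
      have h1 : ⁅c, a⁆ = ⁅a, c⁆⁻¹ := by simp only [commutatorElement_def]; group
      refine subset_closure ⟨?_, ?_⟩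
      · have hc' : c ∈ PK := ⟨hc.1, vals_subset_verb v hc.2⟩
        have h2 : a * c⁻¹ * a⁻¹ ∈ PK := (mem_normalizer_iff.mp haN _).mp (PK.inv_mem hc')
        have h3 : ⁅c, a⁆ = c * (a * c⁻¹ * a⁻¹) := by simp only [commutatorElement_def]; group
        rw [h3]
        exact P.mul_mem hc.1 h2.1
      · rw [h1]
        exact vals_inv _ _ ⟨a, hau, c, hc.2, rfl⟩
    | one => simp
    | mul x z hx hz ihx ihz =>
      have h4 : ∀ x ∈ closure {x | x ∈ (P : Subgroup G) ∧ x ∈ vals G v}, x ∈ PK := fun x hx =>
        ⟨gen_le _ _ hx, gen_le_verb _ _ hx⟩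
      have h5 : ⁅x * z, a⁆ = (x * ⁅z, a⁆ * x⁻¹) * ⁅x, a⁆ := by
        simp only [commutatorElement_def]; group
      rw [h5]
      exact T.mul_mem (gen_conj_mem _ _ x (h4 x hx).1 _ (ihz (h4 z hz))) (ihx (h4 x hx))
    | inv x hx ihx =>
      have h4 : ∀ x ∈ closure {x | x ∈ (P : Subgroup G) ∧ x ∈ vals G v}, x ∈ PK := fun x hx =>
        ⟨gen_le _ _ hx, gen_le_verb _ _ hx⟩
      have h5 : ⁅x⁻¹, a⁆ = x⁻¹ * ⁅x, a⁆⁻¹ * x⁻¹⁻¹ := by
        simp only [commutatorElement_def]; group
      rw [h5]
      exact gen_conj_mem _ _ x⁻¹ (P.inv_mem (h4 x hx).1) _ (T.inv_mem (ihx (h4 x hx)))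
  have key2 : ∀ m ∈ M, ∀ a ∈ vals G u, ⁅m, a⁆ ∈ T := by
    intro m hm a ha
    obtain ⟨a', ha', k, hk, rfl⟩ := vals_of_sup K N hKN u a ha
    have hma : ⁅m, (a' : G)⁆ ∈ M := by
      have : ⁅m, (a' : G)⁆ = m * ((a' : G) * m⁻¹ * (a' : G)⁻¹) := by
        simp only [commutatorElement_def]; group
      rw [this]
      exact M.mul_mem hm ((inferInstance : M.Normal).conj_mem _ (M.inv_mem hm) _)
    have h1 : ⁅m, k * (a' : G)⁆ = ⁅m, k⁆ * (k * ⁅m, (a' : G)⁆ * k⁻¹) := by
      simp only [commutatorElement_def]; group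
    have h2 : k * ⁅m, (a' : G)⁆ * k⁻¹ = ⁅m, (a' : G)⁆ := by
      have := hMcomm _ hma k hk
      rw [commutatorElement_eq_one_iff_mul_comm] at this
      rw [← this]; group
    rw [h1, h2, hMcomm m hm k hk, one_mul]
    exact key a' a'.2 (vals_map N.subtype u a' ha') m ⟨hMP hm, hMv hm⟩
  rw [commutator_le]
  intro m hm b hb
  have h5 : ∀ b ∈ verb G u, ∀ m ∈ M, ⁅m, b⁆ ∈ T := by
    intro b hb
    rw [verb] at hb
    induction hb using closure_induction with
    | mem a ha => exact fun m hm => key2 m hm a ha
    | one => intro m hm; simp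
    | mul x y _ _ ihx ihy =>
      intro m hm
      have e : ⁅m, x * y⁆ = ⁅m, y⁆ * ⁅y * m * y⁻¹, x⁆ := by
        simp only [commutatorElement_def]; group
      rw [e]
      exact T.mul_mem (ihy m hm) (ihx _ ((inferInstance : M.Normal).conj_mem m hm y))
    | inv x _ ihx =>
      intro m hm
      have e : ⁅m, x⁻¹⁆ = ⁅x⁻¹ * m * x⁻¹⁻¹, x⁆⁻¹ := by
        simp only [commutatorElement_def]; group
      rw [e]
      exact T.inv_mem (ihx _ ((inferInstance : M.Normal).conj_mem m hm x⁻¹))
  exact h5 b hb m hm

lemma gen_node_symm (P : Subgroup G) (u v : Tree) : gen P (.node v u) ≤ gen P (.node u v) := by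
  rw [gen, closure_le]
  rintro x ⟨hx, a, ha, b, hb, rfl⟩
  have : ⁅a, b⁆ = ⁅b, a⁆⁻¹ := by simp only [commutatorElement_def]; group
  rw [this] at hx ⊢
  exact inv_mem (subset_closure ⟨by simpa using P.inv_mem hx, b, hb, a, ha, rfl⟩)

/-- a minimal normal `p`-subgroup can be factored out -/
theorem good_of_minimal [Finite G] {p : ℕ} [hp : Fact p.Prime] (M : Subgroup G) [M.Normal]
    (hMp : IsPGroup p M) (hMne : M ≠ ⊥)
    (hmin : ∀ N : Subgroup G, N.Normal → N ≤ M → N = ⊥ ∨ N = M)
    (hq : ∀ w, Good p (G ⧸ M) w) (w : Tree) : Good p G w := by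
  induction w with
  | leaf =>
    intro P x hx
    exact subset_closure ⟨hx.1, trivial⟩
  | node u v hu hv =>
    intro P
    have hMP : M ≤ P := hMp.le_sylow_of_normal P
    set T := gen (P : Subgroup G) (.node u v) with hT
    -- the key claim
    have key : M ⊓ verb G (.node u v) ≤ T := by
      rcases hmin (M ⊓ verb G (.node u v)) inferInstance inf_le_left with h | h
      · rw [h]; exact bot_le
      · rw [h]
        have hMw : M ≤ verb G (.node u v) := inf_eq_left.mp h
        by_contra hMT
        have hval : ∀ y ∈ M, y ∈ vals G (.node u v) → y = 1 := by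
          intro y hy hyw
          by_contra hy1
          exact hMT (normal_minimal hmin (P : Subgroup G) hMP _ y hy hy1 hyw)
        have hMw' : M ≤ ⁅verb G u, verb G v⁆ := by rw [← verb_node]; exact hMw
        have hMU : M ≤ verb G u := hMw'.trans (commutator_le_left _ _)
        have hMV : M ≤ verb G v := hMw'.trans (commutator_le_right _ _)
        have hcn : ∀ s : Tree, ⁅M, verb G s⁆ = ⊥ ∨ ⁅M, verb G s⁆ = M := fun s =>
          hmin _ inferInstance (commutator_le_left _ _)
        -- one of the two commutators is trivial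
        have hone : ⁅M, verb G u⁆ = ⊥ ∨ ⁅M, verb G v⁆ = ⊥ := by
          rcases hcn u with h1 | h1
          · exact Or.inl h1
          right
          rcases hcn v with h2 | h2
          · exact h2
          -- a nontrivial value
          obtain ⟨y, hy, hy1⟩ : ∃ y ∈ valsM M u, y ≠ 1 := by
            by_contra hno
            push Not at hno
            have : closure (valsM M u) ≤ ⊥ := by
              rw [closure_le]
              intro y hy
              exact mem_bot.mpr (hno y hy)
            have h3 := (commutator_verb_le M u).trans this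
            rw [h1] at h3
            exact hMne (le_bot_iff.mp h3)
          have hyM := valsM_sub_M M u hy
          have hyK : ∀ b ∈ vals G v, ⁅y, b⁆ = 1 := by
            intro b hb
            apply hval
            · have : ⁅y, b⁆ = y * (b * y⁻¹ * b⁻¹) := by
                simp only [commutatorElement_def]; group
              rw [this]
              exact M.mul_mem hyM ((inferInstance : M.Normal).conj_mem _ (M.inv_mem hyM) b)
            · exact ⟨y, valsM_sub M u hy, b, hb, rfl⟩
          have hyc : y ∈ centralizer (verb G v : Set G) := by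
            rw [mem_centralizer_iff]
            intro b hb
            change b ∈ verb G v at hb
            have : verb G v ≤ centralizer ({y} : Set G) := by
              rw [verb, closure_le]
              intro b hb
              rw [SetLike.mem_coe, mem_centralizer_iff]
              intro z hz
              rw [Set.mem_singleton_iff.mp hz]
              exact commutatorElement_eq_one_iff_mul_comm.mp (hyK b hb)
            have h4 := mem_centralizer_iff.mp (this hb) y rfl
            exact h4.symm
          have hcn2 : (M ⊓ centralizer (verb G v : Set G)).Normal := inferInstance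
          rcases hmin _ hcn2 inf_le_left with h3 | h3
          · exfalso
            have : y ∈ M ⊓ centralizer (verb G v : Set G) := ⟨hyM, hyc⟩
            rw [h3] at this
            exact hy1 (mem_bot.mp this)
          · rw [commutator_eq_bot_iff_le_centralizer]
            exact inf_eq_left.mp h3
        apply hMT
        rcases hcn u with h1 | h1
        · rcases hcn v with h2 | h2
          · -- both trivial: triple transfer
            intro m hm
            have hc : ∀ s : Tree, ⁅M, verb G s⁆ = ⊥ → ∀ b ∈ verb G s, b * m = m * b := by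
              intro s hs b hb
              have := commutator_mem_commutator hm hb
              rw [hs] at this
              exact (commutatorElement_eq_one_iff_mul_comm.mp (mem_bot.mp this)).symm
            have h3 := triple P (verb G u) (verb G v) m (hMP hm) (hMw' hm) (hc u h1) (hc v h2)
            refine (?_ : ⁅(P : Subgroup G) ⊓ verb G u, (P : Subgroup G) ⊓ verb G v⁆ ≤ T) h3
            refine (commutator_mono (hu P) (hv P)).trans ?_
            apply commutator_closure_le
            · intro g hg n hn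
              have hgP : g ∈ (P : Subgroup G) := by
                have : gen (P : Subgroup G) u ⊔ gen (P : Subgroup G) v ≤ P :=
                  sup_le (gen_le _ _) (gen_le _ _)
                exact this hg
              exact gen_conj_mem _ _ g hgP n hn
            · intro a ha b hb
              refine subset_closure ⟨?_, a, ha.2, b, hb.2, rfl⟩
              exact P.mul_mem (P.mul_mem (P.mul_mem ha.1 hb.1) (P.inv_mem ha.1)) (P.inv_mem hb.1)
          · rw [← h2]
            exact (one_sided P M hMP v u hu h1 hMU).trans (gen_node_symm _ u v)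
        · rcases hone with h2 | h2
          · rw [h1] at h2; exact absurd h2 hMne
          · rw [← h1]
            exact one_sided P M hMP u v hv h2 hMV
    -- the quotient
    intro x hx
    have hsur := QuotientGroup.mk'_surjective M
    let P' : Sylow p (G ⧸ M) := P.mapSurjective hsur
    have hx' : QuotientGroup.mk' M x ∈ (P' : Subgroup (G ⧸ M)) ⊓ verb (G ⧸ M) (.node u v) := by
      refine ⟨⟨x, hx.1, rfl⟩, ?_⟩
      rw [← verb_map (QuotientGroup.mk' M) hsur]
      exact ⟨x, hx.2, rfl⟩
    have h1 := hq _ P' hx'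
    have h2 : gen (P' : Subgroup (G ⧸ M)) (.node u v) ≤ T.map (QuotientGroup.mk' M) := by
      rw [gen, closure_le]
      rintro y ⟨hy, hyw⟩
      obtain ⟨z, hz, rfl⟩ := vals_surj (QuotientGroup.mk' M) hsur _ y hyw
      refine ⟨z, subset_closure ⟨?_, hz⟩, rfl⟩
      obtain ⟨z', hz', hzz⟩ := hy
      have h3 : z'⁻¹ * z ∈ M := QuotientGroup.eq.mp hzz
      have h4 : z = z' * (z'⁻¹ * z) := by group
      rw [h4]
      exact P.mul_mem hz' (hMP h3)
    obtain ⟨t, ht, htx⟩ := h2 h1
    have h3 : t⁻¹ * x ∈ M := QuotientGroup.eq.mp htx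
    have h4 : t⁻¹ * x ∈ verb G (.node u v) :=
      mul_mem (inv_mem (gen_le_verb _ _ ht)) hx.2
    have h5 : x = t * (t⁻¹ * x) := by group
    rw [h5]
    exact T.mul_mem ht (key ⟨h3, h4⟩)

end

end Pool.MP_8aaf67_al.H5
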