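import Pool.Agent.Work.MP_8aaf67_al.H5.Central

/-!
Descent to a supplement of a normal `p'`-subgroup, and to a supplement of a perfect normal
subgroup.
-/

namespace Pool.MP_8aaf67_al.H5

open Subgroup
open scoped commutatorElement

section
variable {G : Type*} [Group G]

lemma gen_map (N : Subgroup G) (P : Subgroup G) (R : Subgroup N) (hR : R.map N.subtype ≤ P)
    (w : Tree) : (gen R w).map N.subtype ≤ gen P w := by
  rw [gen, MonoidHom.map_closure, closure_le]
  rintro _ ⟨x, ⟨hxR, hxw⟩, rfl⟩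
  exact subset_closure ⟨hR ⟨x, hxR, rfl⟩, vals_map N.subtype w x hxw⟩

lemma sup_surj (Q N : Subgroup G) [Q.Normal] (hQN : Q ⊔ N = ⊤) :
    Function.Surjective ((QuotientGroup.mk' Q).comp N.subtype) := by
  intro y
  obtain ⟨x, rfl⟩ := QuotientGroup.mk'_surjective Q y
  have hx : x ∈ Q ⊔ N := hQN ▸ mem_top x
  rw [sup_comm] at hx
  obtain ⟨n, hn, k, hk, rfl⟩ := mem_sup_of_normal_right.mp hx
  refine ⟨⟨n, hn⟩, ?_⟩
  have h1 : QuotientGroup.mk' Q k = 1 := (QuotientGroup.eq_one_iff k).mpr hk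
  simp only [MonoidHom.comp_apply, subtype_apply, map_mul, h1, mul_one]

lemma verb_of_sup (Q N : Subgroup G) [Q.Normal] (hQN : Q ⊔ N = ⊤) (w : Tree) (x : G)
    (hx : x ∈ verb G w) : ∃ y ∈ verb N w, x * (y : G)⁻¹ ∈ Q := by
  have h1 : (QuotientGroup.mk' Q) x ∈ verb (G ⧸ Q) w := by
    rw [← verb_map (QuotientGroup.mk' Q) (QuotientGroup.mk'_surjective Q)]
    exact ⟨x, hx, rfl⟩
  rw [← verb_map _ (sup_surj Q N hQN)] at h1
  obtain ⟨y, hy, hyx⟩ := h1
  refine ⟨y, hy, ?_⟩
  have h2 : (QuotientGroup.mk' Q) (x * (y : G)⁻¹) = 1 := by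
    rw [map_mul, map_inv, ← hyx]
    simp
  exact (QuotientGroup.eq_one_iff _).mp h2

/-- descent over a normal `p'`-subgroup -/
theorem good_of_coprime [Finite G] {p : ℕ} [Fact p.Prime] (P : Sylow p G) (Q N : Subgroup G)
    [Q.Normal] (hQ : Nat.Coprime p (Nat.card Q)) (hQN : Q ⊔ N = ⊤) (hPN : P ≤ N) (w : Tree)
    (hN : Good p N w) : (P : Subgroup G) ⊓ verb G w ≤ gen (P : Subgroup G) w := by
  intro x hx
  obtain ⟨y, hy, hxy⟩ := verb_of_sup Q N hQN w x hx.2
  have hxN : x ∈ N := hPN hx.1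
  set x' : N := ⟨x, hxN⟩ with hx'
  have h1 : x' ∈ verb N w := by
    rw [← QuotientGroup.eq_one_iff, ← orderOf_eq_one_iff]
    obtain ⟨n, hn⟩ := P.2 ⟨x, hx.1⟩
    have hn' : x' ^ p ^ n = 1 := by
      have := congrArg (Subtype.val) hn
      ext
      simpa [hx'] using this
    have h2 : orderOf (QuotientGroup.mk x' : N ⧸ verb N w) ∣ p ^ n := by
      apply orderOf_dvd_of_pow_eq_one
      rw [← QuotientGroup.mk_pow, hn', QuotientGroup.mk_one]
    have h3 : orderOf (QuotientGroup.mk x' : N ⧸ verb N w) ∣ Nat.card Q := by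
      apply orderOf_dvd_of_pow_eq_one
      have h4 : (QuotientGroup.mk x' : N ⧸ verb N w) = QuotientGroup.mk (x' * y⁻¹) := by
        symm
        apply QuotientGroup.eq.mpr
        have : (x' * y⁻¹)⁻¹ * x' = y := by group
        rw [this]; exact hy
      rw [h4, ← QuotientGroup.mk_pow, QuotientGroup.eq_one_iff]
      have h5 : (x' * y⁻¹) ^ Nat.card Q = 1 := by
        have h6 : (⟨x * (y : G)⁻¹, hxy⟩ : Q) ^ Nat.card Q = 1 := pow_card_eq_one'
        have h7 := congrArg (Subtype.val) h6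
        rw [SubmonoidClass.coe_pow, OneMemClass.coe_one] at h7
        ext
        rw [SubmonoidClass.coe_pow, OneMemClass.coe_one]
        exact h7
      rw [h5]; exact one_mem _
    exact Nat.eq_one_of_dvd_coprimes (Nat.Coprime.pow_left n hQ) h2 h3
  have h2 : x' ∈ ((P.subtype hPN : Sylow p N) : Subgroup N) ⊓ verb N w := ⟨hx.1, h1⟩
  have h3 := hN _ h2
  have h4 := gen_map N (P : Subgroup G) ((P.subtype hPN : Sylow p N) : Subgroup N) (by
    rw [Sylow.coe_subtype, subgroupOf_map_subtype]; exact inf_le_left) w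
  exact h4 ⟨x', h3, rfl⟩

/-- the relative index of a subgroup in a normal subgroup -/
lemma relIndex_sup_eq [Finite G] (S N : Subgroup G) [N.Normal] :
    S.relIndex N = S.relIndex (S ⊔ N) := by
  have h1 := relIndex_mul_relIndex (S ⊓ N) S (S ⊔ N) inf_le_left le_sup_left
  have h2 := relIndex_mul_relIndex (S ⊓ N) N (S ⊔ N) inf_le_right le_sup_right
  rw [inf_relIndex_left] at h1
  rw [inf_relIndex_right, relIndex_sup_right] at h2
  have h4 : N.relIndex S ≠ 0 := FiniteIndex.index_ne_zero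
  rw [← h2, mul_comm] at h1
  exact (Nat.eq_of_mul_eq_mul_right (Nat.pos_of_ne_zero h4) h1).symm

/-- Sylow subgroups and products of normal subgroups -/
lemma sylow_inf_sup [Finite G] {p : ℕ} [hp : Fact p.Prime] (P : Sylow p G) (A B : Subgroup G)
    [A.Normal] [B.Normal] :
    (P : Subgroup G) ⊓ (A ⊔ B) ≤ ((P : Subgroup G) ⊓ A) ⊔ ((P : Subgroup G) ⊓ B) := by
  set S := ((P : Subgroup G) ⊓ A) ⊔ ((P : Subgroup G) ⊓ B) with hS
  have hSP : S ≤ P := sup_le inf_le_left inf_le_left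
  have hSAB : S ≤ A ⊔ B := sup_le (inf_le_right.trans le_sup_left) (inf_le_right.trans le_sup_right)
  have hAB : A ⊔ B = (S ⊔ A) ⊔ B := by
    apply le_antisymm
    · exact sup_le (le_sup_right.trans le_sup_left) le_sup_right
    · exact sup_le (sup_le hSAB le_sup_left) le_sup_right
  have h1 : S.relIndex (A ⊔ B) = S.relIndex A * (S ⊔ A).relIndex B := by
    rw [relIndex_sup_eq S A, relIndex_sup_eq (S ⊔ A) B, ← hAB]
    exact (relIndex_mul_relIndex S (S ⊔ A) (A ⊔ B) le_sup_left (sup_le hSAB le_sup_left)).symm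
  have h2 : ¬ p ∣ S.relIndex (A ⊔ B) := by
    rw [h1, hp.out.dvd_mul]
    push Not
    constructor
    · intro h
      apply not_dvd_relIndex P A
      rw [← inf_relIndex_right]
      exact h.trans (relIndex_dvd_of_le_left A le_sup_left)
    · intro h
      apply not_dvd_relIndex P B
      rw [← inf_relIndex_right]
      exact h.trans (relIndex_dvd_of_le_left B (le_sup_right.trans le_sup_left))
  have h3 : S.relIndex ((P : Subgroup G) ⊓ (A ⊔ B)) ∣ S.relIndex (A ⊔ B) := by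
    have := relIndex_mul_relIndex S ((P : Subgroup G) ⊓ (A ⊔ B)) (A ⊔ B)
      (le_inf hSP hSAB) inf_le_right
    exact Dvd.intro _ this
  -- the relative index is a power of `p`
  have h4 : ∃ k, S.relIndex ((P : Subgroup G) ⊓ (A ⊔ B)) = p ^ k := by
    have hpg : IsPGroup p ((P : Subgroup G) ⊓ (A ⊔ B) : Subgroup G) := P.2.to_le inf_le_left
    obtain ⟨n, hn⟩ := IsPGroup.iff_card.mp hpg
    have h5 : S.relIndex ((P : Subgroup G) ⊓ (A ⊔ B)) ∣ p ^ n := by
      rw [← hn]
      exact index_dvd_card _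
    obtain ⟨k, _, hk⟩ := (Nat.dvd_prime_pow hp.out).mp h5
    exact ⟨k, hk⟩
  obtain ⟨k, hk⟩ := h4
  have h5 : k = 0 := by
    by_contra h
    apply h2
    refine dvd_trans ?_ h3
    rw [hk]
    exact dvd_pow_self p h
  rw [h5, pow_zero] at hk
  exact relIndex_eq_one.mp hk

/-- descent over a perfect normal subgroup -/
theorem good_of_perfect [Finite G] {p : ℕ} [Fact p.Prime] (P : Sylow p G) (E N : Subgroup G)
    [E.Normal] (hEN : E ⊔ N = ⊤) (hPN : P ≤ N) (w : Tree) (hN : Good p N w) :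
    (P : Subgroup G) ⊓ verb G w ≤ gen (P : Subgroup G) w ⊔ ((P : Subgroup G) ⊓ E) := by
  intro x hx
  obtain ⟨y, hy, hxy⟩ := verb_of_sup E N hEN w x hx.2
  have hxN : x ∈ N := hPN hx.1
  set x' : N := ⟨x, hxN⟩ with hx'
  set E' : Subgroup N := E.subgroupOf N with hE'
  have hE'n : E'.Normal := inferInstance
  set P' : Sylow p N := P.subtype hPN with hP'
  have h1 : x' ∈ (P' : Subgroup N) ⊓ (verb N w ⊔ E') := by
    refine ⟨?_, ?_⟩
    · exact hx.1
    · have h2 : x' = (x' * y⁻¹) * y := by group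
      rw [h2]
      refine mul_mem (mem_sup_right ?_) (mem_sup_left hy)
      rw [hE', mem_subgroupOf]
      simpa [hx'] using hxy
  have h2 := sylow_inf_sup P' (verb N w) E' h1
  have h3 : ((P' : Subgroup N) ⊓ verb N w) ⊔ ((P' : Subgroup N) ⊓ E') ≤
      (gen (P' : Subgroup N) w) ⊔ ((P' : Subgroup N) ⊓ E') := sup_le_sup_right (hN P') _
  have h4 := h3 h2
  have h5 : x ∈ ((gen (P' : Subgroup N) w) ⊔ ((P' : Subgroup N) ⊓ E')).map N.subtype :=
    ⟨x', h4, rfl⟩
  rw [Subgroup.map_sup] at h5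
  have h6 : (gen (P' : Subgroup N) w).map N.subtype ≤ gen (P : Subgroup G) w :=
    gen_map N (P : Subgroup G) _ (by
      rw [hP', Sylow.coe_subtype, subgroupOf_map_subtype]; exact inf_le_left) w
  have h7 : ((P' : Subgroup N) ⊓ E').map N.subtype ≤ (P : Subgroup G) ⊓ E := by
    rintro _ ⟨z, hz, rfl⟩
    exact ⟨hz.1, mem_subgroupOf.mp hz.2⟩
  exact (sup_le_sup h6 h7) h5

end

end Pool.MP_8aaf67_al.H5
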