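import Pool.Agent.Work.MP_8aaf67_al.H5.Descent

/-!
A form of Alperin's fusion theorem and its consequence for `[K, G]`.
-/

namespace Pool.MP_8aaf67_al.H5

open Subgroup
open scoped commutatorElement

section
variable {G : Type*} [Group G]

/-- conjugate subgroup -/
def cj (h : G) (A : Subgroup G) : Subgroup G := A.map (MulAut.conj h).toMonoidHom

lemma mem_cj (h : G) (A : Subgroup G) (x : G) : x ∈ cj h A ↔ h⁻¹ * x * h ∈ A := by
  constructor
  · rintro ⟨y, hy, rfl⟩
    have : h⁻¹ * ((MulAut.conj h).toMonoidHom y) * h = y := by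
      change h⁻¹ * (h * y * h⁻¹) * h = y
      group
    rw [this]; exact hy
  · intro hx
    refine ⟨_, hx, ?_⟩
    change h * (h⁻¹ * x * h) * h⁻¹ = x
    group

lemma cj_mem {h : G} {A : Subgroup G} {x : G} (hx : x ∈ A) : h * x * h⁻¹ ∈ cj h A := by
  rw [mem_cj]
  have : h⁻¹ * (h * x * h⁻¹) * h = x := by group
  rw [this]; exact hx

lemma card_cj (h : G) (A : Subgroup G) : Nat.card (cj h A) = Nat.card A :=
  card_map_of_injective (MulAut.conj h).injective

lemma isPGroup_cj {p : ℕ} {A : Subgroup G} (hA : IsPGroup p A) (h : G) : IsPGroup p (cj h A) :=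
  hA.map _

lemma mem_normalizer_of_conj [Finite G] {A : Subgroup G} {n : G}
    (h : ∀ x ∈ A, n * x * n⁻¹ ∈ A) : n ∈ normalizer (A : Set G) :=
  mem_normalizer_fintype h

/-- `C` is fully normalised: every `p`-subgroup of its normaliser can be moved into `P` by the
normaliser -/
def FullyN (p : ℕ) (P C : Subgroup G) : Prop :=
  ∀ B : Subgroup G, IsPGroup p B → B ≤ normalizer (C : Set G) →
    ∃ n ∈ normalizer (C : Set G), ∀ x ∈ B, n * x * n⁻¹ ∈ P

/-- every `p`-subgroup of a subgroup `N` is conjugate in `N` into a given Sylow subgroup of `N` -/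
lemma exists_conj_le [Finite G] {p : ℕ} [Fact p.Prime] (N : Subgroup G) (S : Sylow p N)
    (B : Subgroup G) (hB : IsPGroup p B) (hBN : B ≤ N) :
    ∃ n ∈ N, ∀ x ∈ B, n * x * n⁻¹ ∈ (S : Subgroup N).map N.subtype := by
  have h1 : IsPGroup p (B.subgroupOf N) := hB.comap_subtype
  obtain ⟨S2, hS2⟩ := h1.exists_le_sylow
  obtain ⟨g, hg⟩ := MulAction.exists_smul_eq N S2 S
  refine ⟨g, g.2, fun x hx => ?_⟩
  have h2 : (⟨x, hBN hx⟩ : N) ∈ (S2 : Subgroup N) := hS2 hx
  have h3 : g * (⟨x, hBN hx⟩ : N) * g⁻¹ ∈ ((g • S2 : Sylow p N) : Subgroup N) :=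
    ⟨_, h2, rfl⟩
  rw [hg] at h3
  exact ⟨_, h3, rfl⟩

lemma exists_fullyN [Finite G] {p : ℕ} [hp : Fact p.Prime] (P : Sylow p G) (A : Subgroup G)
    (hA : IsPGroup p A) :
    ∃ h : G, cj h A ≤ P ∧ FullyN p (P : Subgroup G) (cj h A) := by
  set N := normalizer (A : Set G) with hN
  obtain ⟨S⟩ : Nonempty (Sylow p N) := inferInstance
  have hS1 : IsPGroup p ((S : Subgroup N).map N.subtype) := S.2.map _
  obtain ⟨S2, hS2⟩ := hS1.exists_le_sylow
  obtain ⟨h, hh⟩ := MulAction.exists_smul_eq G S2 P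
  have hSP : ∀ x ∈ (S : Subgroup N).map N.subtype, h * x * h⁻¹ ∈ (P : Subgroup G) := by
    intro x hx
    have h3 : h * x * h⁻¹ ∈ ((h • S2 : Sylow p G) : Subgroup G) := ⟨_, hS2 hx, rfl⟩
    rw [hh] at h3
    exact h3
  have hAS : A ≤ (S : Subgroup N).map N.subtype := by
    have h1 : IsPGroup p (A.subgroupOf N) := hA.comap_subtype
    have h2 : (A.subgroupOf N).Normal := by
      rw [hN]; infer_instance
    have h3 : A.subgroupOf N ≤ (S : Subgroup N) := h1.le_sylow_of_normal S
    intro x hx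
    exact ⟨⟨x, le_normalizer hx⟩, h3 hx, rfl⟩
  refine ⟨h, ?_, ?_⟩
  · intro x hx
    rw [mem_cj] at hx
    have := hSP _ (hAS hx)
    simpa [mul_assoc] using this
  · intro B hB hBN
    -- move back to the normaliser of `A`
    have hB' : IsPGroup p (cj h⁻¹ B) := isPGroup_cj hB _
    have hB'N : cj h⁻¹ B ≤ N := by
      intro x hx
      rw [mem_cj] at hx
      have h1 := hBN hx
      apply mem_normalizer_of_conj
      intro a ha
      have h2 := (mem_normalizer_iff.mp h1 (h * a * h⁻¹)).mp (cj_mem ha)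
      rw [mem_cj] at h2
      have : h⁻¹ * (h⁻¹⁻¹ * x * h⁻¹ * (h * a * h⁻¹) * (h⁻¹⁻¹ * x * h⁻¹)⁻¹) * h = x * a * x⁻¹ := by
        group
      rw [this] at h2
      exact h2
    obtain ⟨n, hn, hn2⟩ := exists_conj_le N S (cj h⁻¹ B) hB' hB'N
    refine ⟨h * n * h⁻¹, ?_, ?_⟩
    · apply mem_normalizer_of_conj
      intro x hx
      rw [mem_cj] at hx ⊢
      have h2 := (mem_normalizer_iff.mp hn _).mp hx
      have : h⁻¹ * (h * n * h⁻¹ * x * (h * n * h⁻¹)⁻¹) * h = n * (h⁻¹ * x * h) * n⁻¹ := by group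
      rw [this]; exact h2
    · intro x hx
      have h3 : h⁻¹ * x * h⁻¹⁻¹ ∈ cj h⁻¹ B := cj_mem hx
      have h4 := hSP _ (hn2 _ h3)
      have : h * (n * (h⁻¹ * x * h⁻¹⁻¹) * n⁻¹) * h⁻¹ = h * n * h⁻¹ * x * (h * n * h⁻¹)⁻¹ := by group
      rw [this] at h4
      exact h4

/-- the fusion lemma -/
theorem fusion [Finite G] {p : ℕ} [hp : Fact p.Prime] (P : Sylow p G) (K T : Subgroup G) [K.Normal]
    (ha : ∀ x ∈ (P : Subgroup G) ⊓ K, ∀ g ∈ P, x⁻¹ * (g * x * g⁻¹) ∈ T)
    (hb : ∀ C : Subgroup G, C ≤ P → ∀ m ∈ normalizer (C : Set G), Nat.Coprime p (orderOf m) →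
      ∀ y ∈ C ⊓ K, y⁻¹ * (m * y * m⁻¹) ∈ T) :
    ∀ x ∈ (P : Subgroup G) ⊓ K, ∀ g : G, g * x * g⁻¹ ∈ P → x⁻¹ * (g * x * g⁻¹) ∈ T := by
  -- the case of a fully normalised subgroup
  have hC : ∀ C : Subgroup G, C ≤ P → FullyN p (P : Subgroup G) C → ∀ n ∈ normalizer (C : Set G),
      ∀ y ∈ C ⊓ K, y⁻¹ * (n * y * n⁻¹) ∈ T := by
    intro C hCP hCf
    set N := normalizer (C : Set G) with hN
    have hconj : ∀ n ∈ N, ∀ y ∈ C ⊓ K, n * y * n⁻¹ ∈ C ⊓ K := fun n hn y hy =>
      ⟨(mem_normalizer_iff.mp hn y).mp hy.1, (inferInstance : K.Normal).conj_mem y hy.2 n⟩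
    let S : Subgroup N :=
      { carrier := {n | ∀ y ∈ C ⊓ K, y⁻¹ * ((n : G) * y * (n : G)⁻¹) ∈ T}
        one_mem' := fun y _ => by simp
        mul_mem' := by
          intro n n' hn hn' y hy
          have h1 := hn' y hy
          have h2 := hn _ (hconj n' n'.2 y hy)
          have e : y⁻¹ * (((n * n' : N) : G) * y * ((n * n' : N) : G)⁻¹) =
            (y⁻¹ * ((n' : G) * y * (n' : G)⁻¹)) * (((n' : G) * y * (n' : G)⁻¹)⁻¹ *
              ((n : G) * ((n' : G) * y * (n' : G)⁻¹) * (n : G)⁻¹)) := by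
            simp only [coe_mul]; group
          change y⁻¹ * (((n * n' : N) : G) * y * ((n * n' : N) : G)⁻¹) ∈ T
          rw [e]
          exact T.mul_mem h1 h2
        inv_mem' := by
          intro n hn y hy
          have h2 := hn _ (hconj _ (N.inv_mem n.2) y hy)
          have e : y⁻¹ * (((n⁻¹ : N) : G) * y * ((n⁻¹ : N) : G)⁻¹) =
            (((n : G)⁻¹ * y * (n : G)⁻¹⁻¹)⁻¹ * ((n : G) * ((n : G)⁻¹ * y * (n : G)⁻¹⁻¹) *
              (n : G)⁻¹))⁻¹ := by
            simp only [coe_inv]; group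
          change y⁻¹ * (((n⁻¹ : N) : G) * y * ((n⁻¹ : N) : G)⁻¹) ∈ T
          rw [e]
          exact T.inv_mem h2 }
    have hS : S = ⊤ := by
      rw [← index_eq_one]
      by_contra hne
      obtain ⟨q, hq, hqd⟩ := Nat.exists_prime_and_dvd hne
      have : Fact q.Prime := ⟨hq⟩
      by_cases hqp : q = p
      · subst hqp
        obtain ⟨Q⟩ : Nonempty (Sylow q N) := inferInstance
        obtain ⟨n, hn, hn2⟩ := hCf ((Q : Subgroup N).map N.subtype) (Q.2.map _) (map_subtype_le _)
        -- conjugate Sylow subgroup inside `S`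
        have h1 : ((⟨n, hn⟩ : N) • Q : Sylow q N) ≤ S := by
          rintro _ ⟨x, hx, rfl⟩
          intro y hy
          have h2 : n * (x : G) * n⁻¹ ∈ (P : Subgroup G) := hn2 x ⟨x, hx, rfl⟩
          exact ha y ⟨hCP hy.1, hy.2⟩ _ h2
        exact ((⟨n, hn⟩ : N) • Q : Sylow q N).not_dvd_index (hqd.trans (index_dvd_of_le h1))
      · obtain ⟨Q⟩ : Nonempty (Sylow q N) := inferInstance
        have h1 : (Q : Subgroup N) ≤ S := by
          intro x hx y hy
          refine hb C hCP x x.2 ?_ y hy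
          obtain ⟨k, hk⟩ := Q.2 ⟨x, hx⟩
          have h2 : (x : G) ^ q ^ k = 1 := by
            have := congrArg (fun z : Q => ((z : N) : G)) hk
            simpa using this
          have h3 := orderOf_dvd_of_pow_eq_one h2
          refine Nat.Coprime.coprime_dvd_right h3 (Nat.Coprime.pow_right k ?_)
          exact (Nat.coprime_primes hp.out hq).mpr (fun h => hqp h.symm)
        exact Q.not_dvd_index (hqd.trans (index_dvd_of_le h1))
    intro n hn y hy
    have : (⟨n, hn⟩ : N) ∈ S := hS ▸ mem_top _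
    exact this y hy
  -- the general case by induction
  have main : ∀ k : ℕ, ∀ A : Subgroup G, A ≤ P → Nat.card P - Nat.card A = k →
      ∀ g : G, cj g A ≤ P → ∀ x ∈ A ⊓ K, x⁻¹ * (g * x * g⁻¹) ∈ T := by
    intro k
    induction k using Nat.strong_induction_on with
    | _ k ih =>
    intro A hAP hk g hgA x hx
    obtain ⟨h, hhA, hfull⟩ := exists_fullyN P A (P.2.to_le hAP)
    set C := cj h A with hCdef
    -- moving a conjugate of `A` to `C`
    have move : ∀ a : G, cj a A ≤ P → ∃ t : G, (∀ z ∈ cj a A, t * z * t⁻¹ ∈ C) ∧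
        ∀ z ∈ cj a A ⊓ K, z⁻¹ * (t * z * t⁻¹) ∈ T := by
      intro a haA
      set A' := cj a A with hA'
      have hcard : Nat.card A' = Nat.card A := card_cj a A
      by_cases hA'P : A' = P
      · refine ⟨1, ?_, by simp⟩
        have h1 : C = P := by
          apply eq_of_le_of_card_ge hhA
          rw [card_cj, ← hcard, hA'P]
        rw [h1, ← hA'P]
        simp
      · -- the normaliser grows
        set B := (P : Subgroup G) ⊓ normalizer (A' : Set G) with hB
        have hA'B : A' < B := by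
          refine lt_of_le_of_ne (le_inf haA le_normalizer) ?_
          intro hEq
          -- `A'` is self normalising in `P`
          have hnil : Group.IsNilpotent (P : Subgroup G) := P.2.isNilpotent
          have hnc : NormalizerCondition (P : Subgroup G) := Group.normalizerCondition_of_isNilpotent
          have hlt : A'.subgroupOf (P : Subgroup G) < ⊤ := by
            rw [lt_top_iff_ne_top]
            intro htop
            rw [subgroupOf_eq_top] at htop
            exact hA'P (le_antisymm haA htop)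
          have h2 := hnc _ hlt
          apply h2.not_ge
          intro z hz
          rw [mem_subgroupOf]
          have h3 : (z : G) ∈ B := by
            refine ⟨z.2, ?_⟩
            apply mem_normalizer_of_conj
            intro y hy
            have h4 := (mem_normalizer_iff.mp hz ⟨y, haA hy⟩).mp (by
              rw [mem_subgroupOf]; exact hy)
            rw [mem_subgroupOf] at h4
            exact h4
          rw [← hEq] at h3
          exact h3
        have hBP : B ≤ P := inf_le_left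
        -- transport to the normaliser of `C`
        have hB'p : IsPGroup p (cj (h * a⁻¹) B) := isPGroup_cj (P.2.to_le hBP) _
        have hB'N : cj (h * a⁻¹) B ≤ normalizer (C : Set G) := by
          intro z hz
          rw [mem_cj] at hz
          apply mem_normalizer_of_conj
          intro c hc
          have h1 : a * h⁻¹ * c * (a * h⁻¹)⁻¹ ∈ A' := by
            rw [hA', mem_cj]
            rw [hCdef, mem_cj] at hc
            have : a⁻¹ * (a * h⁻¹ * c * (a * h⁻¹)⁻¹) * a = h⁻¹ * c * h := by group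
            rw [this]; exact hc
          have h2 := (mem_normalizer_iff.mp hz.2 _).mp h1
          rw [hA', mem_cj] at h2
          rw [hCdef, mem_cj]
          have : a⁻¹ * ((h * a⁻¹)⁻¹ * z * (h * a⁻¹) * (a * h⁻¹ * c * (a * h⁻¹)⁻¹) *
            ((h * a⁻¹)⁻¹ * z * (h * a⁻¹))⁻¹) * a = h⁻¹ * (z * c * z⁻¹) * h := by group
          rw [this] at h2
          exact h2
        obtain ⟨n, hn, hn2⟩ := hfull _ hB'p hB'N
        refine ⟨n * (h * a⁻¹), ?_, ?_⟩
        · intro z hz
          have h1 : (h * a⁻¹) * z * (h * a⁻¹)⁻¹ ∈ C := by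
            rw [hCdef, mem_cj]
            rw [hA', mem_cj] at hz
            have : h⁻¹ * (h * a⁻¹ * z * (h * a⁻¹)⁻¹) * h = a⁻¹ * z * a := by group
            rw [this]; exact hz
          have h2 := (mem_normalizer_iff.mp hn _).mp h1
          have : n * (h * a⁻¹ * z * (h * a⁻¹)⁻¹) * n⁻¹ =
            n * (h * a⁻¹) * z * (n * (h * a⁻¹))⁻¹ := by group
          rw [this] at h2
          exact h2
        · intro z hz
          have hcB : Nat.card A < Nat.card B := by
            rw [← hcard]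
            refine lt_of_le_of_ne (card_le_of_le hA'B.le) (fun hEq => ?_)
            exact hA'B.ne (eq_of_le_of_card_ge hA'B.le hEq.ge)
          have hcP : Nat.card B ≤ Nat.card P := card_le_of_le hBP
          refine ih (Nat.card P - Nat.card B) (by omega) B hBP rfl (n * (h * a⁻¹)) ?_ z
            ⟨hA'B.le hz.1, hz.2⟩
          intro y hy
          rw [mem_cj] at hy
          have h1 := hn2 ((h * a⁻¹) * ((n * (h * a⁻¹))⁻¹ * y * (n * (h * a⁻¹))) * (h * a⁻¹)⁻¹)
            (cj_mem hy)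
          have : n * ((h * a⁻¹) * ((n * (h * a⁻¹))⁻¹ * y * (n * (h * a⁻¹))) * (h * a⁻¹)⁻¹) * n⁻¹
            = y := by group
          rw [this] at h1
          exact h1
    have hcj1 : cj 1 A = A := by
      ext z; rw [mem_cj]; simp
    obtain ⟨t1, ht1, ht1'⟩ := move 1 (hcj1.symm ▸ hAP)
    rw [hcj1] at ht1 ht1'
    obtain ⟨t2, ht2, ht2'⟩ := move g hgA
    -- compare inside `C`
    have hxC : t1 * x * t1⁻¹ ∈ C ⊓ K :=
      ⟨ht1 x hx.1, (inferInstance : K.Normal).conj_mem x hx.2 t1⟩
    have hgx : g * x * g⁻¹ ∈ cj g A ⊓ K := ⟨cj_mem hx.1, (inferInstance : K.Normal).conj_mem x hx.2 g⟩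
    have hnC : t2 * g * t1⁻¹ ∈ normalizer (C : Set G) := by
      apply mem_normalizer_of_conj
      intro c hc
      -- `c = t1 a t1⁻¹` with `a ∈ A`
      have h1 : t1⁻¹ * c * t1 ∈ A := by
        have h2 : cj t1 A = C := by
          apply eq_of_le_of_card_ge
          · intro z hz
            rw [mem_cj] at hz
            have := ht1 _ hz
            have e : t1 * (t1⁻¹ * z * t1) * t1⁻¹ = z := by group
            rw [e] at this
            exact this
          · rw [card_cj, card_cj]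
        rw [← h2, mem_cj] at hc
        exact hc
      have h2 := ht2 _ (cj_mem (h := g) h1)
      have e : t2 * (g * (t1⁻¹ * c * t1) * g⁻¹) * t2⁻¹ =
        t2 * g * t1⁻¹ * c * (t2 * g * t1⁻¹)⁻¹ := by group
      rw [e] at h2
      exact h2
    have h1 := ht1' x hx
    have h2 := ht2' _ hgx
    have h3 := hC C hhA hfull _ hnC _ hxC
    have e : x⁻¹ * (g * x * g⁻¹) = (x⁻¹ * (t1 * x * t1⁻¹)) *
      ((t1 * x * t1⁻¹)⁻¹ * (t2 * g * t1⁻¹ * (t1 * x * t1⁻¹) * (t2 * g * t1⁻¹)⁻¹)) *
      ((g * x * g⁻¹)⁻¹ * (t2 * (g * x * g⁻¹) * t2⁻¹))⁻¹ := by group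
    rw [e]
    exact T.mul_mem (T.mul_mem h1 h3) (T.inv_mem h2)
  intro x hx g hg
  have hz : zpowers x ≤ P := by
    rw [zpowers_le]; exact hx.1
  refine main _ (zpowers x) hz rfl g ?_ x ⟨mem_zpowers x, hx.2⟩
  intro y hy
  rw [mem_cj] at hy
  obtain ⟨k, hk⟩ := hy
  have hk' : x ^ k = g⁻¹ * y * g := hk
  have : y = (g * x * g⁻¹) ^ k := by
    rw [conj_zpow, hk']; group
  rw [this]
  exact zpow_mem hg k

/-- if fusion is trivial modulo `T` then `P ⊓ [K, G] ≤ T` -/
theorem inf_commutator_le [Finite G] {p : ℕ} [hp : Fact p.Prime] (P : Sylow p G) (K T : Subgroup G)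
    [K.Normal]
    (ha : ∀ x ∈ (P : Subgroup G) ⊓ K, ∀ g ∈ P, x⁻¹ * (g * x * g⁻¹) ∈ T)
    (hF : ∀ x ∈ (P : Subgroup G) ⊓ K, ∀ g : G, g * x * g⁻¹ ∈ P → x⁻¹ * (g * x * g⁻¹) ∈ T) :
    (P : Subgroup G) ⊓ ⁅K, (⊤ : Subgroup G)⁆ ≤ T := by
  classical
  set PK : Subgroup K := (P : Subgroup G).subgroupOf K with hPK
  set TK : Subgroup PK := T.comap (K.subtype.comp PK.subtype) with hTK
  have hmem : ∀ x : PK, ((x : K) : G) ∈ (P : Subgroup G) ⊓ K := fun x =>
    ⟨mem_subgroupOf.mp x.2, (x : K).2⟩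
  have hTKmem : ∀ x : PK, x ∈ TK ↔ ((x : K) : G) ∈ T := fun x => Iff.rfl
  have hTKn : TK.Normal := by
    constructor
    intro n hn g
    rw [hTKmem] at hn ⊢
    have h1 := ha _ (hmem n) _ (hmem g).1
    have e : (((g * n * g⁻¹ : PK) : K) : G) = ((n : K) : G) * (((n : K) : G)⁻¹ *
        (((g : K) : G) * ((n : K) : G) * ((g : K) : G)⁻¹)) := by
      simp only [coe_mul, coe_inv]; group
    rw [e]
    exact T.mul_mem hn h1
  let _ : CommGroup (PK ⧸ TK) :=
    { (inferInstance : Group (PK ⧸ TK)) with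
      mul_comm := by
        intro a b
        induction a using QuotientGroup.induction_on
        induction b using QuotientGroup.induction_on
        rename_i a b
        rw [← QuotientGroup.mk_mul, ← QuotientGroup.mk_mul]
        apply QuotientGroup.eq.mpr
        rw [hTKmem]
        have h1 := ha _ (hmem b) _ (inv_mem (hmem a)).1
        have e : ((((a * b)⁻¹ * (b * a) : PK) : K) : G) = ((b : K) : G)⁻¹ * (((a : K) : G)⁻¹ *
            ((b : K) : G) * ((a : K) : G)⁻¹⁻¹) := by
          simp only [coe_mul, coe_inv]; group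
        rw [e]
        exact h1 }
  have hPKp : IsPGroup p PK := P.2.comap_subtype
  let f : PK →* PK ⧸ TK := QuotientGroup.mk' TK
  have hf1 : ∀ x : PK, f x = 1 ↔ ((x : K) : G) ∈ T := fun x => by
    rw [← hTKmem]; exact QuotientGroup.eq_one_iff x
  have : PK.FiniteIndex := inferInstance
  let V : K →* PK ⧸ TK := MonoidHom.transfer f
  -- the transfer on `P ⊓ K`
  have hV : ∀ x : PK, V (x : K) = f x ^ PK.index := by
    intro x
    have : Fintype (Quotient (MulAction.orbitRel (zpowers (x : K)) (K ⧸ PK))) :=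
      Fintype.ofFinite _
    change MonoidHom.transfer f (x : K) = _
    rw [index_eq_sum_minimalPeriod PK (x : K), ← Finset.prod_pow_eq_pow_sum,
      MonoidHom.transfer_eq_prod_quotient_orbitRel_zpowers_quot]
    apply Finset.prod_congr rfl
    intro q _
    rw [← map_pow]
    symm
    apply inv_mul_eq_one.mp
    rw [← map_inv, ← map_mul, hf1]
    have hxk : ((x : K) : G) ^ Function.minimalPeriod (((x : K)) • ·) q.out ∈
        (P : Subgroup G) ⊓ K := pow_mem (hmem x) _
    have hq := QuotientGroup.out_conj_pow_minimalPeriod_mem PK (x : K) q.out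
    have h1 := hF _ hxk ((q.out.out : K) : G)⁻¹ (by
      have := mem_subgroupOf.mp hq
      simp only [coe_mul, coe_inv, coe_pow] at this
      rw [inv_inv]
      exact this)
    rw [inv_inv] at h1
    exact h1
  -- a homomorphism to `PK ⧸ TK` killing `PK` is trivial
  have htriv : ∀ W : K →* PK ⧸ TK, (∀ x : PK, W (x : K) = 1) → ∀ k : K, W k = 1 := by
    intro W hW k
    have h1 : PK ≤ W.ker := fun x hx => MonoidHom.mem_ker.mpr (hW ⟨x, hx⟩)
    have h2 : ¬ p ∣ W.ker.index := by
      intro h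
      exact not_dvd_relIndex P K (h.trans (index_dvd_of_le h1))
    have hA : IsPGroup p (PK ⧸ TK) := hPKp.of_surjective (QuotientGroup.mk' TK)
      (QuotientGroup.mk'_surjective TK)
    have hr : IsPGroup p W.range := hA.to_subgroup _
    obtain ⟨n, hn⟩ := IsPGroup.iff_card.mp hr
    rw [index_ker, hn] at h2
    have h3 : n = 0 := by
      by_contra h
      exact h2 (dvd_pow_self p h)
    rw [h3, pow_zero] at hn
    have h4 : W.range = ⊥ := card_eq_one.mp hn
    have h5 : W k ∈ W.range := ⟨k, rfl⟩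
    rw [h4] at h5
    exact mem_bot.mp h5
  -- comparison with the conjugate transfer
  have hVc : ∀ (g : G) (k : K), V (⟨g * k * g⁻¹, (inferInstance : K.Normal).conj_mem k k.2 g⟩ : K)
      = V k := by
    intro g k
    let c : K →* K :=
      { toFun := fun k => ⟨g * k * g⁻¹, (inferInstance : K.Normal).conj_mem k k.2 g⟩
        map_one' := by ext; simp
        map_mul' := fun a b => by ext; simp only [coe_mul]; group }
    have h1 := htriv ((V.comp c) * V⁻¹) ?_ k
    · rw [MonoidHom.mul_apply, MonoidHom.inv_apply, mul_inv_eq_one] at h1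
      exact h1
    · intro x
      rw [MonoidHom.mul_apply, MonoidHom.inv_apply, mul_inv_eq_one]
      change V (c (x : K)) = V (x : K)
      -- move the conjugate back to `P`
      have hxp : IsPGroup p (zpowers (c (x : K))) := by
        have : IsPGroup p PK := P.2.comap_subtype
        have h2 : IsPGroup p (PK.map c) := this.map c
        refine h2.to_le ?_
        rw [zpowers_le]
        exact ⟨x, x.2, rfl⟩
      obtain ⟨S, hS⟩ := hxp.exists_le_sylow
      let P' : Sylow p K := IsPGroup.toSylow (P := PK) (P.2.comap_subtype) (not_dvd_relIndex P K)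
      obtain ⟨k0, hk0⟩ := MulAction.exists_smul_eq K S P'
      have h3 : k0 * c (x : K) * k0⁻¹ ∈ PK := by
        have h4 : k0 * c (x : K) * k0⁻¹ ∈ ((k0 • S : Sylow p K) : Subgroup K) :=
          ⟨_, hS (mem_zpowers _), rfl⟩
        rw [hk0] at h4
        exact h4
      have h5 : V (c (x : K)) = V (k0 * c (x : K) * k0⁻¹) := by
        rw [map_mul, map_mul, map_inv, mul_comm (V k0), mul_inv_cancel_right]
      rw [h5, hV ⟨_, h3⟩, hV x]
      congr 1
      symm
      apply inv_mul_eq_one.mp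
      rw [← map_inv, ← map_mul, hf1]
      have h6 := hF _ (hmem x) ((k0 : G) * g) (by
        have h7 := mem_subgroupOf.mp h3
        have e : ((k0 * c (x : K) * k0⁻¹ : K) : G) = (k0 : G) * g * ((x : K) : G) * ((k0 : G) * g)⁻¹ := by
          change (k0 : G) * (g * ((x : K) : G) * g⁻¹) * (k0 : G)⁻¹ = _
          group
        rw [e] at h7
        exact h7)
      have e : (((x⁻¹ * ⟨k0 * c (x : K) * k0⁻¹, h3⟩ : PK) : K) : G) =
          ((x : K) : G)⁻¹ * ((k0 : G) * g * ((x : K) : G) * ((k0 : G) * g)⁻¹) := by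
        change ((x : K) : G)⁻¹ * ((k0 : G) * (g * ((x : K) : G) * g⁻¹) * (k0 : G)⁻¹) = _
        group
      rw [e]
      exact h6
  have hker : ⁅K, (⊤ : Subgroup G)⁆ ≤ V.ker.map K.subtype := by
    rw [commutator_le]
    intro k hk g _
    have h1 : (⟨k, hk⟩ : K) * (⟨g * ((⟨k, hk⟩⁻¹ : K) : G) * g⁻¹,
      (inferInstance : K.Normal).conj_mem _ (⟨k, hk⟩⁻¹ : K).2 g⟩ : K) ∈ V.ker := by
      rw [MonoidHom.mem_ker, map_mul, hVc, map_inv, mul_inv_cancel]
    refine ⟨_, h1, ?_⟩
    simp only [commutatorElement_def, subtype_apply, coe_mul, coe_inv]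
    group
  intro x hx
  obtain ⟨k, hk, hkx⟩ := hker hx.2
  have hkx' : (k : G) = x := hkx
  have hkP : k ∈ PK := by
    rw [hPK, mem_subgroupOf, hkx']; exact hx.1
  have h1 := hV ⟨k, hkP⟩
  rw [MonoidHom.mem_ker.mp hk] at h1
  -- the exponent is prime to `p`
  have hA : IsPGroup p (PK ⧸ TK) := hPKp.of_surjective (QuotientGroup.mk' TK)
    (QuotientGroup.mk'_surjective TK)
  have hco : Nat.Coprime p PK.index := (Nat.Prime.coprime_iff_not_dvd hp.out).mpr
    (not_dvd_relIndex P K)
  obtain ⟨n, hn⟩ := hA (f ⟨k, hkP⟩)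
  have ho : orderOf (f ⟨k, hkP⟩) = 1 :=
    Nat.eq_one_of_dvd_coprimes (Nat.Coprime.pow_left n hco) (orderOf_dvd_of_pow_eq_one hn)
      (orderOf_dvd_of_pow_eq_one h1.symm)
  have h2 := (hf1 _).mp (orderOf_eq_one_iff.mp ho)
  rw [← hkx']
  exact h2

end

end Pool.MP_8aaf67_al.H5
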