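import Pool.Agent.Work.MP_8aaf67_al.H5.Fusion

/-!
The lower central words, for every finite group.
-/

namespace Pool.MP_8aaf67_al.H5

open Subgroup
open scoped commutatorElement

section
variable {G : Type*} [Group G]

/-- `y ↦ y⁻¹ (m y m⁻¹)` -/
def dlt (m y : G) : G := y⁻¹ * (m * y * m⁻¹)

lemma dlt_eq (m y : G) : dlt m y = ⁅y⁻¹, m⁆ := by
  simp only [dlt, commutatorElement_def]; group

lemma pow_trick (m z : G) (h : m * dlt m z * m⁻¹ = dlt m z) (r : ℕ) (hr : m ^ r = 1) :
    dlt m z ^ r = 1 := by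
  have h1 : ∀ i : ℕ, m ^ i * z * (m ^ i)⁻¹ = z * dlt m z ^ i := by
    intro i
    induction i with
    | zero => simp
    | succ i ih =>
      have e : m ^ (i + 1) * z * (m ^ (i + 1))⁻¹ = m * (m ^ i * z * (m ^ i)⁻¹) * m⁻¹ := by
        rw [pow_succ']; group
      rw [e, ih]
      have e2 : m * (z * dlt m z ^ i) * m⁻¹ = (m * z * m⁻¹) * (m * dlt m z ^ i * m⁻¹) := by group
      have e3 : m * dlt m z ^ i * m⁻¹ = dlt m z ^ i := by
        rw [← conj_pow, h]
      have e4 : m * z * m⁻¹ = z * dlt m z := by simp only [dlt]; group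
      rw [e2, e3, e4, mul_assoc, ← pow_succ']
  have h2 := h1 r
  rw [hr] at h2
  simpa using h2

lemma coprime_trick {p : ℕ} (C D : Subgroup G) (hC : IsPGroup p C) (m : G)
    (hm : ∀ y ∈ C, m * y * m⁻¹ ∈ C) (r : ℕ) (hr : m ^ r = 1) (hco : Nat.Coprime p r)
    (hDn : ∀ g ∈ C, ∀ d ∈ D, g * d * g⁻¹ ∈ D) (hDn' : ∀ g ∈ C, ∀ d ∈ D, g⁻¹ * d * g ∈ D)
    (hDm : ∀ d, d ∈ D ↔ m * d * m⁻¹ ∈ D) (n : ℕ) (h : ∀ y ∈ C, (dlt m)^[n + 1] y ∈ D) :
    ∀ y ∈ C, dlt m y ∈ D := by
  have hCd : ∀ y ∈ C, dlt m y ∈ C := fun y hy => C.mul_mem (C.inv_mem hy) (hm y hy)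
  have hCi : ∀ j : ℕ, ∀ y ∈ C, (dlt m)^[j] y ∈ C := by
    intro j
    induction j with
    | zero => exact fun y hy => hy
    | succ j ih => intro y hy; rw [Function.iterate_succ_apply']; exact hCd _ (ih y hy)
  -- one step
  have step : ∀ z ∈ C, dlt m (dlt m z) ∈ D → dlt m z ∈ D := by
    intro z hz hzz
    set N := normalizer (D : Set G) with hN
    have hCN : C ≤ N := by
      intro g hg
      rw [hN, mem_normalizer_iff]
      intro d
      constructor
      · exact hDn g hg d
      · intro hd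
        have := hDn' g hg _ hd
        have e : g⁻¹ * (g * d * g⁻¹) * g = d := by group
        rw [e] at this; exact this
    have hmN : m ∈ N := by
      rw [hN, mem_normalizer_iff]; exact hDm
    set D' : Subgroup N := D.subgroupOf N with hD'
    have hD'n : D'.Normal := by rw [hD', hN]; infer_instance
    set z' : N := ⟨z, hCN hz⟩ with hz'
    set m' : N := ⟨m, hmN⟩ with hm'
    have e0 : ∀ y : N, ((dlt m' y : N) : G) = dlt m (y : G) := fun y => rfl
    have e1 : dlt (QuotientGroup.mk' D' m') (QuotientGroup.mk' D' z') =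
        QuotientGroup.mk' D' (dlt m' z') := by
      simp only [dlt, map_mul, map_inv]
    have h1 := pow_trick (QuotientGroup.mk' D' m') (QuotientGroup.mk' D' z') (by
      rw [e1, ← map_inv, ← map_mul, ← map_mul]
      symm
      apply QuotientGroup.eq.mpr
      rw [hD', mem_subgroupOf]
      have e2 : (((dlt m' z')⁻¹ * (m' * dlt m' z' * m'⁻¹) : N) : G) = dlt m (dlt m z) := rfl
      rw [e2]; exact hzz) r (by
        rw [← map_pow]
        have : m' ^ r = 1 := by ext; simpa [hm'] using hr
        rw [this, map_one])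
    rw [e1] at h1
    obtain ⟨k, hk⟩ := hC ⟨dlt m z, hCd z hz⟩
    have h2 : (QuotientGroup.mk' D' (dlt m' z')) ^ p ^ k = 1 := by
      rw [← map_pow]
      have : (dlt m' z') ^ p ^ k = 1 := by
        ext
        have h3 := congrArg Subtype.val hk
        rw [SubmonoidClass.coe_pow] at h3 ⊢
        exact h3
      rw [this, map_one]
    have ho : orderOf (QuotientGroup.mk' D' (dlt m' z')) = 1 :=
      Nat.eq_one_of_dvd_coprimes (Nat.Coprime.pow_left k hco) (orderOf_dvd_of_pow_eq_one h2)
        (orderOf_dvd_of_pow_eq_one h1)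
    have h3 := orderOf_eq_one_iff.mp ho
    have h4 := (QuotientGroup.eq_one_iff _).mp h3
    exact mem_subgroupOf.mp h4
  -- descending induction
  have desc : ∀ j : ℕ, ∀ k : ℕ, j + k = n → ∀ y ∈ C, (dlt m)^[j + 1] y ∈ D := by
    intro j k
    induction k generalizing j with
    | zero => intro hj; rw [add_zero] at hj; subst hj; exact h
    | succ k ih =>
      intro hj y hy
      have h1 := ih (j + 1) (by omega) y hy
      rw [Function.iterate_succ_apply', Function.iterate_succ_apply'] at h1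
      rw [Function.iterate_succ_apply']
      exact step _ (hCi j y hy) h1
  exact desc 0 n (by omega)

/-- the lower central words -/
def gam : ℕ → Tree
  | 0 => .leaf
  | n + 1 => .node (gam n) .leaf

lemma dlt_mem_gam (m : G) (n : ℕ) (y : G) (hy : y ∈ vals G (gam n)) :
    dlt m y ∈ vals G (gam (n + 1)) := by
  rw [dlt_eq]
  exact ⟨y⁻¹, vals_inv _ y hy, m, trivial, rfl⟩

lemma iter_mem_gam (m : G) (n : ℕ) (y : G) : (dlt m)^[n] y ∈ vals G (gam n) := by
  induction n with
  | zero => trivial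
  | succ n ih => rw [Function.iterate_succ_apply']; exact dlt_mem_gam m n _ ih

/-- the lower central words, in every finite group -/
theorem good_gam [Finite G] {p : ℕ} [hp : Fact p.Prime] (n : ℕ) : Good p G (gam n) := by
  induction n with
  | zero =>
    intro P x hx
    exact subset_closure ⟨hx.1, trivial⟩
  | succ n ih =>
    intro P
    set K := verb G (gam n) with hK
    set T := gen (P : Subgroup G) (gam (n + 1)) with hT
    have hPc : ∀ g ∈ P, ∀ x ∈ (P : Subgroup G), g * x * g⁻¹ ∈ (P : Subgroup G) := fun g hg x hx =>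
      P.mul_mem (P.mul_mem hg hx) (P.inv_mem hg)
    have ha : ∀ x ∈ (P : Subgroup G) ⊓ K, ∀ g ∈ P, x⁻¹ * (g * x * g⁻¹) ∈ T := by
      intro x hx g hg
      have hx' := ih P hx
      rw [gen] at hx'
      clear hx
      induction hx' using closure_induction with
      | mem c hc =>
        refine subset_closure ⟨?_, dlt_mem_gam g n c hc.2⟩
        exact P.mul_mem (P.inv_mem hc.1) (hPc g hg c hc.1)
      | one => simp
      | mul a b ha hb iha ihb =>
        have hbP : b ∈ (P : Subgroup G) := gen_le _ _ hb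
        have e : (a * b)⁻¹ * (g * (a * b) * g⁻¹) =
          (b⁻¹ * (a⁻¹ * (g * a * g⁻¹)) * b⁻¹⁻¹) * (b⁻¹ * (g * b * g⁻¹)) := by group
        rw [e]
        exact T.mul_mem (gen_conj_mem _ _ b⁻¹ (P.inv_mem hbP) _ iha) ihb
      | inv a ha iha =>
        have haP : a ∈ (P : Subgroup G) := gen_le _ _ ha
        have e : a⁻¹⁻¹ * (g * a⁻¹ * g⁻¹) = a * (a⁻¹ * (g * a * g⁻¹))⁻¹ * a⁻¹ := by group
        rw [e]
        exact gen_conj_mem _ _ a haP _ (T.inv_mem iha)
    have hb : ∀ C : Subgroup G, C ≤ P → ∀ m ∈ normalizer (C : Set G),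
        Nat.Coprime p (orderOf m) → ∀ y ∈ C ⊓ K, y⁻¹ * (m * y * m⁻¹) ∈ T := by
      intro C hCP m hm hco y hy
      have hmC : ∀ y ∈ C, m * y * m⁻¹ ∈ C := fun y hy => (mem_normalizer_iff.mp hm y).mp hy
      have hmC' : ∀ y ∈ C, m⁻¹ * y * m⁻¹⁻¹ ∈ C := fun y hy =>
        (mem_normalizer_iff.mp (inv_mem hm) y).mp hy
      have h1 := coprime_trick (p := p) C (gen C (gam (n + 1))) (P.2.to_le hCP) m hmC (orderOf m)
        (pow_orderOf_eq_one m) hco (fun g hg d hd => gen_conj_mem _ _ g hg d hd)
        (fun g hg d hd => by simpa using gen_conj_mem _ _ g⁻¹ (inv_mem hg) d hd)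
        (fun d => ⟨gen_conj _ _ m hmC d, fun hd => by
          have := gen_conj _ _ m⁻¹ hmC' _ hd
          have e : m⁻¹ * (m * d * m⁻¹) * m⁻¹⁻¹ = d := by group
          rw [e] at this; exact this⟩) n
        (fun y hy => subset_closure ⟨?_, iter_mem_gam m (n + 1) y⟩) y hy.1
      · have h2 : gen C (gam (n + 1)) ≤ T := by
          rw [gen, closure_le]
          exact fun x hx => subset_closure ⟨hCP hx.1, hx.2⟩
        exact h2 h1
      · have hCi : ∀ j : ℕ, (dlt m)^[j] y ∈ C := by
          intro j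
          induction j with
          | zero => exact hy
          | succ j ih =>
            rw [Function.iterate_succ_apply']
            exact C.mul_mem (C.inv_mem ih) (hmC _ ih)
        exact hCi (n + 1)
    have hF := fusion P K T ha hb
    have h1 := inf_commutator_le P K T ha hF
    rw [show verb G (gam (n + 1)) = ⁅K, (⊤ : Subgroup G)⁆ by
      change verb G (.node (gam n) .leaf) = _
      rw [verb_node, verb_leaf]]
    exact h1

end

end Pool.MP_8aaf67_al.H5
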