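import Pool.Agent.Work.MP_8aaf67_al.H5.Strong

/-!
Lifting normalising strong values through `p'`-Frattini extensions.
-/

namespace Pool.MP_8aaf67_al.H5

open Subgroup
open scoped commutatorElement

section

lemma rstr_bot {G : Type*} [Group G] (n : ℕ) : rstr (⊥ : Subgroup G) n ⊆ str G n := by
  induction n with
  | zero => exact fun _ _ => trivial
  | succ n ih =>
    rintro x ⟨y, hy, z, hz, hyz, hx⟩
    refine ⟨y, ih hy, z, ih hz, by simpa using hyz, ?_⟩
    rw [mem_bot, inv_mul_eq_one] at hx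
    exact hx.symm

lemma rstr_map {G : Type*} [Group G] (Q M : Subgroup G) [M.Normal] (n : ℕ) (x : G)
    (hx : x ∈ rstr Q n) : QuotientGroup.mk' M x ∈ rstr (Q.map (QuotientGroup.mk' M)) n := by
  induction n generalizing x with
  | zero => trivial
  | succ n ih =>
    obtain ⟨y, hy, z, hz, hyz, hx⟩ := hx
    refine ⟨_, ih y hy, _, ih z hz, ?_, ?_⟩
    · have h1 := congrArg (Subgroup.map (QuotientGroup.mk' M)) hyz
      rw [Subgroup.map_sup, MonoidHom.map_closure, Set.image_pair,
        map_top_of_surjective _ (QuotientGroup.mk'_surjective M)] at h1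
      exact h1
    · refine ⟨_, hx, ?_⟩
      rw [map_mul, map_inv, map_commutatorElement]

lemma str_to_rstr {G : Type*} [Group G] (Q : Subgroup G) [Q.Normal] (n : ℕ) (x : G)
    (hx : QuotientGroup.mk' Q x ∈ str (G ⧸ Q) n) : x ∈ rstr Q n := by
  induction n generalizing x with
  | zero => trivial
  | succ n ih =>
    obtain ⟨y, hy, z, hz, hyz, hx⟩ := hx
    obtain ⟨y, rfl⟩ := QuotientGroup.mk'_surjective Q y
    obtain ⟨z, rfl⟩ := QuotientGroup.mk'_surjective Q z
    refine ⟨y, ih y hy, z, ih z hz, ?_, ?_⟩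
    · have h1 : (closure {y, z} : Subgroup G).map (QuotientGroup.mk' Q) = ⊤ := by
        rw [MonoidHom.map_closure, Set.image_pair, hyz]
      have h2 := congrArg (Subgroup.comap (QuotientGroup.mk' Q)) h1
      rw [comap_map_eq, QuotientGroup.ker_mk', comap_top] at h2
      exact h2
    · rw [← map_commutatorElement] at hx
      exact QuotientGroup.eq.mp hx.symm

/-- a minimal normal subgroup in the Frattini subgroup is abelian -/
lemma comm_of_frattini {G : Type*} [Group G] [Finite G] (M : Subgroup G) [M.Normal]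
    (hfr : ∀ H : Subgroup G, H ⊔ M = ⊤ → H = ⊤) (hMne : M ≠ ⊥)
    (hmin : ∀ N : Subgroup G, N.Normal → N ≤ M → N = ⊥ ∨ N = M) :
    ∀ a ∈ M, ∀ b ∈ M, a * b = b * a := by
  have hMF : M ≤ _root_.frattini G := by
    rw [_root_.frattini, Order.radical]
    refine le_iInf fun K => le_iInf fun hK => ?_
    by_contra hMK
    have h1 : K < K ⊔ M := by
      refine lt_of_le_of_ne le_sup_left (fun h => hMK ?_)
      rw [h]; exact le_sup_right
    exact hK.1 (hfr K (hK.2 _ h1))
  have hnil : Group.IsNilpotent (_root_.frattini G) := frattini_nilpotent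
  have hnilM : Group.IsNilpotent M := by
    have h1 : Group.IsNilpotent (M.subgroupOf (_root_.frattini G)) := inferInstance
    have e : M.subgroupOf (_root_.frattini G) ≃* M := subgroupOfEquivOfLe hMF
    exact Group.nilpotent_of_mulEquiv e
  rcases hmin ⁅M, M⁆ inferInstance (commutator_le_left M M) with h | h
  · intro a ha b hb
    have h1 := commutator_mem_commutator ha hb
    rw [h] at h1
    exact commutatorElement_eq_one_iff_mul_comm.mp (mem_bot.mp h1)
  · exfalso
    have hp : Group.IsPerfect M := by rw [Subgroup.isPerfect_iff]; exact h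
    have : Nontrivial M := (nontrivial_iff_ne_bot M).mpr hMne
    exact Group.IsPerfect.not_isNilpotent M hnilM

theorem lift_norm {p : ℕ} [hp : Fact p.Prime] (N : ℕ) : ∀ {G : Type*} [Group G] [Finite G]
    (Q : Subgroup G) [Q.Normal], Nat.card Q = N → Nat.Coprime p (Nat.card Q) →
    (∀ H : Subgroup G, H ⊔ Q = ⊤ → H = ⊤) → ∀ (R : Subgroup G), IsPGroup p R → ∀ (k : ℕ) (m : G),
    m ∈ rstr Q k → (∀ r ∈ R, m * r * m⁻¹ ∈ R ⊔ Q) →
    ∃ m' ∈ str G k, m⁻¹ * m' ∈ Q ∧ ∀ r ∈ R, m' * r * m'⁻¹ ∈ R := by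
  induction N using Nat.strong_induction_on with
  | _ N ih =>
  intro G _ _ Q _ hcard hco hfr R hR k m hm hmR
  by_cases hQ : Q = ⊥
  · subst hQ
    refine ⟨m, rstr_bot k hm, by simp, ?_⟩
    intro r hr
    simpa using hmR r hr
  obtain ⟨M, ⟨hMn, hMne⟩, hMQ, hmin⟩ := exists_min
    (fun M : Subgroup G => M.Normal ∧ M ≠ ⊥) Q ⟨inferInstance, hQ⟩
  have hmin' : ∀ N : Subgroup G, N.Normal → N ≤ M → N = ⊥ ∨ N = M := by
    intro N hN hNM
    by_cases h : N = ⊥
    · exact Or.inl h
    · exact Or.inr (hmin N ⟨hN, h⟩ hNM)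
  have hfrM : ∀ H : Subgroup G, H ⊔ M = ⊤ → H = ⊤ := by
    intro H hH
    apply hfr
    rw [eq_top_iff, ← hH]
    exact sup_le_sup_left hMQ H
  have hab := comm_of_frattini M hfrM hMne hmin'
  set π := QuotientGroup.mk' M with hπ
  have hπs : Function.Surjective π := QuotientGroup.mk'_surjective M
  have hker : π.ker = M := QuotientGroup.ker_mk' M
  have hQ'n : (Q.map π).Normal := (inferInstance : Q.Normal).map π hπs
  -- cardinality of the image
  have hcardQ : Nat.card Q = Nat.card (Q.map π) * Nat.card M := by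
    have h1 : ((π.domRestrict Q).ker).index = Nat.card (π.domRestrict Q).range := index_ker _
    have h2 : (π.domRestrict Q).ker = M.subgroupOf Q := by
      ext z
      rw [MonoidHom.mem_ker, mem_subgroupOf]
      change π (z : G) = 1 ↔ _
      exact QuotientGroup.eq_one_iff _
    have h3 : (π.domRestrict Q).range = Q.map π := by
      ext z
      constructor
      · rintro ⟨y, rfl⟩; exact ⟨y, y.2, rfl⟩
      · rintro ⟨y, hy, rfl⟩; exact ⟨⟨y, hy⟩, rfl⟩
    rw [h2, h3] at h1
    have h4 := relIndex_mul_card_sub M Q hMQ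
    rw [← h4, ← h1, mul_comm]
    rfl
  have hMcard : 1 < Nat.card M := by
    rw [Finite.one_lt_card_iff_nontrivial]
    exact (nontrivial_iff_ne_bot M).mpr hMne
  have hlt : Nat.card (Q.map π) < N := by
    rw [← hcard, hcardQ]
    have : 0 < Nat.card (Q.map π) := Nat.card_pos
    exact lt_mul_of_one_lt_right this hMcard
  have hco' : Nat.Coprime p (Nat.card (Q.map π)) :=
    Nat.Coprime.coprime_dvd_right (Dvd.intro _ hcardQ.symm) hco
  have hcoM : Nat.Coprime p (Nat.card M) :=
    Nat.Coprime.coprime_dvd_right (Dvd.intro_left _ hcardQ.symm) hco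
  have hfr' : ∀ H : Subgroup (G ⧸ M), H ⊔ Q.map π = ⊤ → H = ⊤ := by
    intro H hH
    have h1 : (H.comap π) ⊔ Q = ⊤ := by
      have h2 := congrArg (Subgroup.comap π) hH
      rw [← comap_sup_eq π _ _ hπs, comap_top, comap_map_eq, hker] at h2
      rw [← h2]
      rw [sup_eq_left.mpr hMQ]
    have h2 := hfr _ h1
    have h3 := congrArg (Subgroup.map π) h2
    rw [map_comap_eq_self_of_surjective hπs, map_top_of_surjective π hπs] at h3
    exact h3
  obtain ⟨m', hm', hmm', hm'R⟩ := ih (Nat.card (Q.map π)) hlt (Q.map π) rfl hco' hfr' (R.map π)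
    (hR.map π) k (π m) (rstr_map Q M k m hm) (by
      rintro _ ⟨r, hr, rfl⟩
      rw [← Subgroup.map_sup]
      exact ⟨_, hmR r hr, by simp⟩)
  obtain ⟨x, hx, rfl⟩ := str_lift hfrM k m' hm'
  have hxQ : m⁻¹ * x ∈ Q := by
    have h1 : π (m⁻¹ * x) ∈ Q.map π := by rw [map_mul, map_inv]; exact hmm'
    have h2 : m⁻¹ * x ∈ (Q.map π).comap π := h1
    rw [comap_map_eq, hker, sup_eq_left.mpr hMQ] at h2
    exact h2
  have hxR : ∀ r ∈ R, x * r * x⁻¹ ∈ R ⊔ M := by
    intro r hr
    have h1 : π (x * r * x⁻¹) ∈ R.map π := by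
      rw [map_mul, map_mul, map_inv]
      exact hm'R _ ⟨r, hr, rfl⟩
    have h2 : x * r * x⁻¹ ∈ (R.map π).comap π := h1
    rw [comap_map_eq, hker] at h2
    exact h2
  by_cases hnc : ∀ a ∈ M, ∀ g : G, g * a * g⁻¹ = a
  · -- central
    refine ⟨x, hx, hxQ, ?_⟩
    intro r hr
    obtain ⟨r', hr', a, ha, hra⟩ := mem_sup_of_normal_right.mp (hxR r hr)
    have hcomm : Commute r' a := by
      have := hnc a ha r'
      have h2 : r' * a = a * r' := by
        calc r' * a = (r' * a * r'⁻¹) * r' := by group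
          _ = a * r' := by rw [this]
      exact h2
    have h1 : a = 1 := by
      have hN1 : ∀ s ∈ R, s ^ Nat.card R = 1 := by
        intro s hs
        have : (⟨s, hs⟩ : R) ^ Nat.card R = 1 := pow_card_eq_one'
        have h2 := congrArg Subtype.val this
        rw [SubmonoidClass.coe_pow] at h2
        exact h2
      have h2 : (r' * a) ^ Nat.card R = 1 := by
        rw [hra, conj_pow, hN1 r hr]; group
      rw [hcomm.mul_pow, hN1 r' hr', one_mul] at h2
      have h3 : a ^ Nat.card M = 1 := by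
        have : (⟨a, ha⟩ : M) ^ Nat.card M = 1 := pow_card_eq_one'
        have h2 := congrArg Subtype.val this
        rw [SubmonoidClass.coe_pow] at h2
        exact h2
      obtain ⟨n, hn⟩ := IsPGroup.iff_card.mp hR
      rw [hn] at h2
      exact orderOf_eq_one_iff.mp (Nat.eq_one_of_dvd_coprimes (Nat.Coprime.pow_left n hcoM)
        (orderOf_dvd_of_pow_eq_one h2) (orderOf_dvd_of_pow_eq_one h3))
    rw [h1, mul_one] at hra
    rw [← hra]; exact hr'
  · -- not central
    have habs := str_absorb hfrM hab hmin' hnc k x hx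
    set N0 := R ⊔ M with hN0
    have hidx : ¬ p ∣ (R.subgroupOf N0).index := by
      intro h
      have h1 : R.relIndex N0 = R.relIndex M := (relIndex_sup_eq R M).symm
      have h2 : p ∣ R.relIndex M := by rw [← h1]; exact h
      exact ((Nat.Prime.coprime_iff_not_dvd hp.out).mp hcoM) (h2.trans (relIndex_dvd_card R M))
    let S : Sylow p N0 := IsPGroup.toSylow (P := R.subgroupOf N0) (hR.comap_subtype) hidx
    obtain ⟨n, hn, hn2⟩ := exists_conj_le N0 S (cj x R) (isPGroup_cj hR x) (by
      intro z hz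
      rw [mem_cj] at hz
      have := hxR _ hz
      have e : x * (x⁻¹ * z * x) * x⁻¹ = z := by group
      rw [e] at this; exact this)
    obtain ⟨r0, hr0, c, hc, rfl⟩ := mem_sup_of_normal_right.mp hn
    refine ⟨c * x, habs c hc, ?_, ?_⟩
    · have : m⁻¹ * (c * x) = (m⁻¹ * x) * (x⁻¹ * c * x) := by group
      rw [this]
      refine Q.mul_mem hxQ ?_
      have := (inferInstance : Q.Normal).conj_mem c (hMQ hc) x⁻¹
      simpa using this
    · intro r hr
      have h1 := hn2 _ (cj_mem (h := x) hr)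
      have h2 : r0 * c * (x * r * x⁻¹) * (r0 * c)⁻¹ ∈ R := by
        obtain ⟨z, hz, hz2⟩ := h1
        rw [← hz2]
        exact hz
      have e : c * x * r * (c * x)⁻¹ = r0⁻¹ * (r0 * c * (x * r * x⁻¹) * (r0 * c)⁻¹) * r0 := by
        group
      rw [e]
      exact R.mul_mem (R.mul_mem (R.inv_mem hr0) h2) hr0

end

end Pool.MP_8aaf67_al.H5
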