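import Pool.Agent.Work.MP_8aaf67_al.H5.Lift

/-!
Frattini covers of `p`-good simple groups.
-/

namespace Pool.MP_8aaf67_al.H5

open Subgroup
open scoped commutatorElement

section

/-- `S` is `p`-good: a Sylow `p`-subgroup `P` is generated by commutators of `P` and by the
elements `y⁻¹ (m y m⁻¹)`, `y ∈ R ≤ P`, where `m` is a `p'`-element of `N_S(R)` and a strong
derived value of depth `k` -/
def PGood (p : ℕ) (S : Type*) [Group S] : Prop :=
  ∀ (k : ℕ) (P : Sylow p S), (P : Subgroup S) ≤ closure {x | (∃ a ∈ P, ∃ b ∈ P, x = ⁅a, b⁆) ∨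
    ∃ R : Subgroup S, R ≤ P ∧ ∃ m ∈ normalizer (R : Set S), m ∈ str S k ∧
      Nat.Coprime p (orderOf m) ∧ ∃ y ∈ R, x = dlt m y}

lemma iter_mem_del {G : Type*} [Group G] (m : G) (k : ℕ) (hm : m ∈ vals G (del k)) (y : G) (j : ℕ)
    (hj : j ≤ k + 1) : (dlt m)^[j] y ∈ vals G (del j) := by
  induction j with
  | zero => trivial
  | succ j ih =>
    rw [Function.iterate_succ_apply', dlt_eq]
    exact ⟨_, vals_inv _ _ (ih (by omega)), m, del_anti (by omega) hm, rfl⟩

theorem good_of_special {G : Type*} [Group G] [Finite G] {p : ℕ} [hp : Fact p.Prime]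
    (Q : Subgroup G) [Q.Normal] (hco : Nat.Coprime p (Nat.card Q))
    (hfr : ∀ H : Subgroup G, H ⊔ Q = ⊤ → H = ⊤) (hS : PGood p (G ⧸ Q)) (w : Tree) :
    Good p G w := by
  intro P
  set π := QuotientGroup.mk' Q with hπ
  have hπs : Function.Surjective π := QuotientGroup.mk'_surjective Q
  have key : ∀ k : ℕ, (P : Subgroup G) ≤ gen (P : Subgroup G) (del k) := by
    intro k
    induction k with
    | zero => exact fun x hx => subset_closure ⟨hx, trivial⟩
    | succ k ih =>
      set T := gen (P : Subgroup G) (del (k + 1)) with hT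
      let P' : Sylow p (G ⧸ Q) := P.mapSurjective hπs
      have h1 := hS k P'
      have h2 : closure {x | (∃ a ∈ P', ∃ b ∈ P', x = ⁅a, b⁆) ∨
          ∃ R : Subgroup (G ⧸ Q), R ≤ P' ∧ ∃ m ∈ normalizer (R : Set (G ⧸ Q)), m ∈ str (G ⧸ Q) k ∧
          Nat.Coprime p (orderOf m) ∧ ∃ y ∈ R, x = dlt m y} ≤ T.map π := by
        rw [closure_le]
        rintro x (⟨a, ha, b, hb, rfl⟩ | ⟨R', hR'P, m', hm'N, hm', hm'o, y', hy', rfl⟩)
        · obtain ⟨a, ha, rfl⟩ := ha
          obtain ⟨b, hb, rfl⟩ := hb
          refine ⟨⁅a, b⁆, ?_, map_commutatorElement _ _ _⟩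
          have h3 : ⁅(P : Subgroup G), (P : Subgroup G)⁆ ≤ T := by
            refine (commutator_mono ih ih).trans ?_
            apply commutator_closure_le
            · intro g hg n hn
              have hgP : g ∈ (P : Subgroup G) := (sup_le (gen_le _ _) (gen_le _ _)) hg
              exact gen_conj_mem _ _ g hgP n hn
            · intro a ha b hb
              refine subset_closure ⟨?_, a, ha.2, b, hb.2, rfl⟩
              exact P.mul_mem (P.mul_mem (P.mul_mem ha.1 hb.1) (P.inv_mem ha.1)) (P.inv_mem hb.1)
          exact h3 (commutator_mem_commutator ha hb)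
        · -- lift the normalising element
          set R : Subgroup G := (P : Subgroup G) ⊓ R'.comap π with hR
          have hRP : R ≤ P := inf_le_left
          have hRp : IsPGroup p R := P.2.to_le hRP
          obtain ⟨m, rfl⟩ := hπs m'
          have hmR : ∀ r ∈ R, m * r * m⁻¹ ∈ R ⊔ Q := by
            intro r hr
            have h3 : π (m * r * m⁻¹) ∈ R' := by
              rw [map_mul, map_mul, map_inv]
              exact (mem_normalizer_iff.mp hm'N _).mp hr.2
            obtain ⟨p0, hp0, hp0'⟩ := hR'P h3
            have h4 : p0⁻¹ * (m * r * m⁻¹) ∈ Q := QuotientGroup.eq.mp hp0'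
            have h5 : m * r * m⁻¹ = p0 * (p0⁻¹ * (m * r * m⁻¹)) := by group
            rw [h5]
            refine mul_mem (mem_sup_left ⟨hp0, ?_⟩) (mem_sup_right h4)
            change π p0 ∈ R'
            rw [hp0']; exact h3
          obtain ⟨m', hm'str, hmm', hm'R⟩ := lift_norm (p := p) (Nat.card Q) Q rfl hco hfr R hRp k m
            (str_to_rstr Q k m hm') hmR
          have hπm : π m' = π m := by
            symm; exact QuotientGroup.eq.mpr hmm'
          obtain ⟨y, hy, hyy⟩ : ∃ y ∈ R, π y = y' := by
            obtain ⟨y, hy, hyy⟩ := hR'P hy'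
            refine ⟨y, ⟨hy, ?_⟩, hyy⟩
            change π y ∈ R'
            rw [hyy]; exact hy'
          refine ⟨dlt m' y, ?_, ?_⟩
          · have hm'R' : m' ∈ normalizer (R : Set G) := mem_normalizer_of_conj hm'R
            have hm'Ri : ∀ r ∈ R, m'⁻¹ * r * m'⁻¹⁻¹ ∈ R := fun r hr =>
              (mem_normalizer_iff.mp (inv_mem hm'R') r).mp hr
            have hD : gen R (del (k + 1)) ≤ T := by
              rw [gen, closure_le]
              exact fun x hx => subset_closure ⟨hRP hx.1, hx.2⟩
            apply hD
            have hRi : ∀ y ∈ R, ∀ j : ℕ, (dlt m')^[j] y ∈ R := by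
              intro y hy j
              induction j with
              | zero => exact hy
              | succ j ih =>
                rw [Function.iterate_succ_apply']
                exact R.mul_mem (R.inv_mem ih) (hm'R _ ih)
            refine coprime_trick (p := p) R (gen R (del (k + 1))) hRp m' hm'R
              (orderOf (π m) * Nat.card Q) ?_ (Nat.Coprime.mul_right hm'o hco)
              (fun g hg d hd => gen_conj_mem _ _ g hg d hd)
              (fun g hg d hd => by simpa using gen_conj_mem _ _ g⁻¹ (inv_mem hg) d hd)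
              (fun d => ⟨gen_conj _ _ m' hm'R d, fun hd => by
                have := gen_conj _ _ m'⁻¹ hm'Ri _ hd
                have e : m'⁻¹ * (m' * d * m'⁻¹) * m'⁻¹⁻¹ = d := by group
                rw [e] at this; exact this⟩) k
              (fun y hy => subset_closure ⟨hRi y hy _,
                iter_mem_del m' k (str_sub k hm'str) y (k + 1) le_rfl⟩) y hy
            have h6 : m' ^ orderOf (π m) ∈ Q := by
              rw [← QuotientGroup.eq_one_iff]
              change π (m' ^ orderOf (π m)) = 1
              rw [map_pow, hπm, pow_orderOf_eq_one]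
            rw [pow_mul]
            have h7 : (⟨m' ^ orderOf (π m), h6⟩ : Q) ^ Nat.card Q = 1 := pow_card_eq_one'
            have h8 := congrArg Subtype.val h7
            rw [SubmonoidClass.coe_pow] at h8
            exact h8
          · rw [← hyy, ← hπm]
            simp only [dlt, map_mul, map_inv]
      intro x hx
      have h3 : π x ∈ T.map π := h2 (h1 ⟨x, hx, rfl⟩)
      obtain ⟨t, ht, htx⟩ := h3
      have h4 : t⁻¹ * x ∈ Q := QuotientGroup.eq.mp htx
      have h5 : t⁻¹ * x ∈ (P : Subgroup G) := P.mul_mem (P.inv_mem (gen_le _ _ ht)) hx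
      have h6 : t⁻¹ * x = 1 := by
        obtain ⟨n, hn⟩ := P.2 ⟨_, h5⟩
        have h7 : (t⁻¹ * x) ^ p ^ n = 1 := by
          have := congrArg Subtype.val hn
          rw [SubmonoidClass.coe_pow] at this
          exact this
        have h8 : (t⁻¹ * x) ^ Nat.card Q = 1 := by
          have h9 : (⟨_, h4⟩ : Q) ^ Nat.card Q = 1 := pow_card_eq_one'
          have := congrArg Subtype.val h9
          rw [SubmonoidClass.coe_pow] at this
          exact this
        exact orderOf_eq_one_iff.mp (Nat.eq_one_of_dvd_coprimes (Nat.Coprime.pow_left n hco)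
          (orderOf_dvd_of_pow_eq_one h7) (orderOf_dvd_of_pow_eq_one h8))
      have h7 : x = t := (inv_mul_eq_one.mp h6).symm
      rw [h7]; exact ht
  intro x hx
  have h1 := key (height w) hx.1
  have h2 : gen (P : Subgroup G) (del (height w)) ≤ gen (P : Subgroup G) w := by
    rw [gen, closure_le]
    exact fun x hx => subset_closure ⟨hx.1, del_height w hx.2⟩
  exact h2 h1

end

end Pool.MP_8aaf67_al.H5
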