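import Pool.Agent.Work.MP_8aaf67_al.H5.Descent

/-!
The structure of a minimal counterexample.
-/

namespace Pool.MP_8aaf67_al.H5

open Subgroup
open scoped commutatorElement Pointwise

section
variable {G : Type*} [Group G]

/-- minimal counterexamples have this structure -/
structure Special (p : ℕ) (G : Type*) [Group G] (Q : Subgroup G) : Prop where
  normal : Q.Normal
  coprime : Nat.Coprime p (Nat.card Q)
  dvd : p ∣ Q.index
  simple : ∀ M : Subgroup G, M.Normal → Q ≤ M → M = Q ∨ M = ⊤
  perfect : ⁅(⊤ : Subgroup G), (⊤ : Subgroup G)⁆ = ⊤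
  frattini : ∀ H : Subgroup G, H ⊔ Q = ⊤ → H = ⊤
  radical : ∀ M : Subgroup G, M.Normal → IsPGroup p M → M = ⊥

lemma verb_perfect (h : ⁅(⊤ : Subgroup G), (⊤ : Subgroup G)⁆ = ⊤) (w : Tree) :
    verb G w = ⊤ := by
  induction w with
  | leaf => exact verb_leaf
  | node u v hu hv => rw [verb_node, hu, hv, h]

/-- the intersection of a Sylow subgroup with a normal subgroup, as a Sylow subgroup -/
noncomputable def infSylow [Finite G] {p : ℕ} [Fact p.Prime] (P : Sylow p G) (K : Subgroup G)
    [K.Normal] : Sylow p K :=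
  IsPGroup.toSylow (P := (P : Subgroup G).subgroupOf K) (P.2.comap_subtype)
    (not_dvd_relIndex P K)

lemma infSylow_coe [Finite G] {p : ℕ} [Fact p.Prime] (P : Sylow p G) (K : Subgroup G)
    [K.Normal] : ((infSylow P K : Sylow p K) : Subgroup K) = (P : Subgroup G).subgroupOf K := rfl

lemma le_normalizer_inf (P K : Subgroup G) [K.Normal] :
    P ≤ normalizer ((P ⊓ K : Subgroup G) : Set G) := by
  intro g hg
  rw [mem_normalizer_iff]
  intro h
  constructor
  · intro hh
    exact ⟨P.mul_mem (P.mul_mem hg hh.1) (P.inv_mem hg),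
      (inferInstance : K.Normal).conj_mem h hh.2 g⟩
  · intro hh
    have h1 : h = g⁻¹ * (g * h * g⁻¹) * g⁻¹⁻¹ := by group
    rw [h1]
    exact ⟨P.mul_mem (P.mul_mem (P.inv_mem hg) hh.1) (P.inv_mem (P.inv_mem hg)),
      (inferInstance : K.Normal).conj_mem _ hh.2 g⁻¹⟩

/-- existence of a minimal normal subgroup with a property -/
lemma exists_min [Finite G] (C : Subgroup G → Prop) (Y : Subgroup G) (hY : C Y) :
    ∃ M : Subgroup G, C M ∧ M ≤ Y ∧ ∀ N : Subgroup G, C N → N ≤ M → N = M := by
  classical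
  have hfin : Finite (Subgroup G) := inferInstance
  obtain ⟨M, hM⟩ := (Set.toFinite {M : Subgroup G | C M ∧ M ≤ Y}).exists_minimal ⟨Y, hY, le_rfl⟩
  refine ⟨M, hM.1.1, hM.1.2, fun N hN hNM => ?_⟩
  exact le_antisymm hNM (hM.2 ⟨hN, hNM.trans hM.1.2⟩ hNM)

lemma exists_max [Finite G] (C : Subgroup G → Prop) (Y : Subgroup G) (hY : C Y) :
    ∃ M : Subgroup G, C M ∧ Y ≤ M ∧ ∀ N : Subgroup G, C N → M ≤ N → N = M := by
  classical
  have hfin : Finite (Subgroup G) := inferInstance
  obtain ⟨M, hM⟩ := (Set.toFinite {M : Subgroup G | C M ∧ Y ≤ M}).exists_maximal ⟨Y, hY, le_rfl⟩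
  refine ⟨M, hM.1.1, hM.1.2, fun N hN hNM => ?_⟩
  exact le_antisymm (hM.2 ⟨hN, hM.1.2.trans hNM⟩ hNM) hNM

lemma relIndex_mul_card_sub (H K : Subgroup G) (h : H ≤ K) :
    Nat.card H * H.relIndex K = Nat.card K := by
  have := relIndex_mul_relIndex ⊥ H K bot_le h
  rwa [relIndex_bot_left, relIndex_bot_left] at this

/-- the supplements that occur in the reduction -/
def Supp (p : ℕ) (Y N : Subgroup G) : Prop :=
  Y ⊔ N = ⊤ ∧ ∃ R : Subgroup G, R ≤ Y ∧ R ≤ N ∧ IsPGroup p R ∧ (∀ n ∈ N, ∀ r ∈ R, n * r * n⁻¹ ∈ R) ∧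
    ¬ p ∣ R.relIndex (Y ⊓ N)

lemma supp_normalizer [Finite G] {p : ℕ} [Fact p.Prime] (P : Sylow p G) (Y : Subgroup G)
    [Y.Normal] : Supp p Y (normalizer (((P : Subgroup G) ⊓ Y : Subgroup G) : Set G)) := by
  refine ⟨frattini P Y, (P : Subgroup G) ⊓ Y, inf_le_right, le_normalizer,
    P.2.to_le inf_le_left, fun n hn r hr => (mem_normalizer_iff.mp hn r).mp hr, ?_⟩
  intro h
  apply not_dvd_relIndex P Y
  rw [← inf_relIndex_right]
  have := relIndex_mul_relIndex ((P : Subgroup G) ⊓ Y)
    (Y ⊓ normalizer (((P : Subgroup G) ⊓ Y : Subgroup G) : Set G)) Y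
    (le_inf inf_le_right le_normalizer) inf_le_left
  rw [← this]
  exact h.mul_right _

theorem reduction [Finite G] {p : ℕ} [hp : Fact p.Prime]
    (hnorm : ∀ (E : Subgroup G) [E.Normal], E ≠ ⊤ → ∀ w, Good p E w)
    (hsup : ∀ (Y N : Subgroup G) [Y.Normal], N ≠ ⊤ → Supp p Y N → ∀ w, Good p N w)
    (hquot : ∀ (M : Subgroup G) [M.Normal], M ≠ ⊥ → ∀ w, Good p (G ⧸ M) w) :
    (∀ w, Good p G w) ∨ ∃ Q : Subgroup G, Special p G Q := by
  classical
  by_cases hOp : ∀ M : Subgroup G, M.Normal → IsPGroup p M → M = ⊥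
  swap
  · left
    push Not at hOp
    obtain ⟨M0, hM0n, hM0p, hM0⟩ := hOp
    obtain ⟨M, ⟨hMn, hM⟩, hMM0, hmin⟩ := exists_min (fun M => M.Normal ∧ M ≠ ⊥) M0 ⟨hM0n, hM0⟩
    have hMp : IsPGroup p M := hM0p.to_le hMM0
    intro w
    refine good_of_minimal M hMp hM ?_ (fun w => hquot M hM w) w
    intro N hN hNM
    by_cases h : N = ⊥
    · exact Or.inl h
    · exact Or.inr (hmin N ⟨hN, h⟩ hNM)
  -- the largest normal `p'`-subgroup
  obtain ⟨Q, ⟨hQn, hQc⟩, -, hQmax⟩ := exists_max
    (fun M : Subgroup G => M.Normal ∧ Nat.Coprime p (Nat.card M)) ⊥ ⟨inferInstance, by simp⟩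
  by_cases hQ : Q = ⊤
  · left
    intro w P x hx
    have h1 : (P : Subgroup G) = ⊥ := by
      obtain ⟨n, hn⟩ := IsPGroup.iff_card.mp P.2
      have h2 : Nat.card P ∣ Nat.card G := card_subgroup_dvd_card _
      rw [hQ, card_top] at hQc
      have h3 : Nat.card P = 1 := by
        have h4 := Nat.Coprime.coprime_dvd_right h2 hQc
        rw [hn] at h4 ⊢
        rcases n with _ | n
        · simp
        · exfalso
          have := Nat.Coprime.eq_one_of_dvd h4 (dvd_pow_self p (Nat.succ_ne_zero n))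
          exact hp.out.one_lt.ne' this
      exact card_eq_one.mp h3
    have h2 := hx.1
    rw [h1] at h2
    rw [mem_bot.mp h2]
    exact one_mem _
  -- a minimal normal subgroup above `Q`
  obtain ⟨Y, ⟨hYn, hQY⟩, -, hYmin⟩ := exists_min
    (fun M : Subgroup G => M.Normal ∧ Q < M) ⊤ ⟨inferInstance, lt_top_iff_ne_top.mpr hQ⟩
  have hYle : Q ≤ Y := hQY.le
  have hYmin' : ∀ M : Subgroup G, M.Normal → Q ≤ M → M ≤ Y → M = Q ∨ M = Y := by
    intro M hM h1 h2
    rcases h1.eq_or_lt with h | h
    · exact Or.inl h.symm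
    · exact Or.inr (hYmin M ⟨hM, h⟩ h2)
  have hpY : p ∣ Nat.card Y := by
    by_contra h
    have := hQmax Y ⟨hYn, (Nat.Prime.coprime_iff_not_dvd hp.out).mpr h⟩ hYle
    exact hQY.ne this.symm
  -- a Sylow subgroup meets `Y` nontrivially
  have hPE : ∀ (P : Sylow p G) (E : Subgroup G) [E.Normal], p ∣ Nat.card E →
      (P : Subgroup G) ⊓ E ≠ ⊥ := by
    intro P E _ hE h
    have h1 := not_dvd_relIndex P E
    rw [← inf_relIndex_right, h, relIndex_bot_left] at h1
    exact h1 hE
  by_cases hab : ⁅Y, Y⁆ ≤ Q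
  · -- abelian factor
    left
    intro w P
    set R := (P : Subgroup G) ⊓ Y with hR
    set N := normalizer (R : Set G) with hN
    have hYN : Y ⊔ N = ⊤ := frattini P Y
    have hPN : (P : Subgroup G) ≤ N := le_normalizer_inf _ Y
    have hRN : R ≤ N := le_normalizer
    have hQRn : (Q ⊔ R).Normal := by
      constructor
      intro n hn g
      have hg : g ∈ Y ⊔ N := hYN ▸ mem_top g
      rw [sup_comm] at hn
      obtain ⟨r, hr, q, hq, rfl⟩ := mem_sup_of_normal_right.mp hn
      have hg' : g⁻¹ ∈ N ⊔ Y := by rw [sup_comm]; exact inv_mem hg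
      obtain ⟨n', hn', y', hy', hgy⟩ := mem_sup_of_normal_right.mp hg'
      have hgeq : g = y'⁻¹ * n'⁻¹ := by rw [← mul_inv_rev, hgy, inv_inv]
      have hz : n'⁻¹ * r * n' ∈ R := by
        have := (mem_normalizer_iff.mp (N.inv_mem hn') r).mp hr
        simpa using this
      have e : g * (r * q) * g⁻¹ = (⁅y'⁻¹, n'⁻¹ * r * n'⁆ * (n'⁻¹ * r * n')) * (g * q * g⁻¹) := by
        rw [hgeq]; simp only [commutatorElement_def]; group
      rw [e]
      refine mul_mem (mul_mem (mem_sup_left ?_) (mem_sup_right hz)) (mem_sup_left ?_)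
      · exact hab (commutator_mem_commutator (Y.inv_mem hy') hz.2)
      · exact hQn.conj_mem q hq g
    have hQRY : Q ⊔ R ≤ Y := sup_le hYle inf_le_right
    have hRne : R ≠ ⊥ := hPE P Y hpY
    have hQR : Q ⊔ R = Y := by
      rcases hYmin' (Q ⊔ R) hQRn le_sup_left hQRY with h | h
      · exfalso
        have h1 : R ≤ Q := sup_eq_left.mp h
        apply hRne
        have hRp : IsPGroup p R := P.2.to_le inf_le_left
        obtain ⟨n, hn⟩ := IsPGroup.iff_card.mp hRp
        have h2 := Nat.Coprime.coprime_dvd_right (card_dvd_of_le h1) hQc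
        apply card_eq_one.mp
        rw [hn] at h2 ⊢
        rcases n with _ | n
        · simp
        · exfalso
          have := Nat.Coprime.eq_one_of_dvd h2 (dvd_pow_self p (Nat.succ_ne_zero n))
          exact hp.out.one_lt.ne' this
      · exact h
    have hQN : Q ⊔ N = ⊤ := by
      rw [eq_top_iff, ← hYN, ← hQR]
      exact sup_le (sup_le le_sup_left (hRN.trans le_sup_right)) le_sup_right
    have hNtop : N ≠ ⊤ := by
      intro h
      have hRnorm : R.Normal := normalizer_eq_top_iff.mp h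
      exact hRne (hOp R hRnorm (P.2.to_le inf_le_left))
    exact good_of_coprime P Q N hQc hQN hPN w (hsup Y N hNtop (supp_normalizer P Y) w)
  -- nonabelian factor
  have hYY : ⁅Y, Y⁆ ⊔ Q = Y := by
    have h1 : ⁅Y, Y⁆ ≤ Y := commutator_le_left Y Y
    rcases hYmin' (⁅Y, Y⁆ ⊔ Q) inferInstance le_sup_right (sup_le h1 hYle) with h | h
    · exact absurd (sup_eq_right.mp h) hab
    · exact h
  obtain ⟨E, ⟨hEn, hEQ⟩, hEY, hEmin⟩ := exists_min
    (fun M : Subgroup G => M.Normal ∧ M ⊔ Q = Y) Y ⟨hYn, sup_eq_left.mpr hYle⟩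
  have hEE : ⁅E, E⁆ = E := by
    apply hEmin
    · refine ⟨inferInstance, ?_⟩
      apply le_antisymm
      · exact sup_le ((commutator_le_left E E).trans hEY) hYle
      · conv_lhs => rw [← hYY]
        refine sup_le ?_ le_sup_right
        rw [← hEQ]
        rw [commutator_le]
        intro a ha b hb
        obtain ⟨e, he, q, hq, rfl⟩ := mem_sup_of_normal_right.mp ha
        obtain ⟨e', he', q', hq', rfl⟩ := mem_sup_of_normal_right.mp hb
        have h1 : QuotientGroup.mk' Q ⁅e * q, e' * q'⁆ = QuotientGroup.mk' Q ⁅e, e'⁆ := by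
          have h2 : QuotientGroup.mk' Q q = 1 := (QuotientGroup.eq_one_iff q).mpr hq
          have h3 : QuotientGroup.mk' Q q' = 1 := (QuotientGroup.eq_one_iff q').mpr hq'
          simp only [map_commutatorElement, map_mul, h2, h3, mul_one]
        have h4 := QuotientGroup.eq.mp h1.symm
        have h5 : ⁅e * q, e' * q'⁆ = ⁅e, e'⁆ * (⁅e, e'⁆⁻¹ * ⁅e * q, e' * q'⁆) := by group
        rw [h5]
        exact mul_mem (mem_sup_left (commutator_mem_commutator he he')) (mem_sup_right h4)
    · exact commutator_le_left E E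
  have hpE : p ∣ Nat.card E := by
    have h1 : p ∣ Q.relIndex Y := by
      have h2 := relIndex_mul_card_sub Q Y hYle
      rw [← h2, hp.out.dvd_mul] at hpY
      rcases hpY with h | h
      · exact absurd h ((Nat.Prime.coprime_iff_not_dvd hp.out).mp hQc)
      · exact h
    have h3 : Q.relIndex Y = Q.relIndex E := by
      rw [← hEQ, relIndex_sup_right]
    rw [h3] at h1
    exact h1.trans (relIndex_dvd_card Q E)
  by_cases hEtop : E = ⊤
  swap
  · -- proper perfect normal subgroup
    left
    intro w P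
    set N := normalizer (((P : Subgroup G) ⊓ E : Subgroup G) : Set G) with hN
    have hNtop : N ≠ ⊤ := by
      intro h
      have hRnorm : ((P : Subgroup G) ⊓ E).Normal := normalizer_eq_top_iff.mp h
      exact hPE P E hpE (hOp _ hRnorm (P.2.to_le inf_le_left))
    have h1 := good_of_perfect P E N (frattini P E) (le_normalizer_inf _ E) w
      (hsup E N hNtop (supp_normalizer P E) w)
    refine h1.trans (sup_le le_rfl ?_)
    intro x hx
    have hEtop' : verb E w = ⊤ := by
      apply verb_perfect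
      apply Subgroup.map_injective E.subtype_injective
      rw [map_commutator, ← MonoidHom.range_eq_map, E.range_subtype, hEE]
    have h2 := hnorm E hEtop w (infSylow P E)
    rw [hEtop', inf_top_eq] at h2
    have h3 : (⟨x, hx.2⟩ : E) ∈ ((infSylow P E : Sylow p E) : Subgroup E) := hx.1
    exact gen_map E (P : Subgroup G) _ (by
      rw [infSylow_coe, subgroupOf_map_subtype]; exact inf_le_left) w ⟨_, h2 h3, rfl⟩
  · -- `G` is perfect
    subst hEtop
    have hYtop : Y = ⊤ := top_le_iff.mp hEY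
    subst hYtop
    by_cases hfr : ∀ H : Subgroup G, H ⊔ Q = ⊤ → H = ⊤
    · right
      refine ⟨Q, hQn, hQc, ?_, ?_, hEE, hfr, hOp⟩
      · have h2 := card_mul_index Q
        rw [card_top, ← h2, hp.out.dvd_mul] at hpY
        rcases hpY with h | h
        · exact absurd h ((Nat.Prime.coprime_iff_not_dvd hp.out).mp hQc)
        · exact h
      · exact fun M hM h => hYmin' M hM h le_top
    · left
      push Not at hfr
      obtain ⟨H, hHQ, hH⟩ := hfr
      intro w P
      -- a conjugate of `H` contains `P`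
      have hHidx : ¬ p ∣ H.index := by
        have h1 : H.index ∣ Nat.card Q := by
          have h2 : H.relIndex Q = H.index := by
            rw [relIndex_sup_eq H Q, hHQ, relIndex_top_right]
          rw [← h2]
          exact relIndex_dvd_card H Q
        intro h
        exact ((Nat.Prime.coprime_iff_not_dvd hp.out).mp hQc) (h.trans h1)
      obtain ⟨S⟩ : Nonempty (Sylow p H) := inferInstance
      have hSidx : ¬ p ∣ ((S : Subgroup H).map H.subtype).index := by
        rw [index_map_subtype, hp.out.dvd_mul]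
        push Not
        exact ⟨S.not_dvd_index, hHidx⟩
      let S' : Sylow p G := IsPGroup.toSylow (S.2.map H.subtype) hSidx
      obtain ⟨g, hg⟩ := MulAction.exists_smul_eq G S' P
      set H' : Subgroup G := H.map (MulAut.conj g).toMonoidHom with hH'
      have hPH' : (P : Subgroup G) ≤ H' := by
        rw [← hg]
        intro x hx
        have hx' : x ∈ (MulAut.conj g • (S' : Subgroup G)) := hx
        obtain ⟨y, hy, rfl⟩ := hx'
        exact ⟨y, (map_subtype_le _) hy, rfl⟩
      have hH'Q : Q ⊔ H' = ⊤ := by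
        have h1 : Q.map (MulAut.conj g).toMonoidHom ≤ Q := by
          rintro _ ⟨x, hx, rfl⟩
          exact hQn.conj_mem x hx g
        rw [eq_top_iff]
        have h2 : (⊤ : Subgroup G).map (MulAut.conj g).toMonoidHom = ⊤ :=
          map_top_of_surjective _ (MulAut.conj g).surjective
        rw [← h2, ← hHQ, Subgroup.map_sup, sup_comm]
        exact sup_le_sup_right h1 _
      have hH'top : H' ≠ ⊤ := by
        intro h
        apply hH
        have h2 : (⊤ : Subgroup G).map (MulAut.conj g).toMonoidHom = ⊤ :=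
          map_top_of_surjective _ (MulAut.conj g).surjective
        exact Subgroup.map_injective (f := (MulAut.conj g).toMonoidHom) (MulAut.conj g).injective
          (h.trans h2.symm)
      refine good_of_coprime P Q H' hQc hH'Q hPH' w (hsup Q H' hH'top ⟨hH'Q, ⊥, bot_le, bot_le,
        IsPGroup.of_bot, by simp, ?_⟩ w)
      rw [relIndex_bot_left]
      intro h
      exact ((Nat.Prime.coprime_iff_not_dvd hp.out).mp hQc)
        (h.trans (card_dvd_of_le inf_le_left))

end

end Pool.MP_8aaf67_al.H5
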