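import Pool.Agent.Work.MP_8aaf67_al.H5.PGood

/-!
`SL(2, F)` is `p`-good for finite fields `F` of characteristic `p` that are generated by a unit of
odd order, different from one.
-/

namespace Pool.MP_8aaf67_al.H5

open Subgroup Matrix
open scoped commutatorElement MatrixGroups

section

/-- strong values are invariant under isomorphisms -/
lemma str_equiv {S S' : Type*} [Group S] [Group S'] (e : S ≃* S') (k : ℕ) (x : S)
    (hx : x ∈ str S k) : e x ∈ str S' k := by
  induction k generalizing x with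
  | zero => trivial
  | succ k ih =>
    obtain ⟨y, hy, z, hz, hyz, rfl⟩ := hx
    refine ⟨e y, ih y hy, e z, ih z hz, ?_, ?_⟩
    · have h1 := congrArg (Subgroup.map e.toMonoidHom) hyz
      rw [MonoidHom.map_closure, map_top_of_surjective _ e.surjective] at h1
      rw [← h1]
      congr 1
      simp [Set.image_pair]
    · exact (map_commutatorElement e y z).symm

lemma str_conj {S : Type*} [Group S] (k : ℕ) (g x : S) (hx : x ∈ str S k) :
    g * x * g⁻¹ ∈ str S k := str_equiv (MulAut.conj g) k x hx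

variable {F : Type*} [Field F]

/-- a matrix with given entries -/
def M2 (a b c d : F) (h : a * d - b * c = 1) : SL(2, F) :=
  ⟨!![a, b; c, d], by rw [Matrix.det_fin_two_of]; exact h⟩

lemma M2_ext {a b c d a' b' c' d' : F} {h : a * d - b * c = 1} {h' : a' * d' - b' * c' = 1}
    (ha : a = a') (hb : b = b') (hc : c = c') (hd : d = d') : M2 a b c d h = M2 a' b' c' d' h' := by
  subst ha hb hc hd; rfl

lemma M2_inj {a b c d a' b' c' d' : F} {h : a * d - b * c = 1} {h' : a' * d' - b' * c' = 1}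
    (he : M2 a b c d h = M2 a' b' c' d' h') : a = a' ∧ b = b' ∧ c = c' ∧ d = d' := by
  have h1 := congrArg Subtype.val he
  refine ⟨?_, ?_, ?_, ?_⟩
  · simpa [M2] using congrFun (congrFun h1 0) 0
  · simpa [M2] using congrFun (congrFun h1 0) 1
  · simpa [M2] using congrFun (congrFun h1 1) 0
  · simpa [M2] using congrFun (congrFun h1 1) 1

lemma M2_mul {a b c d a' b' c' d' : F} (h : a * d - b * c = 1) (h' : a' * d' - b' * c' = 1) :
    M2 a b c d h * M2 a' b' c' d' h' =
      M2 (a * a' + b * c') (a * b' + b * d') (c * a' + d * c') (c * b' + d * d')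
        (by linear_combination (a' * d' - b' * c') * h + h') := by
  apply Subtype.ext
  change !![a, b; c, d] * !![a', b'; c', d'] = _
  rw [Matrix.mul_fin_two]
  rfl

lemma one_M2 : (1 : SL(2, F)) = M2 1 0 0 1 (by simp) := by
  apply Subtype.ext
  exact Matrix.one_fin_two

lemma M2_inv {a b c d : F} (h : a * d - b * c = 1) :
    (M2 a b c d h)⁻¹ = M2 d (-b) (-c) a (by linear_combination h) := by
  rw [inv_eq_iff_mul_eq_one, M2_mul, one_M2]
  apply M2_ext
  · linear_combination h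
  · ring
  · ring
  · linear_combination h

lemma exists_M2 (g : SL(2, F)) : ∃ a b c d, ∃ h, g = M2 a b c d h := by
  refine ⟨g.1 0 0, g.1 0 1, g.1 1 0, g.1 1 1, ?_, ?_⟩
  · have := g.2
    rw [Matrix.det_fin_two] at this
    exact this
  · apply Subtype.ext
    exact Matrix.eta_fin_two _

/-- upper unipotent -/
def up (c : F) : SL(2, F) := M2 1 c 0 1 (by simp)

/-- lower unipotent -/
def lo (c : F) : SL(2, F) := M2 1 0 c 1 (by simp)

/-- diagonal -/
def dg (a : Fˣ) : SL(2, F) := M2 a 0 0 ((a⁻¹ : Fˣ) : F) (by simp)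

lemma up_mul (c d : F) : up c * up d = up (c + d) := by
  unfold up; rw [M2_mul]; apply M2_ext <;> ring

lemma dg_conj_up (a : Fˣ) (c : F) : dg a * up c * (dg a)⁻¹ = up ((a : F) ^ 2 * c) := by
  unfold up dg
  rw [M2_inv, M2_mul, M2_mul]
  apply M2_ext
  · simp
  · simp; ring
  · simp
  · simp

lemma dg_mul (a b : Fˣ) : dg a * dg b = dg (a * b) := by
  unfold dg; rw [M2_mul]; apply M2_ext <;> simp [mul_comm]

lemma up_zero : up (0 : F) = 1 := by unfold up; rw [one_M2]

lemma up_inv (c : F) : (up c)⁻¹ = up (-c) := by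
  rw [inv_eq_iff_mul_eq_one, up_mul, add_neg_cancel, up_zero]

/-- the elementary matrices generate -/
lemma closure_elem (H : Subgroup SL(2, F)) (hu : ∀ c, up c ∈ H) (hl : ∀ c, lo c ∈ H) : H = ⊤ := by
  rw [eq_top_iff]
  intro g _
  -- the case of a nonzero lower left entry
  have key : ∀ a b c d : F, ∀ h, c ≠ 0 → M2 a b c d h ∈ H := by
    intro a b c d h hc
    have e : M2 a b c d h = up ((a - 1) / c) * lo c * up ((d - 1) / c) := by
      unfold up lo
      rw [M2_mul, M2_mul]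
      apply M2_ext
      · field_simp; ring
      · field_simp; linear_combination (-1 : F) * h
      · field_simp; ring
      · field_simp; ring
    rw [e]
    exact H.mul_mem (H.mul_mem (hu _) (hl _)) (hu _)
  obtain ⟨a, b, c, d, h, rfl⟩ := exists_M2 g
  by_cases hc : c = 0
  · have ha : a ≠ 0 := by
      rintro rfl
      rw [hc] at h; simp at h
    have h1 : lo 1 * M2 a b c d h ∈ H := by
      unfold lo
      rw [M2_mul]
      apply key
      rw [hc]; simpa using ha
    have h2 := H.mul_mem (H.inv_mem (hl 1)) h1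
    simpa using h2
  · exact key a b c d h hc

/-- the homomorphism to the diagonal torus -/
def dgHom (F : Type*) [Field F] : Fˣ →* SL(2, F) where
  toFun := dg
  map_one' := by unfold dg; rw [one_M2]; apply M2_ext <;> simp
  map_mul' := fun a b => (dg_mul a b).symm

/-- the second generator -/
def yy (t : F) : SL(2, F) := M2 t (-1) 1 0 (by ring)

/-- the commutator of the two generators -/
def zz (γ : Fˣ) (t : F) : SL(2, F) := M2 γ (t * (1 - γ)) 0 ((γ⁻¹ : Fˣ) : F) (by simp)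

lemma comm_xy (δ γ : Fˣ) (hδ : δ ^ 2 = γ) (t : F) : ⁅dg δ, yy t⁆ = zz γ t := by
  subst hδ
  rw [commutatorElement_def]
  unfold dg yy zz
  rw [M2_inv, M2_inv, M2_mul, M2_mul, M2_mul]
  have hδ0 : (δ : F) ≠ 0 := δ.ne_zero
  apply M2_ext
  · simp only [Units.val_pow_eq_pow_val, Units.val_inv_eq_inv_val]
    field_simp
    ring
  · simp only [Units.val_pow_eq_pow_val, Units.val_inv_eq_inv_val]
    field_simp
    ring
  · simp
  · simp only [Units.val_pow_eq_pow_val, Units.val_inv_eq_inv_val]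
    field_simp
    ring

/-- the units of odd order, different from one, that generate the field -/
def GG (F : Type*) [Field F] : Set Fˣ :=
  {γ | Odd (orderOf γ) ∧ γ ≠ 1 ∧ Subring.closure {(γ : F)} = ⊤}

lemma GG_sqrt (γ : Fˣ) (hγ : γ ∈ GG F) : ∃ δ ∈ GG F, δ ^ 2 = γ := by
  obtain ⟨h1, h2, h3⟩ := hγ
  obtain ⟨k, hk⟩ := h1
  have hδ : (γ ^ (k + 1)) ^ 2 = γ := by
    rw [← pow_mul]
    have : (k + 1) * 2 = orderOf γ + 1 := by omega
    rw [this, pow_succ, pow_orderOf_eq_one, one_mul]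
  refine ⟨γ ^ (k + 1), ⟨?_, ?_, ?_⟩, hδ⟩
  · exact Odd.of_dvd_nat ⟨k, hk⟩ (orderOf_pow_dvd _)
  · intro h
    rw [h] at hδ
    exact h2 (by rw [← hδ]; simp)
  · rw [eq_top_iff, ← h3, Subring.closure_le, Set.singleton_subset_iff]
    have h4 : (γ : F) = ((γ ^ (k + 1) : Fˣ) : F) ^ 2 := by
      rw [← Units.val_pow_eq_pow_val, hδ]
    change (γ : F) ∈ Subring.closure {((γ ^ (k + 1) : Fˣ) : F)}
    rw [h4]
    exact Subring.pow_mem _ (Subring.subset_closure (Set.mem_singleton _)) 2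

lemma GG_sq_ne (γ : Fˣ) (hγ : γ ∈ GG F) : (γ : F) ^ 2 ≠ 1 := by
  intro h
  have h1 : γ ^ 2 = 1 := Units.ext (by simpa using h)
  have h2 : orderOf γ ∣ 2 := orderOf_dvd_of_pow_eq_one h1
  have h3 : orderOf γ = 1 := by
    rcases (Nat.dvd_prime Nat.prime_two).mp h2 with h | h
    · exact h
    · exact absurd hγ.1 (by rw [h]; decide)
  exact hγ.2.1 (orderOf_eq_one_iff.mp h3)

lemma GG_ne (γ : Fˣ) (hγ : γ ∈ GG F) : (γ : F) ≠ 1 := by
  intro h; exact GG_sq_ne γ hγ (by rw [h]; simp)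

lemma GG_t (γ : Fˣ) (hγ : γ ∈ GG F) : (γ : F) + ((γ⁻¹ : Fˣ) : F) ≠ 0 := by
  intro h
  have h3 : ((γ⁻¹ : Fˣ) : F) * γ = 1 := by simp
  have h4 : (γ : F) ^ 2 = -1 := by linear_combination (γ : F) * h - h3
  have h5 : γ ^ 4 = 1 := by
    apply Units.ext
    have : (γ : F) ^ 4 = 1 := by
      calc (γ : F) ^ 4 = ((γ : F) ^ 2) ^ 2 := by ring
        _ = 1 := by rw [h4]; ring
    simpa using this
  have h6 : orderOf γ ∣ 4 := orderOf_dvd_of_pow_eq_one h5
  have h7 : orderOf γ ∣ 1 := by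
    have h8 : Nat.Coprime (orderOf γ) 4 := by
      have := Nat.Coprime.pow_right 2 (Nat.coprime_two_right.mpr hγ.1)
      simpa using this
    have h9 := Nat.dvd_gcd (dvd_refl (orderOf γ)) h6
    rw [h8] at h9; exact h9
  exact hγ.2.1 (orderOf_eq_one_iff.mp (Nat.dvd_one.mp h7))

lemma GG_D (γ : Fˣ) (hγ : γ ∈ GG F) : (γ : F) - ((γ⁻¹ : Fˣ) : F) ≠ 0 := by
  intro h
  have h3 : ((γ⁻¹ : Fˣ) : F) * γ = 1 := by simp
  exact GG_sq_ne γ hγ (by linear_combination (γ : F) * h + h3)

lemma closure_xy (δ γ : Fˣ) (hδ : δ ^ 2 = γ) (hγ : γ ∈ GG F) (t : F) (ht : t ≠ 0) :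
    closure {dg δ, yy t} = ⊤ := by
  set H := closure ({dg δ, yy t} : Set SL(2, F)) with hH
  have hx : dg δ ∈ H := subset_closure (Or.inl rfl)
  have hy : yy t ∈ H := subset_closure (Or.inr rfl)
  have hz : zz γ t ∈ H := by
    rw [← comm_xy δ γ hδ t]
    exact H.mul_mem (H.mul_mem (H.mul_mem hx hy) (H.inv_mem hx)) (H.inv_mem hy)
  have hγH : dg γ ∈ H := by
    rw [← hδ, sq, ← dg_mul]; exact H.mul_mem hx hx
  set c0 : F := t * (1 - γ) * γ with hc0
  have hc0ne : c0 ≠ 0 := mul_ne_zero (mul_ne_zero ht (sub_ne_zero.mpr (GG_ne γ hγ).symm))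
    γ.ne_zero
  have hu0 : up c0 ∈ H := by
    have : up c0 = zz γ t * (dg γ)⁻¹ := by
      unfold up zz dg
      rw [M2_inv, M2_mul]
      apply M2_ext <;> simp [hc0]
    rw [this]
    exact H.mul_mem hz (H.inv_mem hγH)
  -- the multipliers
  let A : AddSubgroup F :=
    { carrier := {c | up (c * c0) ∈ H}
      zero_mem' := by
        change up ((0 : F) * c0) ∈ H
        rw [zero_mul, up_zero]; exact one_mem _
      add_mem' := by
        intro a b ha hb
        change up ((a + b) * c0) ∈ H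
        rw [add_mul, ← up_mul]; exact H.mul_mem ha hb
      neg_mem' := by
        intro a ha
        change up (-a * c0) ∈ H
        rw [neg_mul, ← up_inv]; exact H.inv_mem ha }
  have hAγ : ∀ c ∈ A, (γ : F) * c ∈ A := by
    intro c hc
    have h1 := dg_conj_up δ (c * c0)
    have h2 : (δ : F) ^ 2 = γ := by rw [← Units.val_pow_eq_pow_val, hδ]
    rw [h2] at h1
    change up ((γ : F) * c * c0) ∈ H
    rw [mul_assoc, ← h1]
    exact H.mul_mem (H.mul_mem hx hc) (H.inv_mem hx)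
  let R : Subring F :=
    { carrier := {r | ∀ c ∈ A, r * c ∈ A}
      one_mem' := by intro c hc; rw [one_mul]; exact hc
      mul_mem' := by
        intro a b ha hb c hc
        rw [mul_assoc]; exact ha _ (hb _ hc)
      zero_mem' := by intro c hc; rw [zero_mul]; exact A.zero_mem
      add_mem' := by
        intro a b ha hb c hc
        rw [add_mul]; exact A.add_mem (ha _ hc) (hb _ hc)
      neg_mem' := by
        intro a ha c hc
        rw [neg_mul]; exact A.neg_mem (ha _ hc) }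
  have hR : R = ⊤ := by
    rw [eq_top_iff, ← hγ.2.2, Subring.closure_le, Set.singleton_subset_iff]
    exact hAγ
  have hA1 : (1 : F) ∈ A := by
    change up (1 * c0) ∈ H
    rw [one_mul]; exact hu0
  have hu : ∀ c, up c ∈ H := by
    intro c
    have h1 : c / c0 ∈ R := by rw [hR]; trivial
    have h2 := h1 1 hA1
    change up (c / c0 * 1 * c0) ∈ H at h2
    rw [mul_one, div_mul_cancel₀ _ hc0ne] at h2
    exact h2
  refine closure_elem H hu (fun c => ?_)
  -- the Weyl element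
  set w : SL(2, F) := up (-t) * yy t with hw
  have hwH : w ∈ H := H.mul_mem (hu _) hy
  have h3 : lo c = w * up (-c) * w⁻¹ := by
    rw [hw]
    unfold up yy lo
    rw [M2_mul, M2_mul, M2_inv, M2_mul]
    apply M2_ext <;> simp
  rw [h3]
  exact H.mul_mem (H.mul_mem hwH (hu _)) (H.inv_mem hwH)

/-- conjugates of elements of the split torus -/
def ZZ (F : Type*) [Field F] : Set SL(2, F) :=
  {g | ∃ h : SL(2, F), ∃ γ ∈ GG F, g = h * dg γ * h⁻¹}

lemma yy_mem (β : Fˣ) (hβ : β ∈ GG F) : yy ((β : F) + ((β⁻¹ : Fˣ) : F)) ∈ ZZ F := by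
  set D : F := (β : F) - ((β⁻¹ : Fˣ) : F) with hD
  have hD0 : D ≠ 0 := GG_D β hβ
  have hbi : ((β⁻¹ : Fˣ) : F) * β = 1 := by simp
  have hDi : D⁻¹ * D = 1 := inv_mul_cancel₀ hD0
  refine ⟨M2 ((β : F) * D⁻¹) ((β⁻¹ : Fˣ) : F) D⁻¹ 1 (by linear_combination hDi - D⁻¹ * hD),
    β, hβ, ?_⟩
  unfold yy dg
  rw [M2_inv, M2_mul, M2_mul]
  have e : D⁻¹ * (β : F) - D⁻¹ * ((β⁻¹ : Fˣ) : F) = 1 := by rw [← mul_sub]; exact hDi
  apply M2_ext <;> clear hD hDi hD0 <;> generalize D⁻¹ = d at * <;> clear D <;>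
    generalize ((β⁻¹ : Fˣ) : F) = b at * <;> generalize (β : F) = a at *
  · linear_combination (-(a + b)) * e
  · linear_combination (a * b) * e + hbi
  · linear_combination (-1 : F) * e
  · ring

/-- one Sylow subgroup is enough -/
lemma pgood_of_one {S : Type*} [Group S] [Finite S] {p : ℕ} [Fact p.Prime] (P0 : Sylow p S)
    (h : ∀ k : ℕ, (P0 : Subgroup S) ≤ closure {x | (∃ a ∈ P0, ∃ b ∈ P0, x = ⁅a, b⁆) ∨
    ∃ R : Subgroup S, R ≤ P0 ∧ ∃ m ∈ normalizer (R : Set S), m ∈ str S k ∧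
      Nat.Coprime p (orderOf m) ∧ ∃ y ∈ R, x = dlt m y}) : PGood p S := by
  intro k P
  obtain ⟨g, hg⟩ := MulAction.exists_smul_eq S P0 P
  have hP : ∀ x, x ∈ P ↔ g⁻¹ * x * g ∈ P0 := by
    intro x
    rw [← hg]
    change x ∈ ((g • P0 : Sylow p S) : Subgroup S) ↔ g⁻¹ * x * g ∈ (P0 : Subgroup S)
    rw [Sylow.coe_subgroup_smul, Subgroup.mem_pointwise_smul_iff_inv_smul_mem]
    simp [MulAut.smul_def]
  have hPm : ∀ x ∈ P0, g * x * g⁻¹ ∈ P := by
    intro x hx
    rw [hP]
    have : g⁻¹ * (g * x * g⁻¹) * g = x := by group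
    rw [this]; exact hx
  intro x hx
  have h1 := h k ((hP x).mp hx)
  have h2 : x = MulAut.conj g (g⁻¹ * x * g) := by
    simp only [MulAut.conj_apply]; group
  rw [h2]
  have h3 := mem_map_of_mem (MulAut.conj g).toMonoidHom h1
  rw [MonoidHom.map_closure] at h3
  refine (Subgroup.closure_mono ?_) h3
  rintro _ ⟨z, hz, rfl⟩
  rcases hz with ⟨a, ha, b, hb, rfl⟩ | ⟨R, hR, m, hm, hms, hmo, y, hy, rfl⟩
  · exact Or.inl ⟨_, hPm a ha, _, hPm b hb, map_commutatorElement _ _ _⟩
  · refine Or.inr ⟨R.map (MulAut.conj g).toMonoidHom, ?_, g * m * g⁻¹, ?_, str_conj k g m hms,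
      ?_, g * y * g⁻¹, ⟨y, hy, rfl⟩, ?_⟩
    · rintro _ ⟨r, hr, rfl⟩
      exact hPm r (hR hr)
    · rw [mem_normalizer_iff] at hm ⊢
      intro r
      constructor
      · rintro ⟨r', hr', rfl⟩
        refine ⟨m * r' * m⁻¹, (hm r').mp hr', ?_⟩
        simp only [MulEquiv.toMonoidHom_eq_coe, MonoidHom.coe_coe, MulAut.conj_apply]
        group
      · rintro ⟨r', hr', hrr⟩
        refine ⟨m⁻¹ * r' * m, ?_, ?_⟩
        · change m⁻¹ * r' * m ∈ R
          rw [hm]
          have : m * (m⁻¹ * r' * m) * m⁻¹ = r' := by group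
          rw [this]; exact hr'
        · simp only [MulEquiv.toMonoidHom_eq_coe, MonoidHom.coe_coe, MulAut.conj_apply] at hrr ⊢
          have : r = (g * m⁻¹ * g⁻¹) * (g * m * g⁻¹ * r * (g * m * g⁻¹)⁻¹) * (g * m * g⁻¹) := by
            group
          rw [this, ← hrr]; group
    · have : g * m * g⁻¹ = MulAut.conj g m := rfl
      rw [this, MulEquiv.orderOf_eq]; exact hmo
    · simp only [dlt, MulEquiv.toMonoidHom_eq_coe, MonoidHom.coe_coe, MulAut.conj_apply]
      group

lemma ZZ_str (k : ℕ) : ZZ F ⊆ str SL(2, F) k := by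
  induction k with
  | zero => exact fun _ _ => trivial
  | succ k ih =>
    rintro g ⟨h, γ, hγ, rfl⟩
    apply str_conj
    have hγ0 : (γ : F) ≠ 0 := γ.ne_zero
    have hs := GG_D γ hγ
    obtain ⟨δ, hδt, hδ⟩ := GG_sqrt γ hγ
    set t : F := (γ : F) + ((γ⁻¹ : Fˣ) : F) with ht
    have hz : zz γ t ∈ str SL(2, F) (k + 1) := by
      refine ⟨dg δ, ih ⟨1, δ, hδt, by simp⟩, yy t, ih (yy_mem γ hγ), ?_, ?_⟩
      · exact closure_xy δ γ hδ hγ t (GG_t γ hγ)
      · exact comm_xy δ γ hδ _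
    have e : dg γ = (up (-(t * (1 - γ)) / ((γ : F) - ((γ⁻¹ : Fˣ) : F))))⁻¹ * zz γ t *
        (up (-(t * (1 - γ)) / ((γ : F) - ((γ⁻¹ : Fˣ) : F))))⁻¹⁻¹ := by
      rw [inv_inv, up_inv]
      unfold up zz dg
      rw [M2_mul, M2_mul]
      apply M2_ext
      · simp
      · field_simp
        ring
      · simp
      · simp
    rw [e]
    exact str_conj _ _ _ hz

/-- the upper unipotent group -/
def UU (F : Type*) [Field F] : Subgroup SL(2, F) where
  carrier := {g | ∃ c, g = up c}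
  one_mem' := ⟨0, up_zero.symm⟩
  mul_mem' := by
    rintro _ _ ⟨c, rfl⟩ ⟨d, rfl⟩
    exact ⟨c + d, up_mul c d⟩
  inv_mem' := by
    rintro _ ⟨c, rfl⟩
    exact ⟨-c, up_inv c⟩

lemma up_pow (c : F) (n : ℕ) : (up c) ^ n = up ((n : F) * c) := by
  induction n with
  | zero => simp [up_zero]
  | succ n ih => rw [pow_succ, ih, up_mul]; congr 1; push_cast; ring

lemma tri_pow (a b d : F) (h : a * d - b * 0 = 1) (n : ℕ) :
    ∃ b' h', (M2 a b 0 d h) ^ n = M2 (a ^ n) b' 0 (d ^ n) h' := by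
  induction n with
  | zero => exact ⟨0, by simp, by rw [pow_zero, one_M2]; apply M2_ext <;> simp⟩
  | succ n ih =>
    obtain ⟨b', h', e⟩ := ih
    refine ⟨a ^ n * b + b' * d, by
      have : a * d = 1 := by linear_combination h
      rw [mul_zero, sub_zero, ← mul_pow, this, one_pow], ?_⟩
    rw [pow_succ, e, M2_mul]
    apply M2_ext
    · rw [pow_succ]; ring
    · ring
    · ring
    · rw [pow_succ]; ring

theorem pgood_SL2 [Finite F] {p : ℕ} [hp : Fact p.Prime] [CharP F p] (hF : (GG F).Nonempty) :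
    PGood p SL(2, F) := by
  obtain ⟨γ, hγ⟩ := hF
  have hUp : IsPGroup p (UU F) := by
    rintro ⟨_, c, rfl⟩
    refine ⟨1, ?_⟩
    apply Subtype.ext
    change (up c) ^ p ^ 1 = 1
    rw [pow_one, up_pow, CharP.cast_eq_zero, zero_mul, up_zero]
  obtain ⟨P0, hP0⟩ := hUp.exists_le_sylow
  have hupP : ∀ c, up c ∈ P0 := fun c => hP0 ⟨c, rfl⟩
  -- an upper triangular matrix in `P0` is unipotent
  have htri : ∀ a b d : F, ∀ h, M2 a b 0 d h ∈ P0 → M2 a b 0 d h = up b := by
    intro a b d h hm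
    obtain ⟨n, hn⟩ := P0.2 ⟨_, hm⟩
    have h1 : (M2 a b 0 d h) ^ p ^ n = 1 := by
      have := congrArg Subtype.val hn
      rw [SubmonoidClass.coe_pow] at this
      exact this
    obtain ⟨b', h', e⟩ := tri_pow a b d h (p ^ n)
    rw [e, one_M2] at h1
    obtain ⟨ha, -, -, hd⟩ := M2_inj h1
    have hroot : ∀ a : F, a ^ p ^ n = 1 → a = 1 := by
      intro a ha
      have h2 : (a - 1) ^ p ^ n = 0 := by
        rw [sub_pow_char_pow, ha, one_pow, sub_self]
      exact sub_eq_zero.mp (pow_eq_zero_iff (pow_ne_zero n hp.out.ne_zero) |>.mp h2)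
    unfold up
    exact M2_ext (hroot a ha) rfl rfl (hroot d hd)
  have hPU : (P0 : Subgroup SL(2, F)) ≤ UU F := by
    have hnt : Nontrivial P0 := by
      refine ⟨⟨⟨1, one_mem _⟩, ⟨up 1, hupP 1⟩, ?_⟩⟩
      intro h
      have h1 := congrArg Subtype.val h
      change (1 : SL(2, F)) = up 1 at h1
      unfold up at h1
      rw [one_M2] at h1
      exact zero_ne_one (M2_inj h1).2.1
    have h0 : Finite P0 := inferInstance
    have hc := IsPGroup.center_nontrivial P0.2
    obtain ⟨⟨⟨z, hz⟩, hzc⟩, hz1⟩ := exists_ne (1 : center P0)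
    rw [mem_center_iff] at hzc
    have hz1' : z ≠ 1 := fun h => hz1 (by apply Subtype.ext; apply Subtype.ext; exact h)
    have hcomm : ∀ g ∈ P0, g * z = z * g := fun g hg => congrArg Subtype.val (hzc ⟨g, hg⟩)
    obtain ⟨a, b, c, d, h, rfl⟩ := exists_M2 z
    have h1 := hcomm (up 1) (hupP 1)
    unfold up at h1
    rw [M2_mul, M2_mul] at h1
    obtain ⟨e1, e2, e3, e4⟩ := M2_inj h1
    have hc0 : c = 0 := by linear_combination e1
    subst hc0
    have hzu := htri a b d h hz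
    rw [hzu] at hcomm hz1'
    have hb0 : b ≠ 0 := by rintro rfl; exact hz1' up_zero
    intro g hg
    obtain ⟨a', b', c', d', h', rfl⟩ := exists_M2 g
    have h2 := hcomm _ hg
    unfold up at h2
    rw [M2_mul, M2_mul] at h2
    obtain ⟨f1, f2, f3, f4⟩ := M2_inj h2
    have hc0 : c' = 0 := by
      have : b * c' = 0 := by linear_combination -f1
      exact (mul_eq_zero.mp this).resolve_left hb0
    subst hc0
    exact ⟨b', htri a' b' d' h' hg⟩
  apply pgood_of_one P0
  intro k x hx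
  obtain ⟨b, rfl⟩ := hPU hx
  apply Subgroup.subset_closure
  right
  have hg2 : (γ : F) ^ 2 - 1 ≠ 0 := sub_ne_zero.mpr (GG_sq_ne γ hγ)
  have hcj : ∀ δ : Fˣ, ∀ c : F, dg δ * up c * (dg δ)⁻¹ ∈ (P0 : Subgroup SL(2, F)) := by
    intro δ c; rw [dg_conj_up]; exact hupP _
  refine ⟨P0, le_rfl, dg γ, ?_, ZZ_str k ⟨1, γ, hγ, by simp⟩, ?_,
    up (b / ((γ : F) ^ 2 - 1)), hupP _, ?_⟩
  · rw [mem_normalizer_iff]
    intro g
    constructor
    · intro hg
      obtain ⟨c, rfl⟩ := hPU hg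
      exact hcj γ c
    · intro hg
      obtain ⟨c, hc⟩ := hPU hg
      have h1 : g = dg γ⁻¹ * up c * (dg γ⁻¹)⁻¹ := by
        rw [← hc]
        have h2 : dg γ⁻¹ = (dg γ)⁻¹ := map_inv (dgHom F) γ
        rw [h2]; group
      rw [h1]
      exact hcj γ⁻¹ c
  · have h1 : orderOf (dg γ) ∣ Nat.card F - 1 := by
      have h2 : orderOf (dg γ) ∣ orderOf γ := orderOf_map_dvd (dgHom F) γ
      have h3 : Nat.card Fˣ = Nat.card F - 1 := by
        cases nonempty_fintype F
        classical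
        rw [Nat.card_eq_fintype_card, Nat.card_eq_fintype_card, Fintype.card_units]
      rw [← h3]
      exact h2.trans (orderOf_dvd_natCard γ)
    have h2 : p ∣ Nat.card F := by
      cases nonempty_fintype F
      rw [Nat.card_eq_fintype_card]
      exact (CharP.cast_eq_zero_iff F p _).mp (Nat.cast_card_eq_zero F)
    rw [hp.out.coprime_iff_not_dvd]
    intro h3
    have h4 : p ∣ Nat.card F - 1 := h3.trans h1
    have h5 : 0 < Nat.card F := Nat.card_pos
    have h6 : p ∣ 1 := by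
      have := (Nat.dvd_sub_iff_right (by omega : Nat.card F - 1 ≤ Nat.card F) h2).mp
      have h7 : Nat.card F = (Nat.card F - 1) + 1 := by omega
      rw [h7] at h2
      exact (Nat.dvd_add_right h4).mp h2
    exact hp.out.one_lt.ne' (Nat.dvd_one.mp h6)
  · unfold dlt
    rw [dg_conj_up, up_inv, up_mul]
    congr 1
    field_simp
    ring

end

end Pool.MP_8aaf67_al.H5
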