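import Pool.Agent.Work.MP_8aaf67_al.H5.Gamma
import Pool.Agent.Work.MP_8aaf67_al.H5.Reduction

/-!
Commutators of generating pairs, and their lifts through Frattini extensions.
-/

namespace Pool.MP_8aaf67_al.H5

open Subgroup
open scoped commutatorElement

section
variable {G : Type*} [Group G]

/-- strong derived values: all commutators are taken between generating pairs -/
def str (G : Type*) [Group G] : ℕ → Set G
  | 0 => Set.univ
  | n + 1 => {x | ∃ y ∈ str G n, ∃ z ∈ str G n, closure {y, z} = ⊤ ∧ ⁅y, z⁆ = x}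

/-- strong derived values modulo `Q` -/
def rstr (Q : Subgroup G) : ℕ → Set G
  | 0 => Set.univ
  | n + 1 => {x | ∃ y ∈ rstr Q n, ∃ z ∈ rstr Q n, closure {y, z} ⊔ Q = ⊤ ∧ x⁻¹ * ⁅y, z⁆ ∈ Q}

/-- the derived words -/
def del : ℕ → Tree
  | 0 => .leaf
  | n + 1 => .node (del n) (del n)

lemma str_sub (n : ℕ) : str G n ⊆ vals G (del n) := by
  induction n with
  | zero => exact fun _ _ => trivial
  | succ n ih =>
    rintro x ⟨y, hy, z, hz, -, rfl⟩
    exact ⟨y, ih hy, z, ih hz, rfl⟩

lemma del_succ (n : ℕ) : vals G (del (n + 1)) ⊆ vals G (del n) := by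
  induction n with
  | zero => exact fun _ _ => trivial
  | succ n ih =>
    rintro x ⟨y, hy, z, hz, rfl⟩
    exact ⟨y, ih hy, z, ih hz, rfl⟩

lemma del_anti {m n : ℕ} (h : m ≤ n) : vals G (del n) ⊆ vals G (del m) := by
  induction h with
  | refl => exact fun _ h => h
  | step _ ih => exact (del_succ _).trans ih

/-- the height of a word -/
def height : Tree → ℕ
  | .leaf => 0
  | .node u v => max (height u) (height v) + 1

lemma del_height (w : Tree) : vals G (del (height w)) ⊆ vals G w := by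
  induction w with
  | leaf => exact fun _ _ => trivial
  | node u v hu hv =>
    rintro x ⟨y, hy, z, hz, rfl⟩
    exact ⟨y, hu (del_anti (le_max_left _ _) hy), z, hv (del_anti (le_max_right _ _) hz), rfl⟩

/-- lifting strong values through a Frattini extension -/
lemma str_lift {M : Subgroup G} [M.Normal] (hM : ∀ H : Subgroup G, H ⊔ M = ⊤ → H = ⊤) (n : ℕ)
    (x : G ⧸ M) (hx : x ∈ str (G ⧸ M) n) : ∃ y ∈ str G n, QuotientGroup.mk' M y = x := by
  induction n generalizing x with
  | zero =>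
    obtain ⟨y, rfl⟩ := QuotientGroup.mk'_surjective M x
    exact ⟨y, trivial, rfl⟩
  | succ n ih =>
    obtain ⟨y, hy, z, hz, hyz, rfl⟩ := hx
    obtain ⟨y', hy', rfl⟩ := ih y hy
    obtain ⟨z', hz', rfl⟩ := ih z hz
    refine ⟨⁅y', z'⁆, ⟨y', hy', z', hz', ?_, rfl⟩, map_commutatorElement _ _ _⟩
    apply hM
    have h1 : (closure {y', z'} : Subgroup G).map (QuotientGroup.mk' M) = ⊤ := by
      rw [MonoidHom.map_closure, Set.image_pair, hyz]
    have h2 := congrArg (Subgroup.comap (QuotientGroup.mk' M)) h1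
    rw [comap_map_eq, QuotientGroup.ker_mk', comap_top] at h2
    exact h2

/-- a minimal normal subgroup that is not central is absorbed by strong values -/
lemma str_absorb [Finite G] {M : Subgroup G} [hMn : M.Normal]
    (hfr : ∀ H : Subgroup G, H ⊔ M = ⊤ → H = ⊤)
    (hab : ∀ a ∈ M, ∀ b ∈ M, a * b = b * a)
    (hmin : ∀ N : Subgroup G, N.Normal → N ≤ M → N = ⊥ ∨ N = M)
    (hnc : ¬ ∀ a ∈ M, ∀ g : G, g * a * g⁻¹ = a) (n : ℕ) (x : G) (hx : x ∈ str G n) (c : G)
    (hc : c ∈ M) : c * x ∈ str G n := by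
  induction n generalizing x c with
  | zero => trivial
  | succ n ih =>
    obtain ⟨y, hy, z, hz, hyz, rfl⟩ := hx
    have hcj : ∀ a ∈ M, ∀ g : G, g * a * g⁻¹ ∈ M := fun a ha g => hMn.conj_mem a ha g
    have hcj' : ∀ a ∈ M, ∀ g : G, g⁻¹ * a * g ∈ M := fun a ha g => by
      simpa using hMn.conj_mem a ha g⁻¹
    -- the subgroup of all changes
    let φ : G → G → G := fun a b => (a * (z * a⁻¹ * z⁻¹)) * (z * (b * (y⁻¹ * b⁻¹ * y)) * z⁻¹)
    have hφM : ∀ a ∈ M, ∀ b ∈ M, φ a b ∈ M := fun a ha b hb =>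
      M.mul_mem (M.mul_mem ha (hcj _ (M.inv_mem ha) z))
        (hcj _ (M.mul_mem hb (hcj' _ (M.inv_mem hb) y)) z)
    have hφmul : ∀ a ∈ M, ∀ b ∈ M, ∀ a' ∈ M, ∀ b' ∈ M, φ a b * φ a' b' = φ (a * a') (b * b') := by
      intro a ha b hb a' ha' b' hb'
      have e1 : z * (a * a')⁻¹ * z⁻¹ = (z * a'⁻¹ * z⁻¹) * (z * a⁻¹ * z⁻¹) := by group
      have e2 : y⁻¹ * (b * b')⁻¹ * y = (y⁻¹ * b'⁻¹ * y) * (y⁻¹ * b⁻¹ * y) := by group
      have e3 : z * (b * b' * ((y⁻¹ * b'⁻¹ * y) * (y⁻¹ * b⁻¹ * y))) * z⁻¹ =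
        (z * b * z⁻¹) * (z * b' * z⁻¹) * ((z * (y⁻¹ * b'⁻¹ * y) * z⁻¹) *
          (z * (y⁻¹ * b⁻¹ * y) * z⁻¹)) := by group
      have e4 : ∀ b : G, z * (b * (y⁻¹ * b⁻¹ * y)) * z⁻¹ = (z * b * z⁻¹) *
        (z * (y⁻¹ * b⁻¹ * y) * z⁻¹) := by intro b; group
      simp only [φ]
      rw [e1, e2, e3, e4, e4]
      have m1 := hcj _ (M.inv_mem ha) z
      have m2 := hcj _ (M.inv_mem ha') z
      have m3 := hcj _ hb z
      have m4 := hcj _ hb' z
      have m5 := hcj _ (hcj' _ (M.inv_mem hb) y) z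
      have m6 := hcj _ (hcj' _ (M.inv_mem hb') y) z
      generalize z * a⁻¹ * z⁻¹ = A1 at *
      generalize z * a'⁻¹ * z⁻¹ = A2 at *
      generalize z * b * z⁻¹ = A3 at *
      generalize z * b' * z⁻¹ = A4 at *
      generalize z * (y⁻¹ * b⁻¹ * y) * z⁻¹ = A5 at *
      generalize z * (y⁻¹ * b'⁻¹ * y) * z⁻¹ = A6 at *
      have key : ∀ u v w s t r o n : M, (u * v * (w * s)) * (t * r * (o * n)) =
          (u * t * (r * v)) * ((w * o) * (n * s)) := by
        intro u v w s t r o n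
        let _ : CommGroup M := { (inferInstance : Group M) with
          mul_comm := fun a b => Subtype.ext (hab a a.2 b b.2) }
        have : (u * v * (w * s)) * (t * r * (o * n)) = (u * t * (r * v)) * ((w * o) * (n * s)) := by
          simp only [mul_left_comm, mul_comm]
        exact this
      have := congrArg Subtype.val (key ⟨a, ha⟩ ⟨A1, m1⟩ ⟨A3, m3⟩ ⟨A5, m5⟩ ⟨a', ha'⟩ ⟨A2, m2⟩
        ⟨A4, m4⟩ ⟨A6, m6⟩)
      simpa using this
    have hφ1 : φ 1 1 = 1 := by simp [φ]
    let W : Subgroup G :=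
      { carrier := {w | ∃ a ∈ M, ∃ b ∈ M, w = φ a b}
        one_mem' := ⟨1, M.one_mem, 1, M.one_mem, hφ1.symm⟩
        mul_mem' := by
          rintro _ _ ⟨a, ha, b, hb, rfl⟩ ⟨a', ha', b', hb', rfl⟩
          exact ⟨a * a', M.mul_mem ha ha', b * b', M.mul_mem hb hb', hφmul a ha b hb a' ha' b' hb'⟩
        inv_mem' := by
          rintro _ ⟨a, ha, b, hb, rfl⟩
          refine ⟨a⁻¹, M.inv_mem ha, b⁻¹, M.inv_mem hb, ?_⟩
          rw [inv_eq_iff_mul_eq_one, hφmul a ha b hb _ (M.inv_mem ha) _ (M.inv_mem hb),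
            mul_inv_cancel, mul_inv_cancel, hφ1] }
    have hWM : W ≤ M := by
      rintro _ ⟨a, ha, b, hb, rfl⟩
      exact hφM a ha b hb
    -- elements of the two basic types
    have hW1 : ∀ a ∈ M, a * (z * a⁻¹ * z⁻¹) ∈ W := fun a ha =>
      ⟨a, ha, 1, M.one_mem, by simp [φ]⟩
    have hW2 : ∀ b ∈ M, b * (y⁻¹ * b⁻¹ * y) ∈ W := by
      intro b hb
      set e := b * (y⁻¹ * b⁻¹ * y) with he
      have heM : e ∈ M := M.mul_mem hb (hcj' _ (M.inv_mem hb) y)
      have h1 : z * e * z⁻¹ ∈ W := ⟨1, M.one_mem, b, hb, by simp [φ, he]⟩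
      have h2 := hW1 e heM
      have h3 : e = (z * e * z⁻¹) * (e * (z * e⁻¹ * z⁻¹)) := by
        rw [hab _ (hcj e heM z) _ (M.mul_mem heM (hcj _ (M.inv_mem heM) z))]
        group
      rw [h3]
      exact W.mul_mem h1 h2
    have hzN : z ∈ normalizer (W : Set G) := by
      apply mem_normalizer_of_conj
      intro w hw
      have h1 := hW1 w⁻¹ (M.inv_mem (hWM hw))
      have e : z * w * z⁻¹ = w * (w⁻¹ * (z * w⁻¹⁻¹ * z⁻¹)) := by group
      rw [e]
      exact W.mul_mem hw h1
    have hyN : y ∈ normalizer (W : Set G) := by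
      have h0 : y⁻¹ ∈ normalizer (W : Set G) := by
        apply mem_normalizer_of_conj
        intro w hw
        have h1 := hW2 w⁻¹ (M.inv_mem (hWM hw))
        have e : y⁻¹ * w * y⁻¹⁻¹ = w * (w⁻¹ * (y⁻¹ * w⁻¹⁻¹ * y)) := by group
        rw [e]
        exact W.mul_mem hw h1
      simpa using inv_mem h0
    have hWn : W.Normal := by
      rw [← normalizer_eq_top_iff, eq_top_iff, ← hyz, closure_le]
      rintro g (rfl | hg)
      · exact hyN
      · rw [Set.mem_singleton_iff] at hg; subst hg; exact hzN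
    rcases hmin W hWn hWM with hW | hW
    · exfalso
      apply hnc
      intro a ha
      have hbot : ∀ w ∈ W, w = 1 := fun w hw => by rw [hW] at hw; exact mem_bot.mp hw
      have h1 : ∀ g ∈ closure ({y, z} : Set G), g * a = a * g := by
        intro g hg
        have : closure ({y, z} : Set G) ≤ centralizer ({a} : Set G) := by
          rw [closure_le]
          rintro g (rfl | hg)
          · rw [SetLike.mem_coe, mem_centralizer_iff]
            intro s hs
            rw [Set.mem_singleton_iff.mp hs]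
            have h2 := hbot _ (hW2 a ha)
            have h3 : a = g⁻¹ * a * g := by
              have : a * (g⁻¹ * a⁻¹ * g) = a * (g⁻¹ * a * g)⁻¹ := by group
              rw [this] at h2
              exact mul_inv_eq_one.mp h2
            calc a * g = g * (g⁻¹ * a * g) := by group
              _ = g * a := by rw [← h3]
          · rw [Set.mem_singleton_iff] at hg; subst hg
            rw [SetLike.mem_coe, mem_centralizer_iff]
            intro s hs
            rw [Set.mem_singleton_iff.mp hs]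
            have h2 := hbot _ (hW1 a ha)
            have h3 : a = g * a * g⁻¹ := by
              have : a * (g * a⁻¹ * g⁻¹) = a * (g * a * g⁻¹)⁻¹ := by group
              rw [this] at h2
              exact mul_inv_eq_one.mp h2
            calc a * g = (g * a * g⁻¹) * g := by rw [← h3]
              _ = g * a := by group
        exact (mem_centralizer_iff.mp (this hg) a rfl).symm
      intro g
      have h2 := h1 g (hyz ▸ mem_top g)
      rw [h2]; group
    · have hc' : y⁻¹ * c * y ∈ W := by rw [hW]; exact hcj' c hc y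
      obtain ⟨a, ha, b, hb, hcab⟩ := hc'
      refine ⟨(y * a * y⁻¹) * y, ih y hy _ (hcj a ha y), (z * b * z⁻¹) * z, ih z hz _ (hcj b hb z),
        ?_, ?_⟩
      · apply hfr
        rw [eq_top_iff, ← hyz, closure_le]
        have h1 : ∀ c' ∈ M, ∀ g u v : G, c' * g ∈ ({u, v} : Set G) →
            g ∈ (closure {u, v} ⊔ M : Subgroup G) := by
          intro c' hc' g u v h
          have : g = c'⁻¹ * (c' * g) := by group
          rw [this]
          exact mul_mem (mem_sup_right (M.inv_mem hc')) (mem_sup_left (subset_closure h))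
        rintro g (rfl | hg)
        · exact h1 _ (hcj a ha g) g _ _ (Or.inl rfl)
        · rw [Set.mem_singleton_iff] at hg; subst hg
          exact h1 _ (hcj b hb g) g _ _ (Or.inr rfl)
      · -- the computation
        have h1 : c = y * φ a b * y⁻¹ := by
          rw [← hcab]; group
        rw [h1]
        have e1 : ⁅y * a * y⁻¹ * y, z * b * z⁻¹ * z⁆ =
          y * (a * (z * b * z⁻¹) * (z * a⁻¹ * z⁻¹) * (z * (y⁻¹ * b⁻¹ * y) * z⁻¹)) * y⁻¹ *
            ⁅y, z⁆ := by
          simp only [commutatorElement_def]; group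
        rw [e1]
        have e2 : φ a b = a * (z * a⁻¹ * z⁻¹) * ((z * b * z⁻¹) * (z * (y⁻¹ * b⁻¹ * y) * z⁻¹)) := by
          simp only [φ]; group
        rw [e2]
        have m1 := hcj _ (M.inv_mem ha) z
        have m3 := hcj _ hb z
        have e3 : a * (z * b * z⁻¹) * (z * a⁻¹ * z⁻¹) * (z * (y⁻¹ * b⁻¹ * y) * z⁻¹) =
          a * (z * a⁻¹ * z⁻¹) * ((z * b * z⁻¹) * (z * (y⁻¹ * b⁻¹ * y) * z⁻¹)) := by
          have := hab _ m3 _ m1
          calc a * (z * b * z⁻¹) * (z * a⁻¹ * z⁻¹) * (z * (y⁻¹ * b⁻¹ * y) * z⁻¹)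
              = a * ((z * b * z⁻¹) * (z * a⁻¹ * z⁻¹)) * (z * (y⁻¹ * b⁻¹ * y) * z⁻¹) := by
                simp only [mul_assoc]
            _ = _ := by rw [this]; simp only [mul_assoc]
        rw [e3]

end

end Pool.MP_8aaf67_al.H5
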