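import Pool.Agent.Work.MP_8aaf67_al.H5.SL2
import Pool.Agent.Work.MP_8aaf67_al.H5.Class

/-!
Quotients of `p`-good groups.
-/

universe u

namespace Pool.MP_8aaf67_al.H5

open Subgroup
open scoped commutatorElement MatrixGroups

section

lemma str_surj {S S' : Type*} [Group S] [Group S'] (f : S →* S') (hf : Function.Surjective f)
    (k : ℕ) (x : S) (hx : x ∈ str S k) : f x ∈ str S' k := by
  induction k generalizing x with
  | zero => trivial
  | succ k ih =>
    obtain ⟨y, hy, z, hz, hyz, rfl⟩ := hx
    refine ⟨f y, ih y hy, f z, ih z hz, ?_, ?_⟩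
    · have h1 := congrArg (Subgroup.map f) hyz
      rw [MonoidHom.map_closure, map_top_of_surjective _ hf] at h1
      rw [← h1]
      congr 1
      simp [Set.image_pair]
    · exact (map_commutatorElement f y z).symm

lemma pgood_surj {S S' : Type*} [Group S] [Group S'] [Finite S] {p : ℕ} [Fact p.Prime]
    (f : S →* S') (hf : Function.Surjective f) (hS : PGood p S) : PGood p S' := by
  have hfin : Finite S' := Finite.of_surjective f hf
  obtain ⟨P⟩ : Nonempty (Sylow p S) := inferInstance
  apply pgood_of_one (P.mapSurjective hf)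
  intro k
  have h1 := map_mono (f := f) (hS k P)
  rw [MonoidHom.map_closure] at h1
  refine le_trans ?_ (h1.trans (Subgroup.closure_mono ?_))
  · exact le_rfl
  · rintro _ ⟨x, hx, rfl⟩
    rcases hx with ⟨a, ha, b, hb, rfl⟩ | ⟨R, hR, m, hm, hms, hmo, y, hy, rfl⟩
    · exact Or.inl ⟨f a, ⟨a, ha, rfl⟩, f b, ⟨b, hb, rfl⟩, map_commutatorElement _ _ _⟩
    · refine Or.inr ⟨R.map f, map_mono hR, f m, ?_, str_surj f hf k m hms, ?_, f y,
        ⟨y, hy, rfl⟩, ?_⟩
      · rw [mem_normalizer_iff] at hm ⊢
        intro r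
        constructor
        · rintro ⟨r', hr', rfl⟩
          exact ⟨m * r' * m⁻¹, (hm r').mp hr', by simp⟩
        · rintro ⟨r', hr', hrr⟩
          refine ⟨m⁻¹ * r' * m, ?_, ?_⟩
          · change m⁻¹ * r' * m ∈ R
            rw [hm]
            have : m * (m⁻¹ * r' * m) * m⁻¹ = r' := by group
            rw [this]; exact hr'
          · rw [map_mul, map_mul, map_inv, hrr]; group
      · exact Nat.Coprime.coprime_dvd_right (orderOf_map_dvd f m) hmo
      · simp only [dlt, map_mul, map_inv]

end

end Pool.MP_8aaf67_al.H5
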